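import Pool.Agent.LibEX75.C3

/-!
[EX75 S1] the parts of the colours. `tT_prt`: linearity; for `single p m` (`tT_single`): `vpt` of `prt j p` is `vpt` of `p` if `j' = j`, and zero otherwise
(for `x` in the colour `j'`, `κ _ = j' ≠ j`: `trk` of zero), and `tS` of a symbol with point zero is zero (`tS_single`). `nmM_prt`: `prt` does not change the matrix.
`prt_sum`: `critM` for `b' = b - ∑ j, b.mapDomain (prt E κ j)`: conditions of the support (`Finsupp.support_sub`, `Finsupp.mapDomain_support`; `zero_mem`),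
`nmM b' = nmM b - ∑ j, nmM b = 0`; the test `j'` of `b'` is `tT b - tT b = 0`.
-/

open WeierstrassCurve Pool.Agent.LibBH2 Pool.Agent.LibIG50 Pool.Agent.LibCHd Pool.Agent.LibGG
  Pool.Agent.LibAC34 Pool.Agent.LibAF11 Pool.Agent.LibER34 Pool.Agent.LibEQ34
open scoped Classical ComplexConjugate

namespace Pool.Agent.LibEX75

variable {K : Type} [Field K] [Algebra K Qb] {n r D : ℕ}

theorem S1_trk_zero {V W : WeierstrassCurve Qb} : trk V W (0 : V.toAffine.Point) = 0 := by
  have h := trk_zsmul (V := V) (W := W) 0 (0 : V.toAffine.Point)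
  rwa [zero_smul, zero_smul] at h

theorem S1_smk_zero {W : WeierstrassCurve Qb} (w : Hm W W) (p : ℤ × ℤ) :
    smk w p (0 : W.toAffine.Point) = 0 := by
  have h := smk_zsmul w p (0 : ℤ) (0 : W.toAffine.Point)
  rwa [zero_zsmul, zero_zsmul] at h

theorem S1_vpt_self (E : Fin n → WeierstrassCurve K) (κ : Fin r → Fin n) (j : Fin n)
    (p : PM E κ D) : vpt E κ j (prt E κ j p).2 = vpt E κ j p.2 := by
  funext x
  simp only [vpt, prt]
  rw [if_pos (ix κ j x).2]

theorem S1_vpt_ne (E : Fin n → WeierstrassCurve K) (κ : Fin r → Fin n) {j j' : Fin n}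
    (h : j' ≠ j) (p : PM E κ D) : vpt E κ j' (prt E κ j p).2 = fun _ => 0 := by
  funext x
  simp only [vpt, prt]
  rw [if_neg (fun h' => h ((ix κ j' x).2.symm.trans h'))]
  exact S1_trk_zero

theorem tT_prt (c : CM) (E : Fin n → WeierstrassCurve K) (κ : Fin r → Fin n) (μ : Fin D → Fin n)
    (j j' : Fin n) (f : Matrix (Fin r) (Fin D) (ℤ × ℤ) → ℤ)
    (s : Sb (num κ j') (num μ j') × Sb (num κ j') (num μ j' + 1)) (b : PM E κ D →₀ ℤ) :
    tT c E κ μ j' f s (b.mapDomain (prt E κ j)) = if j' = j then tT c E κ μ j' f s b else 0 := by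
  induction b using Finsupp.induction_linear with
  | zero => simp
  | add b b' h h' =>
    rw [Finsupp.mapDomain_add, map_add, h, h', map_add]
    split_ifs <;> simp
  | single p m =>
    rw [Finsupp.mapDomain_single, tT_single, tT_single]
    split_ifs with hj
    · subst hj
      rw [S1_vpt_self]
      rfl
    · rw [S1_vpt_ne E κ hj, tS_single]
      simp [S1_smk_zero]

theorem nmM_prt (c : CM) (E : Fin n → WeierstrassCurve K) (κ : Fin r → Fin n) (j : Fin n)
    (M : Matrix (Fin r) (Fin D) (ℤ × ℤ)) (b : PM E κ D →₀ ℤ) :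
    nmM c M (b.mapDomain (prt E κ j)) = nmM c M b := by
  induction b using Finsupp.induction_linear with
  | zero => simp
  | add b b' h h' => rw [Finsupp.mapDomain_add, map_add, h, h', map_add]
  | single p m =>
    rw [Finsupp.mapDomain_single, nmM, Finsupp.liftAddHom_apply_single,
      Finsupp.liftAddHom_apply_single]
    rfl

theorem supp_prt {Γ : Grid} {c : CM} {E : Fin n → WeierstrassCurve K} {κ : Fin r → Fin n}
    {μ : Fin D → Fin n} {b : PM E κ D →₀ ℤ}
    (h1 : ∀ p ∈ b.support, MatC c (prd E μ) (prd E κ) p.1 ∧ ∀ i, p.2 i ∈ Γ (prd E κ i))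
    (j : Fin n) : ∀ p ∈ (b.mapDomain (prt E κ j)).support,
      MatC c (prd E μ) (prd E κ) p.1 ∧ ∀ i, p.2 i ∈ Γ (prd E κ i) := by
  intro p hp
  obtain ⟨q, hq, rfl⟩ := Finset.mem_image.1 (Finsupp.mapDomain_support hp)
  refine ⟨(h1 q hq).1, fun i => ?_⟩
  simp only [prt]
  split_ifs with h
  · exact (h1 q hq).2 i
  · exact zero_mem _

theorem prt_sum {Γ : Grid} (hΓ : Orth Γ) (hF : Fun Γ) (c : CM) (E : Fin n → WeierstrassCurve K)
    (hE : ∀ i, ((E i)⁄Qb).IsElliptic) (inj : ∀ i j, (E i)⁄Qb = (E j)⁄Qb → i = j)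
    (κ : Fin r → Fin n) (μ : Fin D → Fin n) {F : Type} [Field F] [Algebra Qb F]
    (ξ : ∀ a, ((prd E μ a)⁄F).toAffine.Point)
    (hξ : IsGen 0 (Algebra.ofId Qb F) (prd E μ) ξ) (b : PM E κ D →₀ ℤ)
    (h1 : ∀ p ∈ b.support, MatC c (prd E μ) (prd E κ) p.1 ∧ ∀ i, p.2 i ∈ Γ (prd E κ i))
    (h3 : ∀ M, MatC c (prd E μ) (prd E κ) M → nmM c M b = 0) :
    IsOfFinAddOrder (clM c κ ξ b - ∑ j, clM c κ ξ (b.mapDomain (prt E κ j))) := by
  have hP : ∀ S : Finset (Fin n), ∀ p ∈ (∑ j ∈ S, b.mapDomain (prt E κ j)).support,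
      MatC c (prd E μ) (prd E κ) p.1 ∧ ∀ i, p.2 i ∈ Γ (prd E κ i) := by
    intro S p hp
    obtain ⟨j, -, hj⟩ := Finset.mem_biUnion.1 (Finsupp.support_finsetSum hp)
    exact supp_prt h1 j p hj
  have e : clM c κ ξ b - ∑ j, clM c κ ξ (b.mapDomain (prt E κ j)) =
      clM c κ ξ (b - ∑ j, b.mapDomain (prt E κ j)) := by
    rw [map_sub, map_sum]
  rw [e, critM hΓ hF c E hE inj κ μ ξ hξ]
  · intro j M _ s
    rw [map_sub, map_sum]
    have : ∑ j', tT c E κ μ j (fO c E κ μ j M) s (b.mapDomain (prt E κ j')) =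
        tT c E κ μ j (fO c E κ μ j M) s b := by
      rw [Finset.sum_eq_single j]
      · rw [tT_prt, if_pos rfl]
      · intro j' _ hj'
        rw [tT_prt, if_neg (Ne.symm hj')]
      · intro h; exact absurd (Finset.mem_univ j) h
    rw [this, sub_self]
    exact IsOfFinAddOrder.zero
  · intro p hp
    rcases Finset.mem_union.1 (Finsupp.support_sub hp) with h | h
    · exact h1 p h
    · exact hP _ p h
  · intro M hM
    rw [map_sub, map_sum, Finset.sum_congr rfl fun j _ => nmM_prt c E κ j M b, h3 M hM]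
    simp

end Pool.Agent.LibEX75
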