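import Pool.Agent.LibEX75.BD
import Pool.Agent.LibAF11.Red1

/-!
[EX75 S2] the push-forward under the multiplication by `m l` on the curves `E l`. `exists_pf` (LibAF11/If.lean) for `f : Mor (prd E κ) (prd E κ)`, the diagonal
matrix with the entries `pr w (m (κ i), 0)` (or any `Hm` with `f F P = m • P`) and zero homomorphisms outside the diagonal; `Y = pt0 Qb`, dimension `D`. For one pair
`(N, g)`: `img f (linC c.w _ (fun i => Hm.id _) ξ N g (org _))` is `linC .. (scl m (N, g))`: the component `i` is `m (κ i) • (constPt (g i) + ∑ a, sm (N i a) (tr ..)) + 0`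
(compare `img_pnt'`, `clC_cls`, `dir_step` in LibER34/Tr0.lean; `pnt_ext`; `sm` of `m • N i a`: `sm_apply`, `smul_smul`; `constPt` is additive: `HG_const_add`).
`hξ.dim` (with `zero_add`) gives `FunF Qb D F`. Then `b` by linearity (`Finsupp.induction_linear`, `Finsupp.mapDomain_single`).
-/

open WeierstrassCurve Pool.Agent.LibBH2 Pool.Agent.LibIG50 Pool.Agent.LibCHd Pool.Agent.LibGG
  Pool.Agent.LibAC34 Pool.Agent.LibAF11 Pool.Agent.LibER34 Pool.Agent.LibEQ34
open scoped Classical ComplexConjugate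

namespace Pool.Agent.LibEX75

variable {K : Type} [Field K] [Algebra K Qb] {n r : ℕ}

/-- the diagonal homomorphism -/
private noncomputable def S2_f (c : CM) (E : Fin n → WeierstrassCurve K)
    (hE : ∀ i, ((E i)⁄Qb).IsElliptic) (κ : Fin r → Fin n) (m : Fin n → ℤ) :
    LibAF11.Mor (prd E κ) (prd E κ) := fun i j =>
  haveI := hE (κ i)
  pr (c.w (prd E κ i)) (if i = j then (m (κ i), 0) else 0)

private theorem S2_f_f (c : CM) (E : Fin n → WeierstrassCurve K)
    (hE : ∀ i, ((E i)⁄Qb).IsElliptic) (κ : Fin r → Fin n) (m : Fin n → ℤ) (i j : Fin r)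
    (F : Type) [Field F] [Algebra Qb F] (P : ((prd E κ j)⁄F).toAffine.Point) :
    (S2_f c E hE κ m i j).f F P = sm (c.w (prd E κ i)) F (if i = j then (m (κ i), 0) else 0)
      (tr (prd E κ j) (prd E κ i) P) := rfl

private theorem S2_img (c : CM) (E : Fin n → WeierstrassCurve K)
    (hE : ∀ i, ((E i)⁄Qb).IsElliptic) (κ : Fin r → Fin n) (m : Fin n → ℤ) (F : Type) [Field F]
    [Algebra Qb F] {D : ℕ} (μ : Fin D → Fin n) (ξ : ∀ a, ((prd E μ a)⁄F).toAffine.Point)
    (p : PM E κ D) :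
    LibAF11.img (S2_f c E hE κ m) (linC c.w (Algebra.ofId Qb F) (fun i => Hm.id (prd E κ i)) ξ
      p.1 p.2 (org (prd E κ))) =
    linC c.w (Algebra.ofId Qb F) (fun i => Hm.id (prd E κ i)) ξ
      (scl E κ m p).1 (scl E κ m p).2 (org (prd E κ)) := by
  refine pnt_ext ?_ rfl
  funext i
  have h0 : (((org (prd E κ)).map (Algebra.ofId Qb F)).z i) = 0 := mp_zero _
  have h1 : ∀ (N : Matrix (Fin r) (Fin D) (ℤ × ℤ)) (g : Pts (prd E κ)) (i : Fin r),
      (linC c.w (Algebra.ofId Qb F) (fun i => Hm.id (prd E κ i)) ξ N g (org (prd E κ))).z i =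
        (constPt F (g i) + ∑ a, sm (c.w (prd E κ i)) F (N i a)
          (tr (prd E μ a) (prd E κ i) (ξ a))) + ((org (prd E κ)).map (Algebra.ofId Qb F)).z i :=
    fun N g i => rfl
  change ∑ j, (S2_f c E hE κ m i j).f F ((linC c.w (Algebra.ofId Qb F)
    (fun i => Hm.id (prd E κ i)) ξ p.1 p.2 (org (prd E κ))).z j) = _
  rw [Finset.sum_eq_single i]
  · rw [S2_f_f, if_pos rfl, tr_self, h1, h1, h0, add_zero, add_zero, sm_apply, zero_smul, add_zero]
    change m (κ i) • (constPt F (p.2 i) + _) = constPt F (m (κ i) • p.2 i) + _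
    rw [smul_add, HG_const_zsmul, Finset.smul_sum]
    congr 1
    refine Finset.sum_congr rfl fun a _ => ?_
    change _ = sm (c.w (prd E κ i)) F (m (κ i) • p.1 i a) _
    rw [sm_apply, sm_apply, smul_add, smul_smul, smul_smul]
    rfl
  · intro j _ hj
    rw [S2_f_f, if_neg (Ne.symm hj), sm_apply, Prod.fst_zero, Prod.snd_zero, zero_smul, zero_smul,
      add_zero]
  · intro h
    exact absurd (Finset.mem_univ i) h

theorem exists_push (c : CM) (E : Fin n → WeierstrassCurve K)
    (hE : ∀ i, ((E i)⁄Qb).IsElliptic) (κ : Fin r → Fin n) (D : ℕ) (m : Fin n → ℤ) :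
    ∃ p : CH (prd E κ) (pt0 Qb) D →+ CH (prd E κ) (pt0 Qb) D,
      ∀ (μ : Fin D → Fin n) (F : Type) [Field F] [Algebra Qb F]
        (ξ : ∀ a, ((prd E μ a)⁄F).toAffine.Point),
        IsGen 0 (Algebra.ofId Qb F) (prd E μ) ξ → ∀ b : PM E κ D →₀ ℤ,
          p (clM c κ ξ b) = clM c κ ξ (b.mapDomain (scl E κ m)) := by
  obtain ⟨p, hp⟩ := LibAF11.exists_pf (W := prd E κ) (W' := prd E κ) (fun i => hE (κ i))
    (fun i => hE (κ i)) (S2_f c E hE κ m) (pt0 Qb) D
  refine ⟨p, fun μ F _ _ ξ hξ b => ?_⟩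
  have hF : FunF Qb D F := by
    have h1 := hξ.dim
    rwa [zero_add] at h1
  have h2 : ∀ (q : PM E κ D) (z : ℤ), clM c κ ξ (Finsupp.single q z) =
      z • clC c.w (Algebra.ofId Qb F) D (fun i => Hm.id (prd E κ i)) ξ (org _) q.1 q.2 := by
    intro q z
    unfold clM
    rw [Finsupp.liftAddHom_apply_single, zmultiplesHom_apply]
  induction b using Finsupp.induction_linear with
  | zero => rw [Finsupp.mapDomain_zero, map_zero, map_zero]
  | add b b' hb hb' => rw [Finsupp.mapDomain_add, map_add, map_add, map_add, hb, hb']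
  | single q z =>
    rw [Finsupp.mapDomain_single, h2, h2, map_zsmul]
    congr 1
    unfold clC
    rw [hp F _ hF, S2_img]

end Pool.Agent.LibEX75
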