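import Pool.Agent.LibEX75.S1

/-!
[EX75 S3] the scaling of the part `b_j = b.mapDomain (prt E κ j)`: `critM` for `b' = b_j.mapDomain (scl m) - lam • b_j`, `lam = m j * (∏ a, m (μ a)) ^ 2`. Support: `MatC`
of `scl` (`m • 0 = 0`), `Γ` is a subgroup. Numbers: `nmM` of `scl m (N, g)`: `det (Mᵀ N')` for `N' i a = m (κ i) • N i a`, `N ∈ MatC`, is `∏ a, m (μ a)` times `det (Mᵀ N)` (the
column `a` of `cx N` is supported in the colour `μ a`, so it is multiplied by `m (μ a)`: `Matrix.det_mul_row`-type lemma, or `num0` and `kz_smul`), so `nmM b' = 0`.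
Tests: `j' ≠ j`: zero (`tT_prt`; `scl` and `prt` commute). `j' = j`: by `sep` and `lam_tT`: `fO j M (N') = ∏ l ≠ j, m l ^ (2 num μ l) * fO j M N` (`kz_smul`; the block `l` of `N'` is
`m l •` the block of `N`), `Xv (m_j N_j) (m_j v) s = m_j ^ (2 num μ j + 1) Xv N_j v s` (`Xv` is a product of minors of size `num μ j` and `num μ j + 1`: `Matrix.det_smul`), and the
product over all colours of `m l ^ (num μ l)` is `∏ a, m (μ a)` (`B1_prod` in B1.lean).
-/

open WeierstrassCurve Pool.Agent.LibBH2 Pool.Agent.LibIG50 Pool.Agent.LibCHd Pool.Agent.LibGG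
  Pool.Agent.LibAC34 Pool.Agent.LibAF11 Pool.Agent.LibER34 Pool.Agent.LibEQ34
open scoped Classical ComplexConjugate

namespace Pool.Agent.LibEX75

variable {K : Type} [Field K] [Algebra K Qb] {n r D : ℕ}

theorem s3_tc (ω : ℂ) (m : ℤ) (p : ℤ × ℤ) : tc ω (m • p) = (m : ℂ) * tc ω p := by
  unfold tc
  rw [Prod.smul_fst, Prod.smul_snd, smul_eq_mul, smul_eq_mul]
  push_cast
  ring

/-- the minors of a multiple -/
theorem Xv_scl {r d : ℕ} (ω : ℂ) (m : ℤ) (N : Matrix (Fin r) (Fin d) (ℤ × ℤ)) (v : Fin r → ℂ)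
    (s : Sb r d × Sb r (d + 1)) :
    Xv (Matrix.map (fun i a => m • N i a) (tc ω)) (fun i => m * v i) s =
      (m : ℂ) ^ (2 * d + 1) * Xv (N.map (tc ω)) v s := by
  have h1 : mI (Matrix.map (fun i a => m • N i a) (tc ω)) s.1 =
      (m : ℂ) ^ d * mI (N.map (tc ω)) s.1 := by
    unfold mI
    have e : (Matrix.map (fun i a => m • N i a) (tc ω)).submatrix (s.1.1.orderEmbOfFin s.1.2) id =
        (m : ℂ) • (N.map (tc ω)).submatrix (s.1.1.orderEmbOfFin s.1.2) id := by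
      ext i a
      exact s3_tc ω m _
    rw [e, Matrix.det_smul, Fintype.card_fin]
  have h2 : mJ (Matrix.map (fun i a => m • N i a) (tc ω)) (fun i => m * v i) s.2 =
      (m : ℂ) ^ (d + 1) * mJ (N.map (tc ω)) v s.2 := by
    unfold mJ
    have e : (Matrix.fromCols (Matrix.map (fun i a => m • N i a) (tc ω))
        (Matrix.replicateCol Unit fun i => (m : ℂ) * v i)).submatrix
          (s.2.1.orderEmbOfFin s.2.2 ∘ LibMul34.ix d) id =
        (m : ℂ) • (Matrix.fromCols (N.map (tc ω)) (Matrix.replicateCol Unit v)).submatrix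
          (s.2.1.orderEmbOfFin s.2.2 ∘ LibMul34.ix d) id := by
      ext i a
      rcases a with a | a
      · exact s3_tc ω m _
      · rfl
    rw [e, Matrix.det_smul]
    congr 2
    simp
  unfold Xv
  rw [h1, h2, map_mul, map_pow, map_intCast]
  ring

/-- the matrix `cx` of the multiple -/
theorem s3_cx (c : CM) (E : Fin n → WeierstrassCurve K) (inj : ∀ i j, (E i)⁄Qb = (E j)⁄Qb → i = j)
    (κ : Fin r → Fin n) (μ : Fin D → Fin n) (m : Fin n → ℤ)
    {N : Matrix (Fin r) (Fin D) (ℤ × ℤ)} (hN : MatC c (prd E μ) (prd E κ) N) :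
    cx c (prd E κ) (fun i a => m (κ i) • N i a) =
      cx c (prd E κ) N * Matrix.diagonal fun a => (m (μ a) : ℂ) := by
  ext i a
  rw [Matrix.mul_diagonal]
  have e : cx c (prd E κ) (fun i a => m (κ i) • N i a) i a = (m (κ i) : ℂ) *
      cx c (prd E κ) N i a := s3_tc (c.ω (prd E κ i)) (m (κ i)) (N i a)
  rw [e]
  by_cases h : μ a = κ i
  · rw [h, mul_comm]
  · have h0 : N i a = 0 := (hN i a).1 fun h' => h (inj _ _ h')
    have h1 : cx c (prd E κ) N i a = 0 := by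
      unfold cx
      rw [h0]
      simp
    rw [h1, mul_zero, zero_mul]

theorem s3_num (c : CM) (E : Fin n → WeierstrassCurve K)
    (inj : ∀ i j, (E i)⁄Qb = (E j)⁄Qb → i = j)
    (κ : Fin r → Fin n) (μ : Fin D → Fin n) (m : Fin n → ℤ)
    (M : Matrix (Fin r) (Fin D) (ℤ × ℤ)) (b : PM E κ D →₀ ℤ)
    (h1 : ∀ p ∈ b.support, MatC c (prd E μ) (prd E κ) p.1) :
    nmM c M (b.mapDomain (scl E κ m)) = ((∏ a, (m (μ a) : ℝ)) ^ 2) * nmM c M b := by
  have e1 : ∀ b' : PM E κ D →₀ ℤ, nmM c M b' = b'.sum fun p z =>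
      z • Complex.normSq ((cx c (prd E κ) M).transpose * cx c (prd E κ) p.1).det := fun b' => rfl
  have e4 : (b.mapDomain (scl E κ m)).sum (fun p z =>
      z • Complex.normSq ((cx c (prd E κ) M).transpose * cx c (prd E κ) p.1).det) =
      b.sum fun p z => z • Complex.normSq
        ((cx c (prd E κ) M).transpose * cx c (prd E κ) (scl E κ m p).1).det :=
    Finsupp.sum_mapDomain_index (fun _ => zero_smul ℤ _) (fun _ _ _ => add_smul _ _ _)
  rw [e1, e1, e4, Finsupp.mul_sum]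
  refine Finset.sum_congr rfl fun p hp => ?_
  have e2 : cx c (prd E κ) (scl E κ m p).1 =
      cx c (prd E κ) p.1 * Matrix.diagonal fun a => (m (μ a) : ℂ) := s3_cx c E inj κ μ m (h1 p hp)
  have e3 : Complex.normSq (∏ a, (m (μ a) : ℂ)) = (∏ a, (m (μ a) : ℝ)) ^ 2 := by
    rw [map_prod, ← Finset.prod_pow]
    refine Finset.prod_congr rfl fun a _ => ?_
    rw [Complex.normSq_intCast, pow_two]
  beta_reduce
  rw [e2, ← Matrix.mul_assoc, Matrix.det_mul, Matrix.det_diagonal, Complex.normSq_mul, e3,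
    zsmul_eq_mul, zsmul_eq_mul]
  ring

theorem s3_fac (m : Fin n → ℤ) (μ : Fin D → Fin n) (j : Fin n) :
    (∏ l ∈ Finset.univ.erase j, m l ^ (2 * num μ l)) * m j ^ (2 * num μ j + 1) =
      m j * (∏ a, m (μ a)) ^ 2 := by
  have h1 : ∏ a, m (μ a) = ∏ l, m l ^ num μ l := by
    rw [B1_prod (μ := μ) fun a => m (μ a)]
    refine Finset.prod_congr rfl fun l _ => ?_
    have h2 : ∀ x : Fin (num μ l), m (μ (ix μ l x).1) = m l := fun x => by rw [(ix μ l x).2]
    simp only [h2]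
    rw [Finset.prod_const, Finset.card_univ, Fintype.card_fin]
  have h3 : ∏ l, m l ^ (2 * num μ l) = (∏ a, m (μ a)) ^ 2 := by
    rw [h1, ← Finset.prod_pow]
    refine Finset.prod_congr rfl fun l _ => ?_
    rw [← pow_mul, mul_comm]
  rw [← h3, ← Finset.mul_prod_erase Finset.univ _ (Finset.mem_univ j)]
  ring

/-- the other factors of the multiple -/
theorem s3_fO (c : CM) (E : Fin n → WeierstrassCurve K) (κ : Fin r → Fin n) (μ : Fin D → Fin n)
    (m : Fin n → ℤ) (j : Fin n) (M N : Matrix (Fin r) (Fin D) (ℤ × ℤ)) :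
    fO c E κ μ j M (fun i a => m (κ i) • N i a) =
      (∏ l ∈ Finset.univ.erase j, m l ^ (2 * num μ l)) * fO c E κ μ j M N := by
  unfold fO
  rw [← Finset.prod_mul_distrib]
  refine Finset.prod_congr rfl fun l _ => ?_
  have h1 : blk κ μ l (fun i a => m (κ i) • N i a) = fun x a => m l • blk κ μ l N x a := by
    funext x a
    exact congrArg (fun t => m t • N (ix κ l x).1 (ix μ l a).1) (ix κ l x).2
  rw [h1]
  exact kz_smul (c.trace _) (c.norm _) (m l) (blk κ μ l N) (blk κ μ l M)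

theorem s3_lam (c : CM) (E : Fin n → WeierstrassCurve K) (κ : Fin r → Fin n) (μ : Fin D → Fin n)
    (m : Fin n → ℤ) (j : Fin n) (M : Matrix (Fin r) (Fin D) (ℤ × ℤ))
    (s : Sb (num κ j) (num μ j) × Sb (num κ j) (num μ j + 1)) (b : PM E κ D →₀ ℤ)
    (lam : ((E j)⁄Qb).toAffine.Point →+ ℂ)
    (hlam : ∀ P, lam ((c.w ((E j)⁄Qb)).k0 P) = c.ω ((E j)⁄Qb) * lam P) :
    lam (tT c E κ μ j (fO c E κ μ j M) s (b.mapDomain (scl E κ m))) =
      ((m j * (∏ a, m (μ a)) ^ 2 : ℤ) : ℂ) * lam (tT c E κ μ j (fO c E κ μ j M) s b) := by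
  rw [lam_tT c E κ μ j s _ lam hlam, lam_tT c E κ μ j s _ lam hlam]
  have e4 : (b.mapDomain (scl E κ m)).sum (fun p z => (z : ℂ) * ((fO c E κ μ j M p.1 : ℂ) *
      Xv ((blk κ μ j p.1).map (tc (c.ω ((E j)⁄Qb)))) (fun x => lam (vpt E κ j p.2 x)) s)) =
      b.sum fun p z => (z : ℂ) * ((fO c E κ μ j M (scl E κ m p).1 : ℂ) *
        Xv ((blk κ μ j (scl E κ m p).1).map (tc (c.ω ((E j)⁄Qb))))
          (fun x => lam (vpt E κ j (scl E κ m p).2 x)) s) :=
    Finsupp.sum_mapDomain_index (fun _ => by rw [Int.cast_zero, zero_mul])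
      (fun _ _ _ => by rw [Int.cast_add, add_mul])
  rw [e4, Finsupp.mul_sum]
  refine Finset.sum_congr rfl fun p _ => ?_
  have e5 : fO c E κ μ j M (scl E κ m p).1 =
      (∏ l ∈ Finset.univ.erase j, m l ^ (2 * num μ l)) * fO c E κ μ j M p.1 :=
    s3_fO c E κ μ m j M p.1
  have e6 : (blk κ μ j (scl E κ m p).1).map (tc (c.ω ((E j)⁄Qb))) =
      Matrix.map (fun x a => m j • blk κ μ j p.1 x a) (tc (c.ω ((E j)⁄Qb))) := by
    have h1 : blk κ μ j (scl E κ m p).1 = fun x a => m j • blk κ μ j p.1 x a := by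
      funext x a
      exact congrArg (fun t => m t • p.1 (ix κ j x).1 (ix μ j a).1) (ix κ j x).2
    rw [h1]
  have e7 : (fun x => lam (vpt E κ j (scl E κ m p).2 x)) =
      fun x => (m j : ℂ) * lam (vpt E κ j p.2 x) := by
    funext x
    have h1 : m (κ (ix κ j x).1) = m j := by rw [(ix κ j x).2]
    have h2 : vpt E κ j (scl E κ m p).2 x = m (κ (ix κ j x).1) • vpt E κ j p.2 x := trk_zsmul _ _
    rw [h2, h1, map_zsmul, zsmul_eq_mul]
  beta_reduce
  rw [e5, e6, e7, Xv_scl, ← s3_fac m μ j]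
  push_cast
  ring

theorem s3_comm (E : Fin n → WeierstrassCurve K) (κ : Fin r → Fin n) (m : Fin n → ℤ) (j : Fin n)
    (b : PM E κ D →₀ ℤ) : (b.mapDomain (prt E κ j)).mapDomain (scl E κ m) =
      (b.mapDomain (scl E κ m)).mapDomain (prt E κ j) := by
  rw [← Finsupp.mapDomain_comp, ← Finsupp.mapDomain_comp]
  congr 1
  funext p
  refine Prod.ext rfl ?_
  funext i
  show m (κ i) • (if κ i = j then p.2 i else 0) = if κ i = j then m (κ i) • p.2 i else 0
  split_ifs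
  · rfl
  · exact smul_zero _

theorem scl_eig {Γ : Grid} (hΓ : Orth Γ) (hF : Fun Γ) (c : CM) (E : Fin n → WeierstrassCurve K)
    (hE : ∀ i, ((E i)⁄Qb).IsElliptic) (inj : ∀ i j, (E i)⁄Qb = (E j)⁄Qb → i = j)
    (κ : Fin r → Fin n) (μ : Fin D → Fin n) {F : Type} [Field F] [Algebra Qb F]
    (ξ : ∀ a, ((prd E μ a)⁄F).toAffine.Point)
    (hξ : IsGen 0 (Algebra.ofId Qb F) (prd E μ) ξ) (b : PM E κ D →₀ ℤ)
    (h1 : ∀ p ∈ b.support, MatC c (prd E μ) (prd E κ) p.1 ∧ ∀ i, p.2 i ∈ Γ (prd E κ i))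
    (h3 : ∀ M, MatC c (prd E μ) (prd E κ) M → nmM c M b = 0) (m : Fin n → ℤ) (j : Fin n) :
    IsOfFinAddOrder (clM c κ ξ ((b.mapDomain (prt E κ j)).mapDomain (scl E κ m)) -
      (m j * (∏ a, m (μ a)) ^ 2) • clM c κ ξ (b.mapDomain (prt E κ j))) := by
  have h1' := supp_prt h1 j
  rw [← map_zsmul, ← map_sub]
  refine (critM hΓ hF c E hE inj κ μ ξ hξ _ ?_ ?_).2 ?_
  · intro p hp
    rcases Finset.mem_union.1 (Finsupp.support_sub hp) with h | h
    · obtain ⟨q, hq, rfl⟩ := Finset.mem_image.1 (Finsupp.mapDomain_support h)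
      obtain ⟨h4, h5⟩ := h1' q hq
      refine ⟨fun i a => ⟨fun h6 => ?_, fun h6 => ?_⟩, fun i => zsmul_mem (h5 i) _⟩
      · show m (κ i) • q.1 i a = 0
        rw [(h4 i a).1 h6, smul_zero]
      · show (m (κ i) • q.1 i a).2 = 0
        rw [Prod.smul_snd, (h4 i a).2 h6, smul_zero]
    · exact h1' p (Finsupp.support_smul h)
  · intro M hM
    rw [map_sub, map_zsmul, s3_num c E inj κ μ m M _ fun p hp => (h1' p hp).1, nmM_prt, h3 M hM,
      mul_zero, smul_zero, sub_zero]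
  · intro j' M hM s
    rw [map_sub, map_zsmul]
    by_cases hj : j' = j
    · subst hj
      refine sep c _ _ fun lam hlam => ?_
      rw [map_sub, map_zsmul, s3_lam c E κ μ m j' M s _ lam hlam, zsmul_eq_mul, sub_self]
    · rw [s3_comm, tT_prt, tT_prt, if_neg hj, if_neg hj, zsmul_zero, sub_zero]
      exact IsOfFinAddOrder.zero

end Pool.Agent.LibEX75
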