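import Pool.Agent.LibEQ34.Defs

/-!
[EX75 S5] distinct eigenvalues (elementary number theory). `exists_m`: let `m l` be the `l`-th prime (`Nat.nth Nat.Prime l`). `m x.2 * (∏ a, m (x.1.1 a)) ^ 2` has the
`m l`-adic valuation `2 * num μ l + [l = j]` (`Nat.factorization`; `∏ a, m (μ a) = ∏ l, m l ^ num μ l`: `Finset.prod_fiberwise`, `Finset.prod_comp`), which determines `j` (parity) and
the numbers `num μ l`; `eq_of_num`: two monotone maps with the same numbers are equal: `ν = μ ∘ σ` for a permutation `σ` (equal fibre cardinalities) and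
`Tuple.unique_monotone`; or see `exists_lt` in /team-store/EP66_E1.lean (if delivered), which is this statement.
-/

open scoped Classical

namespace Pool.Agent.LibEX75

open Pool.Agent.LibEQ34

theorem eq_of_num {n D : ℕ} {μ ν : Fin D → Fin n} (hμ : Monotone μ) (hν : Monotone ν)
    (h : ∀ l, num μ l = num ν l) : μ = ν := by
  obtain ⟨σ, hσ⟩ : ∃ σ : Equiv.Perm (Fin D), μ ∘ σ = ν := by
    have h' : ∀ l, Nonempty ({x // ν x = l} ≃ {x // μ x = l}) := by
      intro l
      refine ⟨Fintype.equivOfCardEq ?_⟩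
      rw [Fintype.card_subtype, Fintype.card_subtype]
      have := h l
      unfold num at this
      convert this.symm
    refine ⟨(Equiv.sigmaFiberEquiv ν).symm.trans ((Equiv.sigmaCongrRight fun l => (h' l).some).trans
      (Equiv.sigmaFiberEquiv μ)), ?_⟩
    funext x
    simp only [Function.comp, Equiv.trans_apply]
    exact ((h' (ν x)).some ⟨x, rfl⟩).2
  have h1 : Monotone (μ ∘ σ) := by rw [hσ]; exact hν
  have h2 : Monotone (μ ∘ (1 : Equiv.Perm (Fin D))) := by simpa using hμ
  have := Tuple.unique_monotone h1 h2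
  rw [hσ] at this
  rw [this]; rfl

theorem S5_val {n D : ℕ} (m : Fin n → ℕ) (hp : ∀ l, (m l).Prime) (hm : Function.Injective m)
    (μ : Fin D → Fin n) (j l : Fin n) :
    (m j * (∏ a, m (μ a)) ^ 2).factorization (m l) = 2 * num μ l + (if j = l then 1 else 0) := by
  have hne : ∀ l, m l ≠ 0 := fun l => (hp l).ne_zero
  have hprod : (∏ a, m (μ a)) ≠ 0 := Finset.prod_ne_zero_iff.2 fun a _ => hne _
  have hsingle : ∀ i, (m i).factorization (m l) = if i = l then 1 else 0 := by
    intro i
    rw [(hp i).factorization, Finsupp.single_apply]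
    by_cases hi : i = l
    · rw [hi]; simp
    · rw [if_neg hi, if_neg fun h => hi (hm h)]
  rw [Nat.factorization_mul (hne j) (pow_ne_zero 2 hprod), Nat.factorization_pow,
    Nat.factorization_prod fun a _ => hne _]
  simp only [Finsupp.coe_add, Pi.add_apply, Finsupp.coe_smul, Pi.smul_apply, smul_eq_mul, hsingle,
    Finsupp.coe_finsetSum, Finset.sum_apply]
  rw [add_comm]
  congr 2
  unfold num
  rw [Finset.card_filter]

theorem exists_m (n D : ℕ) : ∃ m : Fin n → ℤ, Function.Injective
    (fun x : {μ : Fin D → Fin n // Monotone μ} × Fin n => m x.2 * (∏ a, m (x.1.1 a)) ^ 2) := by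
  obtain ⟨m, hp, hm⟩ : ∃ m : Fin n → ℕ, (∀ l, (m l).Prime) ∧ Function.Injective m :=
    ⟨fun l => Nat.nth Nat.Prime l, fun l => Nat.prime_nth_prime l, fun a b hab =>
      Fin.ext (Nat.nth_injective Nat.infinite_setOfPred_prime hab)⟩
  refine ⟨fun l => (m l : ℤ), ?_⟩
  rintro ⟨⟨μ, hμ⟩, j⟩ ⟨⟨ν, hν⟩, i⟩ hx
  have hx' : m j * (∏ a, m (μ a)) ^ 2 = m i * (∏ a, m (ν a)) ^ 2 := by
    simp only at hx
    exact_mod_cast hx
  have hv : ∀ l, 2 * num μ l + (if j = l then 1 else 0) = 2 * num ν l + (if i = l then 1 else 0) := by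
    intro l
    rw [← S5_val m hp hm μ j l, ← S5_val m hp hm ν i l, hx']
  have hij : i = j := by
    have := hv j
    by_contra hne
    rw [if_pos rfl, if_neg hne] at this
    omega
  have hnum : ∀ l, num μ l = num ν l := by
    intro l
    have := hv l
    rw [hij] at this
    omega
  have := eq_of_num hμ hν hnum
  subst this
  rw [hij]

end Pool.Agent.LibEX75
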