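import Pool.Agent.LibEX75.S0
import Pool.Agent.LibEX75.S5
import Pool.Agent.LibEX75.S1
import Pool.Agent.LibEX75.S2
import Pool.Agent.LibEX75.S3

/-!
[EX75 S4] the separation of the types. Take `m` from `exists_m` and `p` from `exists_push`; `sep_eig` with `X = {μ // Monotone μ} × Fin n`,
`u (μ, j) = clM c κ (ξ μ) ((b μ).mapDomain (prt E κ j))` and `lam (μ, j) = m j * (∏ a, m (μ a)) ^ 2`: `hp` is `scl_eig`; the sum of the `u (μ, j)` is, up to torsion,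
`∑ μ, clM c κ (ξ μ) (b μ)` over the monotone `μ` (`prt_sum`), which is `clT c κ ξ b` (the other `b μ` are zero). So all `u (μ, j)` are torsion and
`clM c κ (ξ μ) (b μ)`, which is their sum over `j` up to torsion (`prt_sum`), is torsion.
-/

open WeierstrassCurve Pool.Agent.LibBH2 Pool.Agent.LibIG50 Pool.Agent.LibCHd Pool.Agent.LibGG
  Pool.Agent.LibAC34 Pool.Agent.LibAF11 Pool.Agent.LibER34 Pool.Agent.LibEQ34
open scoped Classical ComplexConjugate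

namespace Pool.Agent.LibEX75

variable {K : Type} [Field K] [Algebra K Qb] {n r D : ℕ}

theorem S4_sum {C X : Type} [AddCommGroup C] (s : Finset X) (u : X → C)
    (h : ∀ x ∈ s, IsOfFinAddOrder (u x)) : IsOfFinAddOrder (∑ x ∈ s, u x) := by
  induction s using Finset.induction_on with
  | empty => simp
  | insert x s hx ih =>
    rw [Finset.sum_insert hx]
    exact (h x (Finset.mem_insert_self x s)).add
      (ih fun y hy => h y (Finset.mem_insert_of_mem hy))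

theorem S4_sub {C : Type} [AddCommGroup C] {x y : C} (hx : IsOfFinAddOrder x)
    (hy : IsOfFinAddOrder y) : IsOfFinAddOrder (x - y) := by
  rw [sub_eq_add_neg]
  exact hx.add hy.neg

theorem sep_types {Γ : Grid} (hΓ : Orth Γ) (hF : Fun Γ) (c : CM) (E : Fin n → WeierstrassCurve K)
    (hE : ∀ i, ((E i)⁄Qb).IsElliptic) (inj : ∀ i j, (E i)⁄Qb = (E j)⁄Qb → i = j)
    (κ : Fin r → Fin n) {F : (Fin D → Fin n) → Type} [∀ μ, Field (F μ)] [∀ μ, Algebra Qb (F μ)]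
    (ξ : ∀ μ a, ((prd E μ a)⁄(F μ)).toAffine.Point)
    (hξ : ∀ μ, IsGen 0 (Algebra.ofId Qb (F μ)) (prd E μ) (ξ μ))
    (b : ∀ _ : Fin D → Fin n, PM E κ D →₀ ℤ) (h0 : ∀ μ, ¬ Monotone μ → b μ = 0)
    (h1 : ∀ μ, ∀ p ∈ (b μ).support,
      MatC c (prd E μ) (prd E κ) p.1 ∧ ∀ i, p.2 i ∈ Γ (prd E κ i))
    (h3 : ∀ μ M, MatC c (prd E μ) (prd E κ) M → nmM c M (b μ) = 0)
    (ht : IsOfFinAddOrder (clT c κ ξ b)) (μ : Fin D → Fin n) :
    IsOfFinAddOrder (clM c κ (ξ μ) (b μ)) := by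
  obtain ⟨m, hm⟩ := exists_m n D
  obtain ⟨p, hp⟩ := exists_push c E hE κ D m
  have hprt : ∀ ν : Fin D → Fin n, IsOfFinAddOrder (clM c κ (ξ ν) (b ν) -
      ∑ j, clM c κ (ξ ν) ((b ν).mapDomain (prt E κ j))) := fun ν =>
    prt_sum hΓ hF c E hE inj κ ν (ξ ν) (hξ ν) (b ν) (h1 ν) (h3 ν)
  have hclT : clT c κ ξ b = ∑ ν, clM c κ (ξ ν) (b ν) := by
    unfold clT
    rw [AddMonoidHom.finsetSum_apply]
    rfl
  have hmono : ∑ ν, clM c κ (ξ ν) (b ν) =
      ∑ ν : {ν : Fin D → Fin n // Monotone ν}, clM c κ (ξ ν.1) (b ν.1) := by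
    rw [← Fintype.sum_subtype_add_sum_subtype (fun ν : Fin D → Fin n => Monotone ν)
      (fun ν => clM c κ (ξ ν) (b ν))]
    have h4 : ∑ ν : {ν : Fin D → Fin n // ¬ Monotone ν}, clM c κ (ξ ν.1) (b ν.1) = 0 :=
      Finset.sum_eq_zero fun ν _ => by rw [h0 ν.1 ν.2, map_zero]
    rw [h4, add_zero]
  have hsum : IsOfFinAddOrder (∑ x : {ν : Fin D → Fin n // Monotone ν} × Fin n,
      clM c κ (ξ x.1.1) ((b x.1.1).mapDomain (prt E κ x.2))) := by
    have h5 : (∑ x : {ν : Fin D → Fin n // Monotone ν} × Fin n,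
        clM c κ (ξ x.1.1) ((b x.1.1).mapDomain (prt E κ x.2))) =
        clT c κ ξ b - ∑ ν : {ν : Fin D → Fin n // Monotone ν}, (clM c κ (ξ ν.1) (b ν.1) -
          ∑ j, clM c κ (ξ ν.1) ((b ν.1).mapDomain (prt E κ j))) := by
      rw [hclT, hmono, Finset.sum_sub_distrib, sub_sub_cancel, Fintype.sum_prod_type]
    rw [h5]
    exact S4_sub ht (S4_sum _ _ fun ν _ => hprt ν.1)
  have hu := sep_eig p (fun x : {ν : Fin D → Fin n // Monotone ν} × Fin n =>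
    clM c κ (ξ x.1.1) ((b x.1.1).mapDomain (prt E κ x.2)))
    (fun x => m x.2 * (∏ a, m (x.1.1 a)) ^ 2) hm (fun x => by
      have h6 := scl_eig hΓ hF c E hE inj κ x.1.1 (ξ x.1.1) (hξ x.1.1) (b x.1.1) (h1 x.1.1)
        (h3 x.1.1) m x.2
      have h7 := hp x.1.1 (F x.1.1) (ξ x.1.1) (hξ x.1.1) ((b x.1.1).mapDomain (prt E κ x.2))
      rw [h7]
      exact h6) hsum
  by_cases hμ : Monotone μ
  · have h8 : clM c κ (ξ μ) (b μ) = (clM c κ (ξ μ) (b μ) -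
        ∑ j, clM c κ (ξ μ) ((b μ).mapDomain (prt E κ j))) +
        ∑ j, clM c κ (ξ μ) ((b μ).mapDomain (prt E κ j)) := by rw [sub_add_cancel]
    rw [h8]
    exact (hprt μ).add (S4_sum _ _ fun j _ => hu (⟨μ, hμ⟩, j))
  · rw [h0 μ hμ, map_zero]
    exact IsOfFinAddOrder.zero

end Pool.Agent.LibEX75
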