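import Pool.Agent.LibEX75.R1
import Pool.Agent.LibEX75.S4

/-!
[EX75 F] the rank for all types.
-/

open WeierstrassCurve Pool.Agent.LibBH2 Pool.Agent.LibIG50 Pool.Agent.LibCHd Pool.Agent.LibGG
  Pool.Agent.LibAC34 Pool.Agent.LibAF11 Pool.Agent.LibER34 Pool.Agent.LibEQ34
open scoped Classical ComplexConjugate

namespace Pool.Agent.LibEX75

variable {K : Type} [Field K] [Algebra K Qb] {n r D : ℕ}

theorem F_sum {ι : Type} (s : Finset ι) {C : Type} [AddCommGroup C] (f : ι → C)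
    (h : ∀ i ∈ s, IsOfFinAddOrder (f i)) : IsOfFinAddOrder (∑ i ∈ s, f i) := by
  have h1 : ∑ i ∈ s, f i ∈ AddCommGroup.torsion C := sum_mem h
  exact h1

theorem F_sums {I J : Type} [Fintype I] [Fintype J] (p : I → Prop) [DecidablePred p]
    (P : J → Type) (S : ∀ j, Finset (P j)) (m : I → ∀ j, P j → ℕ) (R : ∀ j, P j → Cardinal) :
    ∑ μ : {i // p i}, ∑ j, ∑ T ∈ S j, ((m μ.1 j T : ℕ) : Cardinal) * R j T =
      ∑ j, ∑ T ∈ S j, ((∑ μ : I with p μ, m μ j T : ℕ) : Cardinal) * R j T := by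
  rw [Finset.sum_comm]
  refine Finset.sum_congr rfl fun j _ => ?_
  rw [Finset.sum_comm]
  refine Finset.sum_congr rfl fun T _ => ?_
  rw [← Finset.sum_mul, Nat.cast_sum]
  congr 1
  exact (Finset.sum_subtype (Finset.univ.filter p) (by intro x; simp)
    (fun μ => ((m μ j T : ℕ) : Cardinal))).symm

theorem rkT_eq {Γ Γ' : Grid} (hΓ : Orth Γ') (hF : Fun Γ') (c : CM)
    (E : Fin n → WeierstrassCurve K) (hE : ∀ i, ((E i)⁄Qb).IsElliptic)
    (inj : ∀ i j, (E i)⁄Qb = (E j)⁄Qb → i = j) (hle : ∀ i, Γ ((E i)⁄Qb) ≤ Γ' ((E i)⁄Qb))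
    (hSt : ∀ i, ∀ P ∈ Γ ((E i)⁄Qb), (c.w ((E i)⁄Qb)).k0 P ∈ Γ ((E i)⁄Qb))
    {e : (Qb ≃ₐ[K] Qb) → Fin n → Bool} (he : ∀ l, GalW c (E l) (fun σ => e σ l))
    (κ : Fin r → Fin n) {F : (Fin D → Fin n) → Type} [∀ μ, Field (F μ)] [∀ μ, Algebra Qb (F μ)]
    (ξ : ∀ μ a, ((prd E μ a)⁄(F μ)).toAffine.Point)
    (hξ : ∀ μ, IsGen 0 (Algebra.ofId Qb (F μ)) (prd E μ) (ξ μ)) :
    rkT Γ c E e κ ξ = ∑ i, ∑ T ∈ (Finset.univ.erase i).powerset,
      ((∑ μ : Fin D → Fin n with Monotone μ, bw (c.ω ((E i)⁄Qb)) (num κ i) (num μ i) *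
        ∏ l ∈ Finset.univ.erase i,
          hw (c.ω ((E l)⁄Qb)) (decide (l ∈ T)) (num κ l) (num μ l) : ℕ) : Cardinal) *
        Module.rank ℤ (GTg Γ E e i T) := by
  let X : Type := {μ : Fin D → Fin n // Monotone μ}
  let α : ZT Γ c E e κ D →+ CH (prd E κ) (pt0 Qb) D := (clT c κ ξ).comp (ZT Γ c E e κ D).subtype
  let β : ∀ μ : X, ZM Γ c E e κ μ.1 →+ CH (prd E κ) (pt0 Qb) D :=
    fun μ => (clM c κ (ξ μ.1)).comp (ZM Γ c E e κ μ.1).subtype
  let ψ : ∀ μ : X, ZT Γ c E e κ D →+ (β μ).range := fun μ =>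
    { toFun := fun z => ⟨clM c κ (ξ μ.1) (z.1 μ.1), ⟨z.1 μ.1, (z.2 μ.1).1⟩, rfl⟩
      map_zero' := Subtype.ext (map_zero (clM c κ (ξ μ.1)))
      map_add' := fun z z' => Subtype.ext (map_add (clM c κ (ξ μ.1)) _ _) }
  have hcl : ∀ b : (Fin D → Fin n) → (PM E κ D →₀ ℤ),
      clT c κ ξ b = ∑ μ, clM c κ (ξ μ) (b μ) := by
    intro b
    unfold clT
    rw [AddMonoidHom.finsetSum_apply]
    rfl
  have htor : ∀ (μ : X) (z : ZT Γ c E e κ D), IsOfFinAddOrder (ψ μ z) ↔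
      IsOfFinAddOrder (clM c κ (ξ μ.1) (z.1 μ.1)) := by
    intro μ z
    rw [isOfFinAddOrder_iff_nsmul_eq_zero, isOfFinAddOrder_iff_nsmul_eq_zero]
    refine exists_congr fun m => and_congr_right fun _ => ?_
    rw [← Subtype.coe_inj]
    rfl
  have h := rank_tests (fun μ : X => (β μ).range) α ψ ?_ ?_
  · have h2 : ∀ μ : X, Module.rank ℤ (β μ).range = _ := fun μ =>
      rank_type hΓ hF c E hE inj hle hSt he κ μ.1 (ξ μ.1) (hξ μ.1)
    have h3 : rkT Γ c E e κ ξ = Module.rank ℤ α.range := rfl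
    rw [h3, h, Finset.sum_congr rfl fun μ _ => h2 μ]
    exact F_sums Monotone (fun _ : Fin n => Finset (Fin n))
      (fun j => (Finset.univ.erase j).powerset)
      (fun μ j T => bw (c.ω ((E j)⁄Qb)) (num κ j) (num μ j) * ∏ l ∈ Finset.univ.erase j,
        hw (c.ω ((E l)⁄Qb)) (decide (l ∈ T)) (num κ l) (num μ l))
      (fun j T => Module.rank ℤ (GTg Γ E e j T))
  · intro z
    constructor
    · intro hz μ
      rw [htor]
      refine sep_types hΓ hF c E hE inj κ ξ hξ z.1 (fun μ => (z.2 μ).2)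
        (fun μ p hp => ⟨((z.2 μ).1.1 p hp).1, fun i => hle _ (((z.2 μ).1.1 p hp).2 i)⟩)
        (fun μ M hM => (z.2 μ).1.2.2 M hM) hz μ.1
    · intro hz
      show IsOfFinAddOrder (clT c κ ξ z.1)
      rw [hcl]
      refine F_sum _ _ fun μ _ => ?_
      by_cases hμ : Monotone μ
      · exact (htor ⟨μ, hμ⟩ z).1 (hz ⟨μ, hμ⟩)
      · rw [(z.2 μ).2 hμ, map_zero]
        exact IsOfFinAddOrder.zero
  · rintro μ ⟨y, z₀, hz₀⟩
    have hmem : (Pi.single μ.1 z₀.1 : (Fin D → Fin n) → (PM E κ D →₀ ℤ)) ∈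
        ZT Γ c E e κ D := by
      intro ν
      by_cases hν : ν = μ.1
      · subst hν
        rw [Pi.single_eq_same]
        exact ⟨z₀.2, fun h => absurd μ.2 h⟩
      · rw [Pi.single_eq_of_ne hν]
        exact ⟨zero_mem _, fun _ => rfl⟩
    refine ⟨1, ⟨_, hmem⟩, one_ne_zero, ?_, fun μ' hμ' => ?_⟩
    · have h1 : ψ μ ⟨_, hmem⟩ = ⟨y, z₀, hz₀⟩ := by
        apply Subtype.ext
        show clM c κ (ξ μ.1) ((Pi.single μ.1 z₀.1 : (Fin D → Fin n) → (PM E κ D →₀ ℤ)) μ.1) = y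
        rw [Pi.single_eq_same]
        exact hz₀
      rw [h1, one_smul, sub_self]
      exact IsOfFinAddOrder.zero
    · rw [htor]
      show IsOfFinAddOrder (clM c κ (ξ μ'.1)
        ((Pi.single μ.1 z₀.1 : (Fin D → Fin n) → (PM E κ D →₀ ℤ)) μ'.1))
      rw [Pi.single_eq_of_ne (fun h => hμ' (Subtype.ext h)), map_zero]
      exact IsOfFinAddOrder.zero

end Pool.Agent.LibEX75
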