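import Pool.Agent.LibEX75.BD

/-!
[EX75 B1] determinants of block matrices.
-/

open scoped Classical

namespace Pool.Agent.LibEX75

open Pool.Agent.LibEQ34

variable {n r D : ℕ} {κ : Fin r → Fin n} {μ : Fin D → Fin n} {R : Type}

/-- a sum supported in the colour `j` -/
theorem B1_sum [AddCommMonoid R] {j : Fin n} (f : Fin r → R) (hf : ∀ x, κ x ≠ j → f x = 0) :
    ∑ x, f x = ∑ y, f (ix κ j y).1 := by
  rw [Equiv.sum_comp (ix κ j) (fun y : {x // κ x = j} => f y.1),
    ← Finset.sum_subtype (Finset.univ.filter fun x => κ x = j) (by intro x; simp) f,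
    Finset.sum_filter]
  refine Finset.sum_congr rfl fun x _ => ?_
  split_ifs with h
  · rfl
  · exact hf x h

/-- a product over all indices is the product over the colours -/
theorem B1_prod [CommMonoid R] (f : Fin D → R) : ∏ a, f a = ∏ j, ∏ x, f (ix μ j x).1 := by
  rw [← Finset.prod_fiberwise_of_maps_to (s := Finset.univ) (t := Finset.univ) (g := μ)
    (fun a _ => Finset.mem_univ _)]
  refine Finset.prod_congr rfl fun j _ => ?_
  rw [Equiv.prod_comp (ix μ j) (fun y : {x // μ x = j} => f y.1),
    ← Finset.prod_subtype (Finset.univ.filter fun x => μ x = j) (by intro x; simp) f]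

variable [CommRing R]

/-- the product formula for a matrix which is zero between different colours -/
theorem B1_det {ι : Type} [Fintype ι] [DecidableEq ι] (A : Matrix ι ι R) (c : ι → Fin n)
    (h : ∀ a b, c a ≠ c b → A a b = 0) : A.det = ∏ j, (A.toSquareBlock c j).det := by
  refine Matrix.BlockTriangular.det_fintype (b := c) ?_
  intro a b hab
  exact h a b hab.ne'

theorem B1_blk {M N : Matrix (Fin r) (Fin D) R} (hM : Blk κ μ M) (j : Fin n)
    (a b : Fin (num μ j)) :
    ∑ x, M x (ix μ j a).1 * N x (ix μ j b).1 =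
      ((blk κ μ j M).transpose * blk κ μ j N) a b := by
  rw [B1_sum (κ := κ) (j := j) (fun x => M x (ix μ j a).1 * N x (ix μ j b).1)]
  · rfl
  · intro x hx
    rw [hM x _ (by rw [(ix μ j a).2]; exact fun h => hx h.symm), zero_mul]

theorem det_blk {M N : Matrix (Fin r) (Fin D) R} (hM : Blk κ μ M) (hN : Blk κ μ N) :
    (M.transpose * N).det = ∏ j, ((blk κ μ j M).transpose * blk κ μ j N).det := by
  rw [B1_det (M.transpose * N) μ]
  · refine Finset.prod_congr rfl fun j _ => ?_
    rw [← Matrix.det_submatrix_equiv_self (ix μ j)]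
    congr 1
    ext a b
    rw [← B1_blk hM j a b]
    rfl
  · intro a b hab
    rw [Matrix.mul_apply]
    refine Finset.sum_eq_zero fun x _ => ?_
    rw [Matrix.transpose_apply]
    by_cases h : μ a = κ x
    · rw [hN x b (fun h' => hab (h.trans h'.symm)), mul_zero]
    · rw [hM x a h, zero_mul]

/-- the bordered matrix -/
abbrev bdm {m d : ℕ} (M : Matrix (Fin m) (Fin d) R) (z : Fin m → R) :
    Matrix (Fin m) (Fin d ⊕ Unit) R :=
  Matrix.fromCols M (Matrix.replicateCol Unit z)

theorem B1_bd_zero {M : Matrix (Fin r) (Fin D) R} (hM : Blk κ μ M) {i : Fin n}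
    {z : Fin r → R} (hz : Sup κ i z) (x : Fin r) (a : Fin D ⊕ Unit)
    (h : Sum.elim μ (fun _ => i) a ≠ κ x) : bdm M z x a = 0 := by
  rcases a with a | u
  · exact hM x a h
  · exact hz x (fun h' => h h'.symm)

theorem det_bd {M N : Matrix (Fin r) (Fin D) R} (hM : Blk κ μ M) (hN : Blk κ μ N) {i : Fin n}
    {z w : Fin r → R} (hz : Sup κ i z) (hw : Sup κ i w) :
    ((bdm M z).transpose * bdm N w).det =
      ((bdm (blk κ μ i M) (vbl κ i z)).transpose * bdm (blk κ μ i N) (vbl κ i w)).det *
        ∏ j ∈ Finset.univ.erase i, ((blk κ μ j M).transpose * blk κ μ j N).det := by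
  rw [B1_det ((bdm M z).transpose * bdm N w) (Sum.elim μ (fun _ => i))]
  · rw [← Finset.mul_prod_erase Finset.univ _ (Finset.mem_univ i)]
    congr 1
    · -- the block `i`
      let e : Fin (num μ i) ⊕ Unit → {a : Fin D ⊕ Unit // Sum.elim μ (fun _ => i) a = i} :=
        Sum.elim (fun a => ⟨Sum.inl (ix μ i a).1, (ix μ i a).2⟩) (fun u => ⟨Sum.inr u, rfl⟩)
      have he : Function.Bijective e := by
        constructor
        · rintro (a | a) (b | b) hab
          · have h1 : (ix μ i a).1 = (ix μ i b).1 := Sum.inl_injective (congrArg Subtype.val hab)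
            rw [(ix μ i).injective (Subtype.ext h1)]
          · exact absurd (congrArg Subtype.val hab) Sum.inl_ne_inr
          · exact absurd (congrArg Subtype.val hab) Sum.inr_ne_inl
          · rfl
        · rintro ⟨a | u, ha⟩
          · refine ⟨Sum.inl ((ix μ i).symm ⟨a, ha⟩), ?_⟩
            apply Subtype.ext
            show Sum.inl (ix μ i ((ix μ i).symm ⟨a, ha⟩)).1 = _
            rw [Equiv.apply_symm_apply]
          · exact ⟨Sum.inr u, rfl⟩
      rw [← Matrix.det_submatrix_equiv_self (Equiv.ofBijective e he)]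
      congr 1
      ext a b
      have h1 : (((bdm M z).transpose * bdm N w).toSquareBlock (Sum.elim μ (fun _ => i))
          i).submatrix (Equiv.ofBijective e he) (Equiv.ofBijective e he) a b =
          ∑ x, bdm M z x (e a).1 * bdm N w x (e b).1 := rfl
      rw [h1, B1_sum (κ := κ) (j := i) (fun x => bdm M z x (e a).1 * bdm N w x (e b).1)]
      · rw [Matrix.mul_apply]
        refine Finset.sum_congr rfl fun y _ => ?_
        rcases a with a | a <;> rcases b with b | b <;> rfl
      · intro x hx
        rw [B1_bd_zero hM hz x _ (by rw [(e a).2]; exact fun h => hx h.symm), zero_mul]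
    · refine Finset.prod_congr rfl fun j hj => ?_
      have hji : j ≠ i := (Finset.mem_erase.1 hj).1
      let e : Fin (num μ j) → {a : Fin D ⊕ Unit // Sum.elim μ (fun _ => i) a = j} :=
        fun a => ⟨Sum.inl (ix μ j a).1, (ix μ j a).2⟩
      have he : Function.Bijective e := by
        constructor
        · intro a b hab
          have h1 : (ix μ j a).1 = (ix μ j b).1 := Sum.inl_injective (congrArg Subtype.val hab)
          exact (ix μ j).injective (Subtype.ext h1)
        · rintro ⟨a | u, ha⟩
          · refine ⟨(ix μ j).symm ⟨a, ha⟩, ?_⟩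
            apply Subtype.ext
            show Sum.inl (ix μ j ((ix μ j).symm ⟨a, ha⟩)).1 = _
            rw [Equiv.apply_symm_apply]
          · exact absurd ha.symm hji
      rw [← Matrix.det_submatrix_equiv_self (Equiv.ofBijective e he)]
      congr 1
      ext a b
      rw [← B1_blk hM j a b]
      rfl
  · intro a b hab
    rw [Matrix.mul_apply]
    refine Finset.sum_eq_zero fun x _ => ?_
    rw [Matrix.transpose_apply]
    by_cases h : Sum.elim μ (fun _ => i) a = κ x
    · rw [B1_bd_zero hN hw x b (fun h' => hab (h.trans h'.symm)), mul_zero]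
    · rw [B1_bd_zero hM hz x a h, zero_mul]

end Pool.Agent.LibEX75
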