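import Pool.Agent.LibEX75.BD

/-!
[EX75 B2] gluing of blocks.
-/

open scoped Classical

namespace Pool.Agent.LibEX75

open Pool.Agent.LibEQ34

variable {n r D : ℕ} {κ : Fin r → Fin n} {μ : Fin D → Fin n} {R : Type} [Zero R]

theorem blk_glue (B : ∀ j, Matrix (Fin (num κ j)) (Fin (num μ j)) R) (j : Fin n) :
    blk κ μ j (glue κ μ B) = B j := by
  have key : ∀ (X : Fin r) (A : Fin D) (hX : κ X = j) (hA : μ A = κ X),
      B (κ X) ((ix κ (κ X)).symm ⟨X, rfl⟩) ((ix μ (κ X)).symm ⟨A, hA⟩) =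
        B j ((ix κ j).symm ⟨X, hX⟩) ((ix μ j).symm ⟨A, hA.trans hX⟩) := by
    intro X A hX hA
    subst hX
    rfl
  ext x a
  have h : μ (ix μ j a).1 = κ (ix κ j x).1 := (ix μ j a).2.trans (ix κ j x).2.symm
  show glue κ μ B (ix κ j x).1 (ix μ j a).1 = _
  unfold glue
  rw [dif_pos h, key _ _ (ix κ j x).2 h]
  have e1 : (⟨(ix κ j x).1, (ix κ j x).2⟩ : {x // κ x = j}) = ix κ j x := rfl
  have e2 : (⟨(ix μ j a).1, h.trans (ix κ j x).2⟩ : {x // μ x = j}) = ix μ j a := rfl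
  rw [e1, e2, Equiv.symm_apply_apply, Equiv.symm_apply_apply]

theorem Blk_glue (B : ∀ j, Matrix (Fin (num κ j)) (Fin (num μ j)) R) : Blk κ μ (glue κ μ B) := by
  intro x a h
  unfold glue
  rw [dif_neg h]

/-- the entries of a glued matrix are entries of the blocks or zero -/
theorem glue_prop (B : ∀ j, Matrix (Fin (num κ j)) (Fin (num μ j)) R) (p : Fin n → R → Prop)
    (h0 : ∀ j, p j 0) (h : ∀ j x a, p j (B j x a)) (x : Fin r) (a : Fin D) :
    p (κ x) (glue κ μ B x a) := by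
  unfold glue
  split_ifs with h1
  · exact h _ _ _
  · exact h0 _

/-- a matrix which is zero between different colours is determined by its blocks -/
theorem glue_blk {N : Matrix (Fin r) (Fin D) R} (hN : Blk κ μ N) :
    glue κ μ (fun j => blk κ μ j N) = N := by
  ext x a
  unfold glue
  split_ifs with h
  · show N (ix κ (κ x) ((ix κ (κ x)).symm ⟨x, rfl⟩)).1
      (ix μ (κ x) ((ix μ (κ x)).symm ⟨a, h⟩)).1 = _
    rw [Equiv.apply_symm_apply, Equiv.apply_symm_apply]
  · rw [hN x a h]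

variable {j : Fin n} {M : Matrix (Fin r) (Fin D) R}
  {p : Matrix (Fin (num κ j)) (Fin (num μ j)) R × (Fin (num κ j) → R)}

theorem blk_ins_self : blk κ μ j (ins κ μ j M p).1 = p.1 := by
  ext x a
  show (ins κ μ j M p).1 (ix κ j x).1 (ix μ j a).1 = _
  unfold ins
  dsimp only
  rw [dif_pos ⟨(ix κ j x).2, (ix μ j a).2⟩]
  have e1 : (⟨(ix κ j x).1, (ix κ j x).2⟩ : {x // κ x = j}) = ix κ j x := rfl
  have e2 : (⟨(ix μ j a).1, (ix μ j a).2⟩ : {x // μ x = j}) = ix μ j a := rfl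
  rw [e1, e2, Equiv.symm_apply_apply, Equiv.symm_apply_apply]

theorem blk_ins_ne {l : Fin n} (hl : l ≠ j) : blk κ μ l (ins κ μ j M p).1 = blk κ μ l M := by
  ext x a
  show (ins κ μ j M p).1 (ix κ l x).1 (ix μ l a).1 = _
  unfold ins
  dsimp only
  rw [dif_neg fun h => hl ((ix κ l x).2.symm.trans h.1)]
  rfl

theorem vbl_ins : vbl κ j (ins κ μ j M p).2 = p.2 := by
  funext x
  show (ins κ μ j M p).2 (ix κ j x).1 = _
  unfold ins
  dsimp only
  rw [dif_pos (ix κ j x).2]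
  have e1 : (⟨(ix κ j x).1, (ix κ j x).2⟩ : {x // κ x = j}) = ix κ j x := rfl
  rw [e1, Equiv.symm_apply_apply]

theorem Sup_ins : Sup κ j (ins κ μ j M p).2 := by
  intro x h
  unfold ins
  dsimp only
  rw [dif_neg h]

theorem Blk_ins (hM : Blk κ μ M) : Blk κ μ (ins κ μ j M p).1 := by
  intro x a h
  unfold ins
  dsimp only
  rw [dif_neg fun h' => h (h'.2.trans h'.1.symm)]
  exact hM x a h

/-- the entries are entries of `p` or of `M` -/
theorem ins_prop (q : Fin n → R → Prop) (hM : ∀ x a, q (κ x) (M x a))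
    (hp : ∀ x a, q j (p.1 x a)) (x : Fin r) (a : Fin D) : q (κ x) ((ins κ μ j M p).1 x a) := by
  unfold ins
  dsimp only
  split_ifs with h
  · rw [h.1]
    exact hp _ _
  · exact hM x a

end Pool.Agent.LibEX75
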