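import Pool.Agent.LibEX75.G1

/-!
[EX75 G2] a multiple of a kernel (elementary): use `c * a` instead of `a`, and divide the second condition by `c`.
-/

open scoped Classical

namespace Pool.Agent.LibEX75

theorem good_scale {P : Type} {k : P → P → ℤ} {ι : Type} [Fintype ι] (c : ℤ) (hc : c ≠ 0)
    (h : Good (fun p q => c * k p q) ι) : Good k ι := by
  obtain ⟨p, N, a, hN, ha, hx⟩ := h
  refine ⟨p, N, fun i t => c * a i t, hN, fun i i' => ?_, fun x => ?_⟩
  · rw [← ha i i']
    exact Finset.sum_congr rfl fun t _ => by ring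
  · obtain ⟨m, b, hm, hb⟩ := hx x
    refine ⟨m, b, hm, fun q => ?_⟩
    have h1 := hb q
    have h2 : c * (m * k q x) = c * ∑ i, b i * k q (p i) := by
      rw [Finset.mul_sum]
      have h3 : m * (c * k q x) = c * (m * k q x) := by ring
      rw [← h3, h1]
      exact Finset.sum_congr rfl fun t _ => by ring
    exact mul_left_cancel₀ hc h2

end Pool.Agent.LibEX75
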