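import Pool.Agent.LibEX75.BD
import Pool.Agent.LibER34.LaCM

/-!
[EX75 K1] polarisation of the Hermitian squares. `H (N, M) = Hg N M`, `(I, I') ↦ conj (mI N I) * mI M I'`; `S = HH` the
additive subgroup generated by all `H (N, N)`; `R_a (N, M) = a H (N, M) + conj a H (M, N)`. Claim, by induction on
the finite set `S` of columns: if `M` and `N` agree outside `S` then `(4 n - t ^ 2) ^ #S • R_a (N, M)` belongs to `HH` for
all `a` in the order. `S = ∅`: `N = M`, `R_a (N, N) = (a + conj a) H (N, N)`, `a + conj a` an integer.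
`S = insert c S'`: write `N [x]` for `N` with the column `c` replaced by `x`, `u = N_c`, `u' = M_c`. For all `x` and all `a`
the element `(4 n - t ^ 2) ^ #S' • R_a (N [x], M [x])` belongs to `HH` (induction). Take `x = α u + β u'`
(`α`, `β` in the order; the column `x` of pairs: `mulP`-like products, compare `polar_mem` in LibER34/LaCM.lean, whose
lemmas `mI_upd`, `mI_add`, `mI_smul`, `map_upd` say how the minors depend on the column). As `H` is antilinear in the
first and linear in the second argument,
`R_a (N [x], M [x]) = |α|^2 R_a (N [u], M [u]) + |β|^2 R_a (N [u'], M [u']) + R_(a conj(α) β) (P) + R_(a α conj(β)) (Q)`, where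
`P = H (N [u], M [u']) = H (N, M)`, `Q = H (N [u'], M [u])` and `R_b (P) = b P + conj b P*`, `P* = H (M [u'], N [u])`,
`Q* = H (M [u], N [u'])`. The first two terms are in (the multiples) of `HH`. For `(a, α, β) = (b, 1, ω)` and
`(b conj ω, 1, 1)` the terms in `Q` are the same (`R_(b conj ω) (Q)`); the difference gives
`R_(b (ω - conj ω)) (P)` in `(4 n - t ^ 2) ^ (- #S') HH` for all `b` in the order; with `b = b' (conj ω - ω)` (in the order:
`conj ω = t - ω`) and `(ω - conj ω) (conj ω - ω) = 4 n - t ^ 2` this is `(4 n - t ^ 2) R_b' (P)`.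
-/

open Pool.Agent.LibER34 Pool.Agent.LibEQ34
open scoped Classical ComplexConjugate

namespace Pool.Agent.LibEX75

variable {r d : ℕ}

/-- the products of the conjugates of the minors of `N` and the minors of `M` -/
noncomputable def Hg (N M : Matrix (Fin r) (Fin d) ℂ) : Sb r d × Sb r d → ℂ :=
  fun s => conj (mI N s.1) * mI M s.2

/-- the subgroup generated by the Hermitian squares -/
noncomputable def HH (ω : ℂ) (r d : ℕ) : AddSubgroup (Sb r d × Sb r d → ℂ) :=
  AddSubgroup.closure (Set.range fun N : Matrix (Fin r) (Fin d) (ℤ × ℤ) =>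
    Hg (N.map (tc ω)) (N.map (tc ω)))

theorem Hg_polar {ω : ℂ} {t n : ℤ} (ht : ω + conj ω = t) (hn : ω * conj ω = n)
    (N M : Matrix (Fin r) (Fin d) ℂ) (c : Fin d) (u u' : Fin r → ℂ) (b : ℂ) :
    ((4 * n - t ^ 2 : ℤ) : ℂ) • (b • Hg (N.updateCol c u) (M.updateCol c u') +
        conj b • Hg (M.updateCol c u') (N.updateCol c u)) =
      (((b * (conj ω - ω)) • Hg (N.updateCol c (u + ω • u')) (M.updateCol c (u + ω • u')) +
        conj (b * (conj ω - ω)) •
          Hg (M.updateCol c (u + ω • u')) (N.updateCol c (u + ω • u'))) -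
      ((b * (conj ω - ω)) • Hg (N.updateCol c u) (M.updateCol c u) +
        conj (b * (conj ω - ω)) • Hg (M.updateCol c u) (N.updateCol c u)) -
      (n : ℂ) • ((b * (conj ω - ω)) • Hg (N.updateCol c u') (M.updateCol c u') +
        conj (b * (conj ω - ω)) • Hg (M.updateCol c u') (N.updateCol c u'))) -
      (((b * (conj ω - ω) * conj ω) • Hg (N.updateCol c (u + u')) (M.updateCol c (u + u')) +
        conj (b * (conj ω - ω) * conj ω) •
          Hg (M.updateCol c (u + u')) (N.updateCol c (u + u'))) -
      ((b * (conj ω - ω) * conj ω) • Hg (N.updateCol c u) (M.updateCol c u) +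
        conj (b * (conj ω - ω) * conj ω) • Hg (M.updateCol c u) (N.updateCol c u)) -
      ((b * (conj ω - ω) * conj ω) • Hg (N.updateCol c u') (M.updateCol c u') +
        conj (b * (conj ω - ω) * conj ω) • Hg (M.updateCol c u') (N.updateCol c u'))) := by
  funext s
  simp only [Pi.smul_apply, Pi.sub_apply, Pi.add_apply, smul_eq_mul, Hg, mI_add,
    mI_smul, map_add, map_mul, map_sub, Complex.conj_conj]
  push_cast
  rw [← ht, ← hn]
  ring

theorem Hg_mem {ω : ℂ} {t n : ℤ} (ht : ω + conj ω = t) (hn : ω * conj ω = n) (S : Finset (Fin d)) :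
    ∀ (N M : Matrix (Fin r) (Fin d) (ℤ × ℤ)), (∀ c, c ∉ S → ∀ i, M i c = N i c) →
      ∀ a : ℤ × ℤ, (((4 * n - t ^ 2) ^ S.card : ℤ) : ℂ) •
        (tc ω a • Hg (N.map (tc ω)) (M.map (tc ω)) +
          conj (tc ω a) • Hg (M.map (tc ω)) (N.map (tc ω))) ∈ HH ω r d := by
  induction S using Finset.induction_on with
  | empty =>
    intro N M h a
    have h1 : M = N := by
      ext i c
      · rw [h c (by simp) i]
      · rw [h c (by simp) i]
    subst h1
    rw [Finset.card_empty, pow_zero, Int.cast_one, one_smul, ← add_smul]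
    have e1 : tc ω a + conj (tc ω a) = ((2 * a.1 + t * a.2 : ℤ) : ℂ) := by
      simp only [tc, map_add, map_mul, map_intCast]
      push_cast
      rw [← ht]
      ring
    rw [e1, Int.cast_smul_eq_zsmul]
    exact zsmul_mem (AddSubgroup.subset_closure (Set.mem_range_self M)) _
  | insert c T hc ih =>
    intro N M h a
    have h0 : ∀ (x : Fin r → ℤ × ℤ) (a' : ℤ × ℤ), (((4 * n - t ^ 2) ^ T.card : ℤ) : ℂ) •
        (tc ω a' • Hg ((N.map (tc ω)).updateCol c fun i => tc ω (x i))
          ((M.map (tc ω)).updateCol c fun i => tc ω (x i)) +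
        conj (tc ω a') • Hg ((M.map (tc ω)).updateCol c fun i => tc ω (x i))
          ((N.map (tc ω)).updateCol c fun i => tc ω (x i))) ∈ HH ω r d := by
      intro x a'
      rw [← map_upd, ← map_upd]
      refine ih _ _ (fun c' hc' i => ?_) a'
      by_cases hcc : c' = c
      · subst hcc; simp
      · rw [Matrix.updateCol_ne hcc, Matrix.updateCol_ne hcc]
        exact h c' (by simp [hcc, hc']) i
    have e1 : N.map (tc ω) = (N.map (tc ω)).updateCol c fun i => tc ω (N i c) := by
      ext i j
      by_cases h : j = c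
      · subst h; simp
      · simp [Matrix.updateCol_ne h]
    have e2 : M.map (tc ω) = (M.map (tc ω)).updateCol c fun i => tc ω (M i c) := by
      ext i j
      by_cases h : j = c
      · subst h; simp
      · simp [Matrix.updateCol_ne h]
    have e3 : (fun i => tc ω (N i c)) + ω • (fun i => tc ω (M i c)) = fun i =>
        tc ω (N i c + ((0 : ℤ) * (M i c).1 - n * (1 * (M i c).2),
          (0 : ℤ) * (M i c).2 + 1 * (M i c).1 + t * (1 * (M i c).2))) := by
      funext i
      have h2 := tc_mul ht hn (0, 1) (M i c)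
      rw [tc_add, ← h2]
      simp [tc]
    have e4 : (fun i => tc ω (N i c)) + (fun i => tc ω (M i c)) = fun i =>
        tc ω (N i c + M i c) := by
      funext i
      rw [tc_add]
      rfl
    have e5 : conj ω - ω = tc ω (t, -2) := by
      have : conj ω = t - ω := by rw [← ht]; ring
      rw [this, tc]
      push_cast
      ring
    have e6 : conj ω = tc ω (t, -1) := by
      have : conj ω = t - ω := by rw [← ht]; ring
      rw [this, tc]
      push_cast
      ring
    obtain ⟨b1, hb1⟩ : ∃ b1 : ℤ × ℤ, tc ω a * (conj ω - ω) = tc ω b1 :=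
      ⟨_, by rw [e5]; exact tc_mul ht hn a (t, -2)⟩
    obtain ⟨b2, hb2⟩ : ∃ b2 : ℤ × ℤ, tc ω b1 * conj ω = tc ω b2 :=
      ⟨_, by rw [e6]; exact tc_mul ht hn b1 (t, -1)⟩
    rw [Finset.card_insert_of_notMem hc, pow_succ, Int.cast_mul, mul_smul, e1, e2,
      Hg_polar ht hn, e3, e4, hb1, hb2]
    simp only [smul_sub]
    refine sub_mem (sub_mem (sub_mem (h0 _ _) (h0 _ _)) ?_)
      (sub_mem (sub_mem (h0 _ _) (h0 _ _)) (h0 _ _))
    rw [smul_comm, Int.cast_smul_eq_zsmul]
    exact zsmul_mem (h0 _ _) _

end Pool.Agent.LibEX75
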