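import Mathlib

/-!
[EX75 K2] dimensions of the spaces of symmetric and antisymmetric functions on `X × X` (only Mathlib).
Symmetric: `f ↦ (s(x, y) ↦ f (x, y))` is an isomorphism of `U` with the functions on `Sym2 X` (`U` is the space of
all symmetric functions: a symmetric `f` is half the sum of the `f (x, y) • (single (x, y) + single (y, x))`), and
`Sym2.card : Fintype.card (Sym2 α) = (Fintype.card α + 1).choose 2`. Antisymmetric: choose a linear order on `X` (e.g.
`X ≃ Fin (card X)`); `U` is isomorphic to the functions on `{p : X × X // p.1 < p.2}`, whose cardinality is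
`(card X).choose 2` (e.g. equivalence with `{s : Sym2 X // ¬ s.IsDiag}`, `Sym2.card_subtype_not_diag`, or
`Finset.powersetCard 2`).
-/

open scoped Classical

namespace Pool.Agent.LibEX75

theorem K2_expand_sym {X : Type} [Fintype X] (f : X × X → ℚ) (hf : ∀ x y, f (x, y) = f (y, x)) :
    f = ∑ p : X × X, (f p / 2) • (Pi.single (p.1, p.2) 1 + Pi.single (p.2, p.1) 1 : X × X → ℚ) := by
  funext q
  rw [Finset.sum_apply]
  have h1 : ∀ p : X × X, ((f p / 2) •
      (Pi.single (p.1, p.2) 1 + Pi.single (p.2, p.1) 1 : X × X → ℚ)) q =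
      (if q = p then f p / 2 else 0) + (if q.swap = p then f p / 2 else 0) := by
    intro p
    rw [Pi.smul_apply, Pi.add_apply, Pi.single_apply, Pi.single_apply, smul_eq_mul, mul_add]
    have h2 : (q = (p.2, p.1)) ↔ (q.swap = p) := by
      constructor
      · rintro rfl
        rfl
      · rintro rfl
        rfl
    have h3 : (q = (p.1, p.2)) ↔ (q = p) := Iff.rfl
    congr 1
    · by_cases h : q = p
      · rw [if_pos h, if_pos (h3.2 h), mul_one]
      · rw [if_neg h, if_neg (fun h' => h (h3.1 h')), mul_zero]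
    · by_cases h : q.swap = p
      · rw [if_pos h, if_pos (h2.2 h), mul_one]
      · rw [if_neg h, if_neg (fun h' => h (h2.1 h')), mul_zero]
  rw [Finset.sum_congr rfl (fun p _ => h1 p), Finset.sum_add_distrib, Finset.sum_ite_eq,
    Finset.sum_ite_eq, if_pos (Finset.mem_univ _), if_pos (Finset.mem_univ _)]
  have h4 : f q.swap = f q := hf q.2 q.1
  rw [h4]
  ring

theorem K2_expand_alt {X : Type} [Fintype X] (f : X × X → ℚ) (hf : ∀ x y, f (x, y) = -f (y, x)) :
    f = ∑ p : X × X, (f p / 2) • (Pi.single (p.1, p.2) 1 - Pi.single (p.2, p.1) 1 : X × X → ℚ) := by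
  funext q
  rw [Finset.sum_apply]
  have h1 : ∀ p : X × X, ((f p / 2) •
      (Pi.single (p.1, p.2) 1 - Pi.single (p.2, p.1) 1 : X × X → ℚ)) q =
      (if q = p then f p / 2 else 0) - (if q.swap = p then f p / 2 else 0) := by
    intro p
    rw [Pi.smul_apply, Pi.sub_apply, Pi.single_apply, Pi.single_apply, smul_eq_mul, mul_sub]
    have h2 : (q = (p.2, p.1)) ↔ (q.swap = p) := by
      constructor
      · rintro rfl
        rfl
      · rintro rfl
        rfl
    have h3 : (q = (p.1, p.2)) ↔ (q = p) := Iff.rfl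
    congr 1
    · by_cases h : q = p
      · rw [if_pos h, if_pos (h3.2 h), mul_one]
      · rw [if_neg h, if_neg (fun h' => h (h3.1 h')), mul_zero]
    · by_cases h : q.swap = p
      · rw [if_pos h, if_pos (h2.2 h), mul_one]
      · rw [if_neg h, if_neg (fun h' => h (h2.1 h')), mul_zero]
  rw [Finset.sum_congr rfl (fun p _ => h1 p), Finset.sum_sub_distrib, Finset.sum_ite_eq,
    Finset.sum_ite_eq, if_pos (Finset.mem_univ _), if_pos (Finset.mem_univ _)]
  have h4 : f q.swap = -f q := hf q.2 q.1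
  rw [h4]
  ring

theorem finrank_sym {X : Type} [Fintype X] (U : Submodule ℚ (X × X → ℚ))
    (h1 : ∀ f ∈ U, ∀ x y, f (x, y) = f (y, x))
    (h2 : ∀ x y, (Pi.single (x, y) 1 + Pi.single (y, x) 1 : X × X → ℚ) ∈ U) :
    Module.finrank ℚ U = (Fintype.card X + 1).choose 2 := by
  have hr : ∀ s : Sym2 X, ∃ p : X × X, s(p.1, p.2) = s := by
    intro s
    induction s using Sym2.ind with
    | _ x y => exact ⟨(x, y), rfl⟩
  choose r hr using hr
  let Φ : U →ₗ[ℚ] (Sym2 X → ℚ) :=
    { toFun := fun f s => (f : X × X → ℚ) (r s)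
      map_add' := fun f g => rfl
      map_smul' := fun a f => rfl }
  have hinj : Function.Injective Φ := by
    rw [← LinearMap.ker_eq_bot, LinearMap.ker_eq_bot']
    intro f hf
    refine Subtype.ext (funext fun q => ?_)
    have h3 : (f : X × X → ℚ) (r s(q.1, q.2)) = 0 := congrFun hf s(q.1, q.2)
    have h4 := hr s(q.1, q.2)
    rw [Sym2.eq_iff] at h4
    rcases h4 with ⟨h5, h6⟩ | ⟨h5, h6⟩
    · have h7 : r s(q.1, q.2) = q := Prod.ext h5 h6
      rw [h7] at h3
      exact h3
    · have h7 : r s(q.1, q.2) = (q.2, q.1) := Prod.ext h5 h6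
      rw [h7, h1 f.1 f.2] at h3
      exact h3
  have hsurj : Function.Surjective Φ := by
    intro g
    have hsym : ∀ x y, (fun p : X × X => g s(p.1, p.2)) (x, y) = (fun p : X × X => g s(p.1, p.2)) (y, x) := by
      intro x y
      show g s(x, y) = g s(y, x)
      rw [Sym2.eq_swap]
    have hmem : (fun p : X × X => g s(p.1, p.2)) ∈ U := by
      rw [K2_expand_sym (fun p : X × X => g s(p.1, p.2)) hsym]
      exact U.sum_mem fun p _ => U.smul_mem _ (h2 p.1 p.2)
    refine ⟨⟨_, hmem⟩, funext fun s => ?_⟩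
    show g s((r s).1, (r s).2) = g s
    rw [hr]
  rw [(LinearEquiv.ofBijective Φ ⟨hinj, hsurj⟩).finrank_eq, Module.finrank_fintype_fun_eq_card]
  exact Sym2.card

theorem finrank_alt {X : Type} [Fintype X] (U : Submodule ℚ (X × X → ℚ))
    (h1 : ∀ f ∈ U, ∀ x y, f (x, y) = -f (y, x))
    (h2 : ∀ x y, (Pi.single (x, y) 1 - Pi.single (y, x) 1 : X × X → ℚ) ∈ U) :
    Module.finrank ℚ U = (Fintype.card X).choose 2 := by
  obtain ⟨e⟩ : Nonempty (X ≃ Fin (Fintype.card X)) := ⟨Fintype.equivFin X⟩
  let Φ : U →ₗ[ℚ] ({p : X × X // e p.1 < e p.2} → ℚ) :=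
    { toFun := fun f s => (f : X × X → ℚ) s.1
      map_add' := fun f g => rfl
      map_smul' := fun a f => rfl }
  have hinj : Function.Injective Φ := by
    rw [← LinearMap.ker_eq_bot, LinearMap.ker_eq_bot']
    intro f hf
    refine Subtype.ext (funext fun q => ?_)
    show (f : X × X → ℚ) q = 0
    rcases lt_trichotomy (e q.1) (e q.2) with h | h | h
    · exact congrFun hf ⟨q, h⟩
    · have h3 : q.1 = q.2 := e.injective h
      have h4 := h1 f.1 f.2 q.1 q.2
      have h5 : ((q.1, q.2) : X × X) = (q.2, q.1) := by rw [h3]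
      rw [← h5] at h4
      have h6 : (f : X × X → ℚ) (q.1, q.2) = 0 := by linarith
      exact h6
    · have h3 : (f : X × X → ℚ) (q.2, q.1) = 0 := congrFun hf ⟨(q.2, q.1), h⟩
      have h4 := h1 f.1 f.2 q.1 q.2
      rw [h3, neg_zero] at h4
      exact h4
  have hsurj : Function.Surjective Φ := by
    intro g
    obtain ⟨F, hF⟩ : ∃ F : X × X → ℚ, F = fun p => if h : e p.1 < e p.2 then g ⟨p, h⟩ else
      (if h : e p.2 < e p.1 then -g ⟨(p.2, p.1), h⟩ else 0) := ⟨_, rfl⟩
    have hF1 : ∀ (x y : X) (h : e x < e y), F (x, y) = g ⟨(x, y), h⟩ := by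
      intro x y h
      rw [hF]
      show (if h : e x < e y then g ⟨(x, y), h⟩ else
        (if h : e y < e x then -g ⟨(y, x), h⟩ else 0)) = _
      rw [dif_pos h]
    have hF2 : ∀ (x y : X) (h : e y < e x), F (x, y) = -g ⟨(y, x), h⟩ := by
      intro x y h
      rw [hF]
      show (if h : e x < e y then g ⟨(x, y), h⟩ else
        (if h : e y < e x then -g ⟨(y, x), h⟩ else 0)) = _
      rw [dif_neg (not_lt.2 h.le), dif_pos h]
    have hF3 : ∀ x : X, F (x, x) = 0 := by
      intro x
      rw [hF]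
      show (if h : e x < e x then g ⟨(x, x), h⟩ else
        (if h : e x < e x then -g ⟨(x, x), h⟩ else 0)) = _
      rw [dif_neg (lt_irrefl _), dif_neg (lt_irrefl _)]
    have halt : ∀ x y, F (x, y) = -F (y, x) := by
      intro x y
      rcases lt_trichotomy (e x) (e y) with h | h | h
      · rw [hF1 x y h, hF2 y x h, neg_neg]
      · have h3 : x = y := e.injective h
        subst h3
        rw [hF3, neg_zero]
      · rw [hF2 x y h, hF1 y x h]
    have hmem : F ∈ U := by
      rw [K2_expand_alt F halt]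
      exact U.sum_mem fun p _ => U.smul_mem _ (h2 p.1 p.2)
    refine ⟨⟨F, hmem⟩, funext fun s => ?_⟩
    show F s.1 = g s
    exact hF1 s.1.1 s.1.2 s.2
  rw [(LinearEquiv.ofBijective Φ ⟨hinj, hsurj⟩).finrank_eq, Module.finrank_fintype_fun_eq_card]
  have hb : Function.Bijective (fun p : {p : X × X // e p.1 < e p.2} =>
      (⟨s(p.1.1, p.1.2), by
        rw [Sym2.mk_isDiag_iff]
        intro h
        have h3 := p.2
        rw [h] at h3
        exact lt_irrefl _ h3⟩ : {a : Sym2 X // ¬ a.IsDiag})) := by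
    constructor
    · rintro ⟨⟨x, y⟩, hxy⟩ ⟨⟨x', y'⟩, hxy'⟩ h
      have h3 : s(x, y) = s(x', y') := congrArg Subtype.val h
      rw [Sym2.eq_iff] at h3
      rcases h3 with ⟨rfl, rfl⟩ | ⟨rfl, rfl⟩
      · rfl
      · exact absurd hxy (not_lt.2 (le_of_lt hxy'))
    · rintro ⟨s, hs⟩
      induction s using Sym2.ind with
      | _ x y =>
        rw [Sym2.mk_isDiag_iff] at hs
        rcases lt_trichotomy (e x) (e y) with h | h | h
        · exact ⟨⟨(x, y), h⟩, rfl⟩
        · exact absurd (e.injective h) hs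
        · exact ⟨⟨(y, x), h⟩, Subtype.ext Sym2.eq_swap⟩
  rw [Fintype.card_congr (Equiv.ofBijective _ hb)]
  exact Sym2.card_subtype_not_diag

end Pool.Agent.LibEX75
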