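import Pool.Agent.LibEX75.K0
import Pool.Agent.LibEX75.K1
import Pool.Agent.LibEX75.K2
import Pool.Agent.LibEX75.G0
import Pool.Agent.LibEX75.G2

/-!
[EX75 K3] Gram systems of the kernels `ks` for `ω` not real. Write `H_N = Hg N N`, so `H_N (I, I') = conj (N_I) N_I'` belongs
to the order: `= tc ω (p N (I, I'))` (as `exists_coef` in LibER34/Tst.lean). By the formula of Cauchy and Binet
(`LibAC84C.cauchyBinet`, see `num_eq` in LibER34/Crit.lean) `|det (Mᵀ N)| ^ 2 = ∑ s, H_M s * H_N s`; for `N` conjugated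
`H_N` is conjugated. Let `T⁺ N s = 2 p.1 + t p.2 = H_N s + conj (H_N s)` and `T⁻ N s = p.2`,
`H_N s - conj (H_N s) = (ω - conj ω) T⁻ N s`. As `conj (H_N (I, I')) = H_N (I', I)`, `T⁺ N` is symmetric, `T⁻ N` antisymmetric, and
`ks false M N = ∑ s, H_M s * T⁺ N s = (1/2) ∑ s, T⁺ M s * T⁺ N s`,
`ks true M N = (ω - conj ω) ∑ s, H_M s * T⁻ N s = ((ω - conj ω) ^ 2 / 2) ∑ s, T⁻ M s * T⁻ N s`, `(ω - conj ω) ^ 2 = -(4 n - t ^ 2)`.
So `2 * ks false` and `-2 (4 n - t ^ 2) * ks true` are given by the vectors `T⁺ N` and `(4 n - t ^ 2) T⁻ N`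
(`good_of_vec`, `good_scale`); the dimensions of the spans are given by `finrank_sym`, `finrank_alt` for `X = Sb r d`
(`card_Sb` in LibER34/LA.lean): by `Hg_mem` (for `S = univ`) with `a = 1` resp. `a = (0, 1)` and the matrices `N`, `M` of zeros and
ones with the rows of the identity matrix in `I` resp. `I'` (`mI_std` in LibER34/LaCM.lean, as in `la_cm`) some multiple of
`single (I, I') 1 ± single (I', I) 1` is in the span (apply the additive maps `z ↦ z + conj z`, `z ↦ (z - conj z) / (ω - conj ω)` to the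
elements of `HH`, `AddSubgroup.closure_induction`).
-/

open Pool.Agent.LibER34 Pool.Agent.LibEQ34
open scoped Classical ComplexConjugate

namespace Pool.Agent.LibEX75

theorem K3_mI_mem {ω : ℂ} {t n : ℤ} (ht : ω + conj ω = t) (hn : ω * conj ω = n) {r d : ℕ}
    (N : Matrix (Fin r) (Fin d) (ℤ × ℤ)) (s : Sb r d × Sb r d) :
    ∃ p : ℤ × ℤ, tc ω p = Hg (N.map (tc ω)) (N.map (tc ω)) s := by
  have h1 : mI (N.map (tc ω)) s.1 ∈ RR ht hn := det_mem _ _ fun x y => ⟨_, rfl⟩
  have h2 : mI (N.map (tc ω)) s.2 ∈ RR ht hn := det_mem _ _ fun x y => ⟨_, rfl⟩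
  obtain ⟨p, hp⟩ := h1
  have h3 : conj (mI (N.map (tc ω)) s.1) ∈ RR ht hn := by
    rw [← hp, tc_conj ht]
    exact ⟨_, rfl⟩
  exact (RR ht hn).mul_mem h3 h2

theorem K3_Hg_conj {r d : ℕ} (N : Matrix (Fin r) (Fin d) ℂ) (s : Sb r d × Sb r d) :
    Hg (N.map conj) (N.map conj) s = conj (Hg N N s) := by
  have h : ∀ I : Sb r d, mI (N.map conj) I = conj (mI N I) := by
    intro I
    unfold mI
    rw [conj_det, Matrix.submatrix_map]
  unfold Hg
  rw [h, h, map_mul]

theorem K3_Hg_swap {r d : ℕ} (N : Matrix (Fin r) (Fin d) ℂ) (x y : Sb r d) :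
    conj (Hg N N (x, y)) = Hg N N (y, x) := by
  unfold Hg
  rw [map_mul, Complex.conj_conj]
  ring

theorem K3_normSq {r d : ℕ} (M N : Matrix (Fin r) (Fin d) ℂ) :
    ((Complex.normSq ((M.transpose * N).det) : ℝ) : ℂ) = ∑ s, Hg M M s * Hg N N s := by
  rw [Complex.normSq_eq_conj_mul_self, LibAC84C.cauchyBinet, map_sum, Fintype.sum_prod_type,
    Finset.sum_mul]
  refine Finset.sum_congr rfl fun I _ => ?_
  rw [Finset.mul_sum]
  refine Finset.sum_congr rfl fun J _ => ?_
  unfold Hg mI
  rw [map_mul]
  ring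

theorem K3_kz {ω : ℂ} {t n : ℤ} (ht : ω + conj ω = t) (hn : ω * conj ω = n) {r d : ℕ}
    (M N : Matrix (Fin r) (Fin d) (ℤ × ℤ)) :
    (kz ω M N : ℂ) = ∑ s, Hg (M.map (tc ω)) (M.map (tc ω)) s * Hg (N.map (tc ω)) (N.map (tc ω)) s := by
  rw [← K3_normSq, ← kz_cast ht hn]
  push_cast
  rfl

theorem K3_ks {ω : ℂ} {t n : ℤ} (ht : ω + conj ω = t) (hn : ω * conj ω = n) {r d : ℕ} (b : Bool)
    (M N : Matrix (Fin r) (Fin d) (ℤ × ℤ)) :
    (ks ω t b M N : ℂ) = ∑ s, Hg (M.map (tc ω)) (M.map (tc ω)) s *
      (Hg (N.map (tc ω)) (N.map (tc ω)) s +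
        (sg b : ℂ) * conj (Hg (N.map (tc ω)) (N.map (tc ω)) s)) := by
  have h1 : (N.map (pc t true)).map (tc ω) = (N.map (tc ω)).map conj := by
    rw [map_tc_pc ht]
    rfl
  unfold ks
  push_cast
  rw [K3_kz ht hn, K3_kz ht hn, h1, Finset.mul_sum, ← Finset.sum_add_distrib]
  refine Finset.sum_congr rfl fun s _ => ?_
  rw [K3_Hg_conj]
  ring

/-- the matrix of the standard vectors of `I` -/
noncomputable def K3_E {r d : ℕ} (I : Sb r d) : Matrix (Fin r) (Fin d) (ℤ × ℤ) :=
  fun i c => if i = I.1.orderEmbOfFin I.2 c then (1, 0) else (0, 0)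

theorem K3_E_map (ω : ℂ) {r d : ℕ} (I J : Sb r d) :
    mI ((K3_E I).map (tc ω)) J = if I = J then 1 else 0 := by
  rw [← mI_std]
  congr 1
  ext i c
  rw [Matrix.map_apply, K3_E]
  by_cases h : i = I.1.orderEmbOfFin I.2 c
  · rw [if_pos h, if_pos h]
    simp [tc]
  · rw [if_neg h, if_neg h]
    simp [tc]

theorem K3_Hg_E (ω : ℂ) {r d : ℕ} (I J : Sb r d) :
    Hg ((K3_E I).map (tc ω)) ((K3_E J).map (tc ω)) = Pi.single (I, J) 1 := by
  funext s
  unfold Hg
  rw [K3_E_map, K3_E_map]
  obtain ⟨x, y⟩ := s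
  by_cases h : ((x, y) : Sb r d × Sb r d) = (I, J)
  · rw [h, Pi.single_eq_same]
    simp
  · rw [Pi.single_eq_of_ne h]
    by_cases hx : I = x
    · have hy : J ≠ y := fun hy => h (by rw [hx, hy])
      rw [if_neg hy, mul_zero]
    · rw [if_neg hx, map_zero, zero_mul]

theorem K3_single {X : Type} (inst : DecidableEq X) (inst' : DecidableEq X) (p s : X) :
    @Pi.single X (fun _ => ℚ) _ inst p 1 s = @ite ℚ (s = p) (inst' s p) 1 0 := by
  by_cases h : s = p
  · subst h
    rw [if_pos rfl]
    exact @Pi.single_eq_same X (fun _ => ℚ) _ inst s 1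
  · rw [if_neg h]
    exact @Pi.single_eq_of_ne X (fun _ => ℚ) _ inst _ _ h 1

theorem good_cm {ω : ℂ} {t n : ℤ} (ht : ω + conj ω = t) (hn : ω * conj ω = n) (hω : ω.im ≠ 0)
    (r d : ℕ) (b : Bool) :
    Good (fun M N : PB ω r d => ks ω t b M.1 N.1) (Fin (hw ω b r d)) := by
  have hdne : ω - conj ω ≠ 0 := by
    rw [Complex.sub_conj]
    simp [hω]
  set D : ℤ := 4 * n - t ^ 2 with hD
  have hDc : (ω - conj ω) * (ω - conj ω) = -(D : ℂ) := by
    rw [hD]
    push_cast
    rw [← hn, ← ht]
    ring
  have hD0 : (D : ℂ) ≠ 0 := by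
    intro h
    rw [h, neg_zero] at hDc
    exact hdne (mul_self_eq_zero.1 hDc)
  have hD0z : D ≠ 0 := by
    intro h
    exact hD0 (by rw [h, Int.cast_zero])
  have hD0q : (D : ℚ) ≠ 0 := by exact_mod_cast hD0z
  choose pr hpr using fun N : Matrix (Fin r) (Fin d) (ℤ × ℤ) => K3_mI_mem ht hn N
  have hcast : ∀ x y : ℚ, ((x : ℂ) = y) → x = y := fun x y h => by exact_mod_cast h
  have hsum : ∀ z : ℂ, conj z + z = z + conj z := fun z => add_comm _ _
  cases b with
  | false =>
    let T : PB ω r d → Sb r d × Sb r d → ℚ :=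
      fun N s => ((2 * (pr N.1 s).1 + t * (pr N.1 s).2 : ℤ) : ℚ)
    have hT : ∀ N s, ((T N s : ℚ) : ℂ) = Hg (N.1.map (tc ω)) (N.1.map (tc ω)) s +
        conj (Hg (N.1.map (tc ω)) (N.1.map (tc ω)) s) := by
      intro N s
      rw [← hpr N.1 s, tc_conj ht]
      simp only [T, tc]
      push_cast
      ring
    have hk : ∀ M N : PB ω r d, ((2 * ks ω t false M.1 N.1 : ℤ) : ℚ) = ∑ s, T M s * T N s := by
      intro M N
      apply hcast
      have h1 : (ks ω t false M.1 N.1 : ℂ) =
          ∑ s, Hg (M.1.map (tc ω)) (M.1.map (tc ω)) s * ((T N s : ℚ) : ℂ) := by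
        rw [K3_ks ht hn]
        refine Finset.sum_congr rfl fun s _ => ?_
        rw [hT]
        simp [sg]
      have h2 : (ks ω t false M.1 N.1 : ℂ) =
          ∑ s, conj (Hg (M.1.map (tc ω)) (M.1.map (tc ω)) s) * ((T N s : ℚ) : ℂ) := by
        have h3 := congrArg (starRingEnd ℂ) h1
        rw [map_sum, map_intCast] at h3
        rw [h3]
        refine Finset.sum_congr rfl fun s _ => ?_
        rw [map_mul, map_ratCast]
      have h4 : (2 : ℂ) * (ks ω t false M.1 N.1 : ℂ) = ∑ s, ((T M s : ℚ) : ℂ) * ((T N s : ℚ) : ℂ) := by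
        rw [two_mul]
        conv_lhs => rw [h1]
        rw [← h1]
        conv_lhs => 
          congr
          · rw [h1]
          · rw [h2]
        rw [← Finset.sum_add_distrib]
        refine Finset.sum_congr rfl fun s _ => ?_
        rw [hT M s]
        ring
      push_cast at h4 ⊢
      exact h4
    have hf : Module.finrank ℚ (Submodule.span ℚ (Set.range T)) = hw ω false r d := by
      rw [finrank_sym (X := Sb r d) (Submodule.span ℚ (Set.range T)) ?_ ?_, card_Sb]
      · simp [hw, hω]
      · intro f hf x y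
        induction hf using Submodule.span_induction with
        | mem f hf =>
          obtain ⟨N, rfl⟩ := hf
          apply hcast
          rw [hT, hT, K3_Hg_swap, K3_Hg_swap, add_comm]
        | zero => rfl
        | add f g _ _ hf hg => rw [Pi.add_apply, Pi.add_apply, hf, hg]
        | smul a f _ hf => rw [Pi.smul_apply, Pi.smul_apply, hf]
      · intro x y
        have hcl : ∀ z ∈ HH ω r d, ∃ u ∈ Submodule.span ℚ (Set.range T), ∀ s,
            ((u s : ℚ) : ℂ) = z s + conj (z s) := by
          intro z hz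
          unfold HH at hz
          induction hz using AddSubgroup.closure_induction with
          | mem z hz =>
            obtain ⟨N, rfl⟩ := hz
            exact ⟨T ⟨N, fun h => absurd h hω⟩, Submodule.subset_span ⟨_, rfl⟩, fun s => hT _ s⟩
          | zero => exact ⟨0, zero_mem _, fun s => by simp⟩
          | add z z' _ _ h h' =>
            obtain ⟨u, hu, hu'⟩ := h
            obtain ⟨v, hv, hv'⟩ := h'
            refine ⟨u + v, add_mem hu hv, fun s => ?_⟩
            rw [Pi.add_apply, Pi.add_apply, Rat.cast_add, hu', hv', map_add]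
            ring
          | neg z _ h =>
            obtain ⟨u, hu, hu'⟩ := h
            refine ⟨-u, neg_mem hu, fun s => ?_⟩
            rw [Pi.neg_apply, Pi.neg_apply, Rat.cast_neg, hu', map_neg]
            ring
        have h1 := Hg_mem ht hn Finset.univ (K3_E x) (K3_E y)
          (fun c hc => absurd (Finset.mem_univ c) hc) (1, 0)
        obtain ⟨u, hu, hu'⟩ := hcl _ h1
        rw [K3_Hg_E, K3_Hg_E] at hu'
        have h2 : ∀ w : Sb r d × Sb r d → ℚ, (∀ s, w s = (if s = (x, y) then 1 else 0) +
            (if s = (y, x) then 1 else 0)) → w ∈ Submodule.span ℚ (Set.range T) := by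
          intro w hw
          have h3 : w = (2 * (D : ℚ) ^ (Finset.univ : Finset (Fin d)).card)⁻¹ • u := by
            funext s
            apply hcast
            rw [Pi.smul_apply, smul_eq_mul, Rat.cast_mul, hu' s, hw s]
            simp only [Pi.smul_apply, Pi.add_apply, smul_eq_mul, Pi.single_apply]
            have e1 : tc ω (1, 0) = 1 := by simp [tc]
            have e2 : ((((4 * n - t ^ 2) ^ (Finset.univ : Finset (Fin d)).card : ℤ)) : ℂ) =
                (D : ℂ) ^ (Finset.univ : Finset (Fin d)).card := by rw [hD]; push_cast; rfl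
            rw [e1, e2]
            simp only [map_mul, map_add, map_one, map_pow, map_intCast, one_mul]
            have e3 : ∀ P : Prop, ∀ _ : Decidable P, conj (if P then (1 : ℂ) else 0) =
                if P then 1 else 0 := by
              intro P _
              split_ifs <;> simp
            rw [e3, e3]
            simp only [Rat.cast_add, Rat.cast_mul, Rat.cast_inv, Rat.cast_pow, Rat.cast_intCast,
              Rat.cast_ofNat, apply_ite (Rat.cast : ℚ → ℂ), Rat.cast_one, Rat.cast_zero]
            field_simp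
            ring
          rw [h3]
          exact Submodule.smul_mem _ _ hu
        refine h2 _ fun s => ?_
        rw [Pi.add_apply, K3_single, K3_single]
    rw [← hf]
    exact good_scale 2 (by norm_num) (good_of_vec T hk)
  | true =>
    let T : PB ω r d → Sb r d × Sb r d → ℚ :=
      fun N s => ((D * (pr N.1 s).2 : ℤ) : ℚ)
    have hT : ∀ N s, (ω - conj ω) * ((T N s : ℚ) : ℂ) = D * (Hg (N.1.map (tc ω)) (N.1.map (tc ω)) s -
        conj (Hg (N.1.map (tc ω)) (N.1.map (tc ω)) s)) := by
      intro N s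
      rw [← hpr N.1 s]
      simp only [T, tc, map_add, map_mul, map_intCast]
      push_cast
      ring
    have hk : ∀ M N : PB ω r d, (((-2 * D) * ks ω t true M.1 N.1 : ℤ) : ℚ) =
        ∑ s, T M s * T N s := by
      intro M N
      apply hcast
      have h1 : (D : ℂ) * (ks ω t true M.1 N.1 : ℂ) =
          ∑ s, Hg (M.1.map (tc ω)) (M.1.map (tc ω)) s * ((ω - conj ω) * ((T N s : ℚ) : ℂ)) := by
        rw [K3_ks ht hn, Finset.mul_sum]
        refine Finset.sum_congr rfl fun s _ => ?_
        rw [hT]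
        simp only [sg, if_true]
        push_cast
        ring
      have h2 : (D : ℂ) * (ks ω t true M.1 N.1 : ℂ) =
          ∑ s, conj (Hg (M.1.map (tc ω)) (M.1.map (tc ω)) s) *
            (-(ω - conj ω) * ((T N s : ℚ) : ℂ)) := by
        have h3 := congrArg (starRingEnd ℂ) h1
        rw [map_sum, map_mul, map_intCast, map_intCast] at h3
        rw [h3]
        refine Finset.sum_congr rfl fun s _ => ?_
        rw [map_mul, map_mul, map_ratCast, map_sub, Complex.conj_conj]
        ring
      have h4 : (D : ℂ) * ((D : ℂ) * (ks ω t true M.1 N.1 : ℂ) + (D : ℂ) * (ks ω t true M.1 N.1 : ℂ)) =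
          -(D * ∑ s, ((T M s : ℚ) : ℂ) * ((T N s : ℚ) : ℂ)) := by
        conv_lhs =>
          congr
          · skip
          · congr
            · rw [h1]
            · rw [h2]
        rw [← Finset.sum_add_distrib, Finset.mul_sum, Finset.mul_sum, ← Finset.sum_neg_distrib]
        refine Finset.sum_congr rfl fun s _ => ?_
        have h5 := hT M s
        have h6 : (D : ℂ) * (Hg (M.1.map (tc ω)) (M.1.map (tc ω)) s *
            ((ω - conj ω) * ((T N s : ℚ) : ℂ)) + conj (Hg (M.1.map (tc ω)) (M.1.map (tc ω)) s) *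
            (-(ω - conj ω) * ((T N s : ℚ) : ℂ))) = (D * (Hg (M.1.map (tc ω)) (M.1.map (tc ω)) s -
            conj (Hg (M.1.map (tc ω)) (M.1.map (tc ω)) s))) * ((ω - conj ω) * ((T N s : ℚ) : ℂ)) := by
          ring
        rw [h6, ← h5]
        linear_combination ((T M s : ℚ) : ℂ) * ((T N s : ℚ) : ℂ) * hDc
      have h7 : -(2 * (D : ℂ) * (ks ω t true M.1 N.1 : ℂ)) =
          ∑ s, ((T M s : ℚ) : ℂ) * ((T N s : ℚ) : ℂ) := by
        apply mul_left_cancel₀ hD0
        linear_combination -h4
      push_cast at h7 ⊢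
      rw [← h7]
      ring
    have hf : Module.finrank ℚ (Submodule.span ℚ (Set.range T)) = hw ω true r d := by
      rw [finrank_alt (X := Sb r d) (Submodule.span ℚ (Set.range T)) ?_ ?_, card_Sb]
      · simp [hw, hω]
      · intro f hf x y
        induction hf using Submodule.span_induction with
        | mem f hf =>
          obtain ⟨N, rfl⟩ := hf
          apply hcast
          rw [Rat.cast_neg]
          apply mul_left_cancel₀ hdne
          rw [mul_neg, hT, hT, K3_Hg_swap, K3_Hg_swap]
          ring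
        | zero => simp
        | add f g _ _ hf hg => rw [Pi.add_apply, Pi.add_apply, hf, hg]; ring
        | smul a f _ hf => rw [Pi.smul_apply, Pi.smul_apply, hf, smul_neg]
      · intro x y
        have hcl : ∀ z ∈ HH ω r d, ∃ u ∈ Submodule.span ℚ (Set.range T), ∀ s,
            (ω - conj ω) * ((u s : ℚ) : ℂ) = D * (z s - conj (z s)) := by
          intro z hz
          unfold HH at hz
          induction hz using AddSubgroup.closure_induction with
          | mem z hz =>
            obtain ⟨N, rfl⟩ := hz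
            exact ⟨T ⟨N, fun h => absurd h hω⟩, Submodule.subset_span ⟨_, rfl⟩, fun s => hT _ s⟩
          | zero => exact ⟨0, zero_mem _, fun s => by simp⟩
          | add z z' _ _ h h' =>
            obtain ⟨u, hu, hu'⟩ := h
            obtain ⟨v, hv, hv'⟩ := h'
            refine ⟨u + v, add_mem hu hv, fun s => ?_⟩
            rw [Pi.add_apply, Pi.add_apply, Rat.cast_add, mul_add, hu', hv', map_add]
            ring
          | neg z _ h =>
            obtain ⟨u, hu, hu'⟩ := h
            refine ⟨-u, neg_mem hu, fun s => ?_⟩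
            rw [Pi.neg_apply, Pi.neg_apply, Rat.cast_neg, mul_neg, hu', map_neg]
            ring
        have h1 := Hg_mem ht hn Finset.univ (K3_E x) (K3_E y)
          (fun c hc => absurd (Finset.mem_univ c) hc) (0, 1)
        obtain ⟨u, hu, hu'⟩ := hcl _ h1
        rw [K3_Hg_E, K3_Hg_E] at hu'
        have h2 : ∀ w : Sb r d × Sb r d → ℚ, (∀ s, w s = (if s = (x, y) then 1 else 0) -
            (if s = (y, x) then 1 else 0)) → w ∈ Submodule.span ℚ (Set.range T) := by
          intro w hw
          have h3 : w = ((D : ℚ) * (D : ℚ) ^ (Finset.univ : Finset (Fin d)).card)⁻¹ • u := by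
            funext s
            apply hcast
            apply mul_left_cancel₀ hdne
            rw [Pi.smul_apply, smul_eq_mul, Rat.cast_mul, mul_left_comm, hu' s, hw s]
            simp only [Pi.smul_apply, Pi.add_apply, smul_eq_mul, Pi.single_apply]
            have e1 : tc ω (0, 1) = ω := by simp [tc]
            have e2 : ((((4 * n - t ^ 2) ^ (Finset.univ : Finset (Fin d)).card : ℤ)) : ℂ) =
                (D : ℂ) ^ (Finset.univ : Finset (Fin d)).card := by rw [hD]; push_cast; rfl
            rw [e1, e2]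
            simp only [map_mul, map_add, map_one, map_pow, map_intCast, Complex.conj_conj]
            have e3 : ∀ P : Prop, ∀ _ : Decidable P, conj (if P then (1 : ℂ) else 0) =
                if P then 1 else 0 := by
              intro P _
              split_ifs <;> simp
            rw [e3, e3]
            simp only [Rat.cast_sub, Rat.cast_mul, Rat.cast_inv, Rat.cast_pow, Rat.cast_intCast,
              Rat.cast_ofNat, apply_ite (Rat.cast : ℚ → ℂ), Rat.cast_one, Rat.cast_zero]
            field_simp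
            ring
          rw [h3]
          exact Submodule.smul_mem _ _ hu
        refine h2 _ fun s => ?_
        rw [Pi.sub_apply, K3_single, K3_single]
    rw [← hf]
    exact good_scale (-2 * D) (mul_ne_zero (by norm_num) hD0z) (good_of_vec T hk)

end Pool.Agent.LibEX75
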