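import Pool.Agent.LibEX75.K0
import Pool.Agent.LibEX75.N1
import Pool.Agent.LibEX75.G2

/-!
[EX75 K4] Gram systems of the kernels `ks` for `ω = 0` (SHORT). Then `tc 0 p = p.1`, and for the matrices of `PB 0 r d`
(second components zero) `pc 0 b` is the identity, so `ks 0 0 false M N = 2 * kz 0 M N = 2 * det ^ 2` for the integral
matrices of the first components, and `ks 0 0 true M N = 0`. `good_nu` (N1), `good_trans` (G1) with `f N = N.map Prod.fst`,
`g N = N.map (·, 0)`; the factor `2`: `Good k → Good (2 * k)` is immediate from the definition (or use `N`, `m`); for `b = true`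
`hw = 0` and everything is zero.
-/

open Pool.Agent.LibER34 Pool.Agent.LibEQ34
open scoped Classical ComplexConjugate

namespace Pool.Agent.LibEX75

theorem good_two {P : Type} {k : P → P → ℤ} {ι : Type} [Fintype ι] (h : Good k ι) :
    Good (fun p q => 2 * k p q) ι := by
  obtain ⟨p, N, a, hN, ha, hx⟩ := h
  refine ⟨p, 2 * N, a, mul_ne_zero two_ne_zero hN, fun i i' => ?_, fun x => ?_⟩
  · have h1 : ∀ t, a i t * (2 * k (p i') (p t)) = 2 * (a i t * k (p i') (p t)) := fun t => by ring
    rw [Finset.sum_congr rfl fun t _ => h1 t, ← Finset.mul_sum, ha]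
    by_cases hi : i = i'
    · rw [if_pos hi, if_pos hi]
    · rw [if_neg hi, if_neg hi, mul_zero]
  · obtain ⟨m, b, hm, hb⟩ := hx x
    refine ⟨m, b, hm, fun q => ?_⟩
    have h1 : m * (2 * k q x) = 2 * (m * k q x) := by ring
    rw [h1, hb q, Finset.mul_sum]
    exact Finset.sum_congr rfl fun t _ => by ring

theorem kz_zero {r d : ℕ} (M N : Matrix (Fin r) (Fin d) (ℤ × ℤ)) :
    kz 0 M N = ((M.map Prod.fst).transpose * N.map Prod.fst).det ^ 2 := by
  have hm : ∀ A : Matrix (Fin r) (Fin d) (ℤ × ℤ),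
      A.map (tc 0) = (A.map Prod.fst).map (Int.castRingHom ℂ) := by
    intro A
    ext i a
    change tc 0 (A i a) = (((A i a).1 : ℤ) : ℂ)
    unfold tc
    rw [mul_zero, add_zero]
  have h1 : ((M.map (tc 0)).transpose * N.map (tc 0)).det =
      ((((M.map Prod.fst).transpose * N.map Prod.fst).det : ℤ) : ℂ) := by
    rw [hm, hm, ← Matrix.transpose_map, ← Matrix.map_mul]
    exact (RingHom.map_det (Int.castRingHom ℂ) _).symm
  unfold kz
  rw [h1, Complex.normSq_intCast]
  have h2 : ((((M.map Prod.fst).transpose * N.map Prod.fst).det : ℤ) : ℝ) *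
      ((((M.map Prod.fst).transpose * N.map Prod.fst).det : ℤ) : ℝ) =
      ((((M.map Prod.fst).transpose * N.map Prod.fst).det ^ 2 : ℤ) : ℝ) := by
    push_cast
    ring
  rw [h2, Int.floor_intCast]

theorem ks_zero {r d : ℕ} (b : Bool) (M N : Matrix (Fin r) (Fin d) (ℤ × ℤ)) :
    ks 0 0 b M N =
      (1 + sg b) * ((M.map Prod.fst).transpose * N.map Prod.fst).det ^ 2 := by
  have h1 : (N.map (pc 0 true)).map Prod.fst = N.map Prod.fst := by
    ext i a
    change (N i a).1 + 0 * (N i a).2 = (N i a).1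
    rw [zero_mul, add_zero]
  rw [ks, kz_zero, kz_zero, h1]
  ring

theorem good_zero (r d : ℕ) (b : Bool) :
    Good (fun M N : PB 0 r d => ks 0 0 b M.1 N.1) (Fin (hw 0 b r d)) := by
  cases b
  · have h0 : hw 0 false r d = nu r d := by
      rw [hw, if_pos Complex.zero_im, if_neg Bool.false_ne_true]
    rw [h0]
    refine good_trans (k' := fun M N : Matrix (Fin r) (Fin d) ℤ =>
      2 * (M.transpose * N).det ^ 2) (fun M => M.1.map Prod.fst)
      (fun N => ⟨N.map fun x => (x, 0), fun _ i a => rfl⟩) (fun N => ?_) (fun M N => ?_)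
      (good_two (good_nu r d))
    · ext i a
      rfl
    · rw [ks_zero]
      rfl
  · have h0 : hw 0 true r d = 0 := by
      rw [hw, if_pos Complex.zero_im, if_pos rfl]
    rw [h0]
    have hz : ∀ M N : Matrix (Fin r) (Fin d) (ℤ × ℤ), ks 0 0 true M N = 0 := by
      intro M N
      rw [ks_zero]
      have h1 : (1 + sg true : ℤ) = 0 := by
        rw [sg, if_pos rfl]
        norm_num
      rw [h1, zero_mul]
    refine ⟨fun i => i.elim0, 1, fun i => i.elim0, one_ne_zero, fun i => i.elim0,
      fun x => ⟨1, fun i => i.elim0, one_ne_zero, fun q => ?_⟩⟩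
    change 1 * ks 0 0 true q.1 x.1 = _
    rw [hz, mul_zero]
    exact (Finset.sum_eq_zero fun i _ => i.elim0).symm

end Pool.Agent.LibEX75
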