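import Pool.Agent.LibEX75.B2
import Pool.Agent.LibEX75.K3
import Pool.Agent.LibEX75.K4

/-!
[EX75 B3] `good_one`: `good_cm` or `good_zero` according to `(c.ω _).im` (`c.trace`, `c.norm`, `c.real`: then `ω = 0`, so `t = 0`: rewrite
`c.ω _ = 0`, `c.t _ = 0`, generalise first). `mat_iff`: `prd E μ a ≠ prd E κ i ↔ μ a ≠ κ i` by `inj`.
-/

open WeierstrassCurve Pool.Agent.LibBH2 Pool.Agent.LibIG50 Pool.Agent.LibCHd Pool.Agent.LibGG
  Pool.Agent.LibAC34 Pool.Agent.LibAF11 Pool.Agent.LibER34 Pool.Agent.LibEQ34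
open scoped Classical ComplexConjugate

namespace Pool.Agent.LibEX75

variable {K : Type} [Field K] [Algebra K Qb] {n r D : ℕ}

theorem good_one (c : CM) (E : WeierstrassCurve Qb) (r d : ℕ) (b : Bool) :
    Good (fun M N : PB (c.ω E) r d => ks (c.ω E) (c.t E) b M.1 N.1) (Fin (hw (c.ω E) b r d)) := by
  by_cases h : (c.ω E).im = 0
  · have h1 := (c.real E h).1
    have h2 : c.t E = 0 := by
      have h3 := c.trace E
      rw [h1, map_zero, add_zero] at h3
      exact_mod_cast h3.symm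
    rw [h2]
    clear h h2
    generalize c.ω E = w at h1
    subst h1
    exact good_zero r d b
  · exact good_cm (c.trace E) (c.norm E) h r d b

/-- `MatC` in terms of the colours -/
theorem mat_iff {c : CM} {E : Fin n → WeierstrassCurve K}
    (inj : ∀ i j, (E i)⁄Qb = (E j)⁄Qb → i = j) {κ : Fin r → Fin n} {μ : Fin D → Fin n}
    {N : Matrix (Fin r) (Fin D) (ℤ × ℤ)} : MatC c (prd E μ) (prd E κ) N ↔
      Blk κ μ N ∧ ∀ i a, (c.ω (prd E κ i)).im = 0 → (N i a).2 = 0 := by
  constructor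
  · intro h
    exact ⟨fun x a hne => (h x a).1 fun h1 => hne (inj _ _ h1), fun i a => (h i a).2⟩
  · rintro ⟨h1, h2⟩ i a
    exact ⟨fun hne => h1 i a fun h3 => hne (congrArg (fun j => (E j)⁄Qb) h3), h2 i a⟩

end Pool.Agent.LibEX75
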