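import Pool.Agent.LibEX75.B3

/-!
[EX75 B4] the Gram system of the product of the kernels of the colours `l ≠ j`. `good_pi` (G1) over `J = {l // l ≠ j}` for the blocks (`good_one`),
`good_trans` with `f N = fun l => ⟨blk κ μ l N, _⟩` and `g B = ⟨glue κ μ (fun l => if h : l = j then 0 else B ⟨l, h⟩), _⟩` (`blk_glue`, `glue_prop`, `Blk_glue`, `mat_iff`),
the product over `{l // l ≠ j}` is the product over `Finset.univ.erase j` (`Finset.prod_subtype`), and `good_equiv` with the cardinal of `∀ l : {l // l ≠ j}, Fin _`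
(`Fintype.card_pi`, `Fintype.equivFinOfCardEq`). The kernel is `fS j T M N` with the test `M` as the second argument of `Good`: `fun N M => fS .. M.1 N.1`, and
`fS .. M N = ∏ ks (blk l N) (blk l M)` (definition).
-/

open WeierstrassCurve Pool.Agent.LibBH2 Pool.Agent.LibIG50 Pool.Agent.LibCHd Pool.Agent.LibGG
  Pool.Agent.LibAC34 Pool.Agent.LibAF11 Pool.Agent.LibER34 Pool.Agent.LibEQ34
open scoped Classical ComplexConjugate

namespace Pool.Agent.LibEX75

variable {K : Type} [Field K] [Algebra K Qb] {n r D : ℕ}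

/-- the blocks of a homomorphism are matrices over the orders -/
private theorem B4_real {c : CM} {E : Fin n → WeierstrassCurve K}
    (inj : ∀ i j, (E i)⁄Qb = (E j)⁄Qb → i = j) {κ : Fin r → Fin n} {μ : Fin D → Fin n}
    (N : PT c E κ μ) (l : Fin n) (h : (c.ω ((E l)⁄Qb)).im = 0) (x : Fin (num κ l))
    (a : Fin (num μ l)) : (blk κ μ l N.1 x a).2 = 0 := by
  refine ((mat_iff inj).1 N.2).2 (ix κ l x).1 (ix μ l a).1 ?_
  change (c.ω ((E (κ (ix κ l x).1))⁄Qb)).im = 0
  rw [(ix κ l x).2]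
  exact h

/-- the homomorphism with given blocks of the colours `l ≠ j` -/
private theorem B4_glue {c : CM} {E : Fin n → WeierstrassCurve K}
    (inj : ∀ i j, (E i)⁄Qb = (E j)⁄Qb → i = j) (κ : Fin r → Fin n) (μ : Fin D → Fin n) (j : Fin n)
    (B : ∀ l : {l : Fin n // l ≠ j}, PB (c.ω ((E l.1)⁄Qb)) (num κ l.1) (num μ l.1)) :
    MatC c (prd E μ) (prd E κ)
      (glue κ μ fun l => if h : l ≠ j then (B ⟨l, h⟩).1 else 0) := by
  refine (mat_iff inj).2 ⟨Blk_glue _, fun i a => ?_⟩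
  refine glue_prop (κ := κ) (μ := μ) (fun l => if h : l ≠ j then (B ⟨l, h⟩).1 else 0)
    (fun l z => (c.ω ((E l)⁄Qb)).im = 0 → z.2 = 0) (fun l _ => rfl) (fun l x a h0 => ?_) i a
  by_cases h : l ≠ j
  · have h1 : (if h : l ≠ j then (B ⟨l, h⟩).1 else
        (0 : Matrix (Fin (num κ l)) (Fin (num μ l)) (ℤ × ℤ))) = (B ⟨l, h⟩).1 := dif_pos h
    rw [h1]
    exact (B ⟨l, h⟩).2 h0 x a
  · have h1 : (if h : l ≠ j then (B ⟨l, h⟩).1 else 0) =
        (0 : Matrix (Fin (num κ l)) (Fin (num μ l)) (ℤ × ℤ)) := dif_neg h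
    rw [h1]
    rfl

/-- the finiteness of the index set is a property -/
private theorem B4_inst {P : Type} {k : P → P → ℤ} {ι : Type} (I J : Fintype ι)
    (h : @Good P k ι I) : @Good P k ι J := by
  rw [Subsingleton.elim J I]
  exact h

theorem good_fS (c : CM) (E : Fin n → WeierstrassCurve K)
    (inj : ∀ i j, (E i)⁄Qb = (E j)⁄Qb → i = j) (κ : Fin r → Fin n) (μ : Fin D → Fin n)
    (j : Fin n) (T : Finset (Fin n)) :
    Good (fun N M : PT c E κ μ => fS c E κ μ j T M.1 N.1)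
      (Fin (∏ l ∈ Finset.univ.erase j,
        hw (c.ω ((E l)⁄Qb)) (decide (l ∈ T)) (num κ l) (num μ l))) := by
  have hmem : ∀ l : Fin n, l ∈ Finset.univ.erase j ↔ l ≠ j := fun l => by
    rw [Finset.mem_erase]
    exact ⟨fun h => h.1, fun h => ⟨h, Finset.mem_univ _⟩⟩
  have h1 : ∀ l : {l : Fin n // l ≠ j},
      Good (fun M N : PB (c.ω ((E l.1)⁄Qb)) (num κ l.1) (num μ l.1) =>
        ks (c.ω ((E l.1)⁄Qb)) (c.t ((E l.1)⁄Qb)) (decide (l.1 ∈ T)) M.1 N.1)
        (Fin (hw (c.ω ((E l.1)⁄Qb)) (decide (l.1 ∈ T)) (num κ l.1) (num μ l.1))) :=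
    fun l => good_one c ((E l.1)⁄Qb) _ _ _
  have h2 := B4_inst _ inferInstance (good_pi h1)
  have h3 : Good (fun N M : PT c E κ μ => fS c E κ μ j T M.1 N.1)
      (∀ l : {l : Fin n // l ≠ j},
        Fin (hw (c.ω ((E l.1)⁄Qb)) (decide (l.1 ∈ T)) (num κ l.1) (num μ l.1))) := by
    refine good_trans
      (fun N l => ⟨blk κ μ l.1 N.1, fun h x a => B4_real inj N l.1 h x a⟩)
      (fun B => ⟨_, B4_glue inj κ μ j B⟩) (fun B => ?_) (fun N M => ?_) h2
    · funext l
      refine Subtype.ext ?_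
      change blk κ μ l.1 (glue κ μ fun l => if h : l ≠ j then (B ⟨l, h⟩).1 else 0) = (B l).1
      rw [blk_glue]
      exact dif_pos l.2
    · exact Finset.prod_subtype (Finset.univ.erase j) hmem
        (fun l => ks (c.ω ((E l)⁄Qb)) (c.t ((E l)⁄Qb)) (decide (l ∈ T))
          (blk κ μ l N.1) (blk κ μ l M.1))
  refine good_equiv (Fintype.equivFinOfCardEq ?_) h3
  rw [Fintype.card_pi]
  simp_rw [Fintype.card_fin]
  exact (Finset.prod_subtype (Finset.univ.erase j) hmem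
    (fun l => hw (c.ω ((E l)⁄Qb)) (decide (l ∈ T)) (num κ l) (num μ l))).symm

end Pool.Agent.LibEX75
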