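import Pool.Agent.LibEQ34.CDefs
import Pool.Agent.LibER34.Tst

/-!
Kernels, blocks, tests and elements: definitions.
-/

open WeierstrassCurve Pool.Agent.LibBH2 Pool.Agent.LibIG50 Pool.Agent.LibCHd Pool.Agent.LibGG
  Pool.Agent.LibAC34 Pool.Agent.LibAF11 Pool.Agent.LibER34 Pool.Agent.LibEQ34
open scoped Classical ComplexConjugate

namespace Pool.Agent.LibEX75

/-! ### Gram systems -/

/-- A Gram system for the integral kernel `k`: points `p i`, whose Gram matrix is invertible over the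
rational numbers (`a` is its inverse, multiplied by `N`), such that every function `k (·, x)` is a
rational combination of the functions `k (·, p i)`. -/
def Good {P : Type} (k : P → P → ℤ) (ι : Type) [Fintype ι] : Prop :=
  ∃ (p : ι → P) (N : ℤ) (a : ι → ι → ℤ), N ≠ 0 ∧
    (∀ i i', ∑ t, a i t * k (p i') (p t) = if i = i' then N else 0) ∧
    ∀ x, ∃ (m : ℤ) (c : ι → ℤ), m ≠ 0 ∧ ∀ q, m * k q x = ∑ i, c i * k q (p i)

/-! ### the kernels of one curve -/

/-- `C(r, d) C(r, d + 1) - C(r, d - 1) C(r, d + 2)`, where `C(r, d - 1) = C(r, r + 1 - d)` -/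
def mu (r d : ℕ) : ℕ := r.choose d * r.choose (d + 1) - r.choose (r + 1 - d) * r.choose (d + 2)

/-- `C(r, d) ^ 2 - C(r, d - 1) C(r, d + 1)`, where `C(r, d - 1) = C(r, r + 1 - d)` -/
def nu (r d : ℕ) : ℕ := r.choose d * r.choose d - r.choose (r + 1 - d) * r.choose (d + 1)

/-- the rank of the kernel `ks` for the complex number `ω` -/
noncomputable def hw (ω : ℂ) (b : Bool) (r d : ℕ) : ℕ :=
  if ω.im = 0 then (if b then 0 else nu r d)
  else (if b then (r.choose d).choose 2 else (r.choose d + 1).choose 2)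

/-- the rank for the curve of the points -/
noncomputable def bw (ω : ℂ) (r d : ℕ) : ℕ :=
  if ω.im = 0 then mu r d else r.choose d * r.choose (d + 1)

section kernels

variable {r d : ℕ}

/-- the matrices over the order -/
abbrev PB (ω : ℂ) (r d : ℕ) : Type :=
  {N : Matrix (Fin r) (Fin d) (ℤ × ℤ) // ω.im = 0 → ∀ i a, (N i a).2 = 0}

/-- the integer `|det (Mᵀ N)| ^ 2` -/
noncomputable def kz (ω : ℂ) (M N : Matrix (Fin r) (Fin d) (ℤ × ℤ)) : ℤ :=
  ⌊Complex.normSq (((M.map (tc ω)).transpose * N.map (tc ω)).det)⌋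

/-- the symmetric (`b = false`) and antisymmetric (`b = true`) part -/
noncomputable def ks (ω : ℂ) (t : ℤ) (b : Bool) (M N : Matrix (Fin r) (Fin d) (ℤ × ℤ)) : ℤ :=
  kz ω M N + sg b * kz ω M (N.map (pc t true))

end kernels

/-! ### blocks -/

section blocks

variable {n r D : ℕ} {R : Type}

/-- the indices of the colour `j` -/
noncomputable def ix {m : ℕ} (κ : Fin m → Fin n) (j : Fin n) : Fin (num κ j) ≃ {x // κ x = j} :=
  Fintype.equivOfCardEq (by
    rw [Fintype.card_fin, Fintype.card_subtype, num])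

/-- the entries of `N` between different colours are zero -/
def Blk [Zero R] (κ : Fin r → Fin n) (μ : Fin D → Fin n) (N : Matrix (Fin r) (Fin D) R) : Prop :=
  ∀ x a, μ a ≠ κ x → N x a = 0

/-- the vector `w` is zero outside the colour `i` -/
def Sup [Zero R] (κ : Fin r → Fin n) (i : Fin n) (w : Fin r → R) : Prop := ∀ x, κ x ≠ i → w x = 0

/-- the block of the colour `j` of a matrix -/
noncomputable def blk (κ : Fin r → Fin n) (μ : Fin D → Fin n) (j : Fin n)
    (N : Matrix (Fin r) (Fin D) R) : Matrix (Fin (num κ j)) (Fin (num μ j)) R :=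
  fun x a => N (ix κ j x).1 (ix μ j a).1

/-- the part of the colour `j` of a vector -/
noncomputable def vbl (κ : Fin r → Fin n) (j : Fin n) (w : Fin r → R) : Fin (num κ j) → R :=
  fun x => w (ix κ j x).1

/-- the matrix with given blocks -/
noncomputable def glue [Zero R] (κ : Fin r → Fin n) (μ : Fin D → Fin n)
    (B : ∀ j, Matrix (Fin (num κ j)) (Fin (num μ j)) R) : Matrix (Fin r) (Fin D) R :=
  fun x a => if h : μ a = κ x then B (κ x) ((ix κ (κ x)).symm ⟨x, rfl⟩) ((ix μ (κ x)).symm ⟨a, h⟩)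
    else 0

/-- the matrix and vector with the block `p` of the colour `j` and the other blocks of `M` -/
noncomputable def ins [Zero R] (κ : Fin r → Fin n) (μ : Fin D → Fin n) (j : Fin n)
    (M : Matrix (Fin r) (Fin D) R)
    (p : Matrix (Fin (num κ j)) (Fin (num μ j)) R × (Fin (num κ j) → R)) :
    Matrix (Fin r) (Fin D) R × (Fin r → R) :=
  (fun x a => if h : κ x = j ∧ μ a = j then p.1 ((ix κ j).symm ⟨x, h.1⟩) ((ix μ j).symm ⟨a, h.2⟩)
    else M x a, fun x => if h : κ x = j then p.2 ((ix κ j).symm ⟨x, h⟩) else 0)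

end blocks

/-! ### tests -/

variable {K : Type} [Field K] [Algebra K Qb] {n r D : ℕ}

section tests

variable (c : CM) (E : Fin n → WeierstrassCurve K) (κ : Fin r → Fin n) (μ : Fin D → Fin n)

/-- the matrices which are homomorphisms -/
abbrev PT : Type := {N : Matrix (Fin r) (Fin D) (ℤ × ℤ) // MatC c (prd E μ) (prd E κ) N}

/-- the product of the kernels of the colours `l ≠ j` -/
noncomputable def fO (j : Fin n) (M N : Matrix (Fin r) (Fin D) (ℤ × ℤ)) : ℤ :=
  ∏ l ∈ Finset.univ.erase j, kz (c.ω ((E l)⁄Qb)) (blk κ μ l N) (blk κ μ l M)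

/-- the product of the antisymmetric kernels for `l ∈ T` and of the symmetric ones for the others -/
noncomputable def fS (j : Fin n) (T : Finset (Fin n)) (M N : Matrix (Fin r) (Fin D) (ℤ × ℤ)) : ℤ :=
  ∏ l ∈ Finset.univ.erase j, ks (c.ω ((E l)⁄Qb)) (c.t ((E l)⁄Qb)) (decide (l ∈ T))
    (blk κ μ l N) (blk κ μ l M)

/-- the components of the colour `j` of a point -/
noncomputable def vpt (j : Fin n) (g : Pts (prd E κ)) :
    Pts (fun _ : Fin (num κ j) => (E j)⁄Qb) :=
  fun x => trk (prd E κ (ix κ j x).1) ((E j)⁄Qb) (g (ix κ j x).1)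

/-- the block of the colour `j`, with the multiplicity `f N` -/
noncomputable def qj (j : Fin n) (f : Matrix (Fin r) (Fin D) (ℤ × ℤ) → ℤ) :
    (PM E κ D →₀ ℤ) →+ (PC ((E j)⁄Qb) (num κ j) (num μ j) →₀ ℤ) :=
  Finsupp.liftAddHom fun p => (Finsupp.singleAddHom (blk κ μ j p.1, vpt E κ j p.2)).comp
    (AddMonoidHom.mulLeft (f p.1))

/-- the test -/
noncomputable def tT (j : Fin n) (f : Matrix (Fin r) (Fin D) (ℤ × ℤ) → ℤ)
    (s : Sb (num κ j) (num μ j) × Sb (num κ j) (num μ j + 1)) :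
    (PM E κ D →₀ ℤ) →+ ((E j)⁄Qb).toAffine.Point :=
  (tS c ((E j)⁄Qb) s).comp (qj E κ μ j f)

end tests

/-! ### elements -/

section elements

variable (c : CM) (E : Fin n → WeierstrassCurve K) (κ : Fin r → Fin n) (μ : Fin D → Fin n)

/-- the conjugation of the colours `l` with `δ l` -/
noncomputable def cS (δ : Fin n → Bool)
    (p : Matrix (Fin r) (Fin D) (ℤ × ℤ) × (Fin r → ℤ × ℤ)) :
    Matrix (Fin r) (Fin D) (ℤ × ℤ) × (Fin r → ℤ × ℤ) :=
  (cjm c E κ δ p.1, fun i => pc (c.t ((E (κ i))⁄Qb)) (δ (κ i)) (p.2 i))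

/-- the point `v y` -/
noncomputable def vy (j : Fin n) (v : Fin r → ℤ × ℤ) (y : ((E j)⁄Qb).toAffine.Point) :
    Pts (prd E κ) :=
  fun i => trk ((E j)⁄Qb) (prd E κ i) (smk (c.w ((E j)⁄Qb)) (v i) y)

/-- the difference of the translates by `v y` and `- v y` -/
noncomputable def dy (j : Fin n) (y : ((E j)⁄Qb).toAffine.Point)
    (p : Matrix (Fin r) (Fin D) (ℤ × ℤ) × (Fin r → ℤ × ℤ)) : PM E κ D →₀ ℤ :=
  Finsupp.single (p.1, vy c E κ j p.2 y) 1 - Finsupp.single (p.1, vy c E κ j p.2 (-y)) 1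

/-- the combination with the signs given by `T` of the conjugates -/
noncomputable def elt (j : Fin n) (T : Finset (Fin n)) (M : Matrix (Fin r) (Fin D) (ℤ × ℤ))
    (y : ((E j)⁄Qb).toAffine.Point)
    (x : (Matrix (Fin (num κ j)) (Fin (num μ j)) (ℤ × ℤ) × (Fin (num κ j) → ℤ × ℤ)) →₀ ℤ) :
    PM E κ D →₀ ℤ :=
  ∑ δ : Fin n → Bool, (∏ l ∈ T, sg (δ l)) •
    ∑ p ∈ x.support, x p • dy c E κ j y (cS c E κ δ (ins κ μ j M p))

end elements

/-! ### parts and scalings -/

section parts

variable (E : Fin n → WeierstrassCurve K) (κ : Fin r → Fin n)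

/-- the component of the colour `j` of the point -/
noncomputable def prt (j : Fin n) (p : PM E κ D) : PM E κ D :=
  (p.1, fun i => if κ i = j then p.2 i else 0)

/-- multiplication by `m l` on the curves `E l` -/
noncomputable def scl (m : Fin n → ℤ) (p : PM E κ D) : PM E κ D :=
  (fun i a => m (κ i) • p.1 i a, fun i => m (κ i) • p.2 i)

end parts

end Pool.Agent.LibEX75
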