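import Pool.Agent.LibEX75.B1
import Pool.Agent.LibEX75.B3

/-!
[EX75 C1] the numbers of the theorem on cycles of all dimensions in terms of the blocks.
-/

open WeierstrassCurve Pool.Agent.LibBH2 Pool.Agent.LibIG50 Pool.Agent.LibCHd Pool.Agent.LibGG
  Pool.Agent.LibAC34 Pool.Agent.LibAF11 Pool.Agent.LibER34 Pool.Agent.LibEQ34
open scoped Classical ComplexConjugate

namespace Pool.Agent.LibEX75

variable {K : Type} [Field K] [Algebra K Qb] {n r D : ℕ}

theorem blk_cx (c : CM) (E : Fin n → WeierstrassCurve K) (κ : Fin r → Fin n) (μ : Fin D → Fin n)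
    (l : Fin n) (N : Matrix (Fin r) (Fin D) (ℤ × ℤ)) :
    blk κ μ l (cx c (prd E κ) N) = (blk κ μ l N).map (tc (c.ω ((E l)⁄Qb))) := by
  ext x a
  show tc (c.ω ((E (κ (ix κ l x).1))⁄Qb)) (N (ix κ l x).1 (ix μ l a).1) =
    tc (c.ω ((E l)⁄Qb)) (N (ix κ l x).1 (ix μ l a).1)
  rw [(ix κ l x).2]

theorem C1_blk {c : CM} {E : Fin n → WeierstrassCurve K}
    (inj : ∀ i j, (E i)⁄Qb = (E j)⁄Qb → i = j) {κ : Fin r → Fin n} {μ : Fin D → Fin n}
    {N : Matrix (Fin r) (Fin D) (ℤ × ℤ)} (hN : MatC c (prd E μ) (prd E κ) N) :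
    Blk κ μ (cx c (prd E κ) N) := by
  intro x a h
  have h1 : N x a = 0 := ((mat_iff inj).1 hN).1 x a h
  show ((N x a).1 : ℂ) + (N x a).2 * _ = 0
  rw [h1]
  simp

theorem C1_kz (c : CM) (E : Fin n → WeierstrassCurve K) (κ : Fin r → Fin n) (μ : Fin D → Fin n)
    (l : Fin n) (M N : Matrix (Fin r) (Fin D) (ℤ × ℤ)) :
    Complex.normSq ((blk κ μ l (cx c (prd E κ) M)).transpose *
      blk κ μ l (cx c (prd E κ) N)).det =
        ((kz (c.ω ((E l)⁄Qb)) (blk κ μ l N) (blk κ μ l M) : ℤ) : ℝ) := by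
  rw [blk_cx, blk_cx, kz_symm, kz_cast (c.trace _) (c.norm _)]

theorem num0 {c : CM} {E : Fin n → WeierstrassCurve K}
    (inj : ∀ i j, (E i)⁄Qb = (E j)⁄Qb → i = j) {κ : Fin r → Fin n} {μ : Fin D → Fin n}
    {M N : Matrix (Fin r) (Fin D) (ℤ × ℤ)} (hM : MatC c (prd E μ) (prd E κ) M)
    (hN : MatC c (prd E μ) (prd E κ) N) :
    Complex.normSq ((cx c (prd E κ) M).transpose * cx c (prd E κ) N).det =
      ((∏ l, kz (c.ω ((E l)⁄Qb)) (blk κ μ l N) (blk κ μ l M) : ℤ) : ℝ) := by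
  rw [det_blk (C1_blk inj hM) (C1_blk inj hN), map_prod, Int.cast_prod]
  exact Finset.prod_congr rfl fun l _ => C1_kz c E κ μ l M N

theorem num1 {c : CM} {E : Fin n → WeierstrassCurve K}
    (inj : ∀ i j, (E i)⁄Qb = (E j)⁄Qb → i = j) {κ : Fin r → Fin n} {μ : Fin D → Fin n}
    {M N : Matrix (Fin r) (Fin D) (ℤ × ℤ)} (hM : MatC c (prd E μ) (prd E κ) M)
    (hN : MatC c (prd E μ) (prd E κ) N) {j : Fin n} {z v : Fin r → ℂ} (hz : Sup κ j z)
    (hv : Sup κ j v) :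
    conj ((cx c (prd E κ) M).transpose * cx c (prd E κ) N).det *
      ((Matrix.fromCols (cx c (prd E κ) M) (Matrix.replicateCol Unit z)).transpose *
        Matrix.fromCols (cx c (prd E κ) N) (Matrix.replicateCol Unit v)).det =
      (fO c E κ μ j M N : ℂ) * ∑ s, Xv ((blk κ μ j M).map (tc (c.ω ((E j)⁄Qb)))) (vbl κ j z) s *
        Xv ((blk κ μ j N).map (tc (c.ω ((E j)⁄Qb)))) (vbl κ j v) s := by
  have h1 := det_blk (C1_blk inj hM) (C1_blk inj hN)
  have h2 := det_bd (C1_blk inj hM) (C1_blk inj hN) hz hv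
  have h3 : ((fO c E κ μ j M N : ℤ) : ℂ) = ∏ l ∈ Finset.univ.erase j,
      (conj ((blk κ μ l (cx c (prd E κ) M)).transpose * blk κ μ l (cx c (prd E κ) N)).det *
        ((blk κ μ l (cx c (prd E κ) M)).transpose * blk κ μ l (cx c (prd E κ) N)).det) := by
    unfold fO
    rw [Int.cast_prod]
    refine Finset.prod_congr rfl fun l _ => ?_
    rw [← Complex.normSq_eq_conj_mul_self, C1_kz, Complex.ofReal_intCast]
  rw [h3, Finset.prod_mul_distrib, h1, ← Finset.mul_prod_erase Finset.univ _ (Finset.mem_univ j),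
    map_mul, map_prod]
  have h4 := num_eq (blk κ μ j (cx c (prd E κ) M)) (blk κ μ j (cx c (prd E κ) N)) (vbl κ j z)
    (vbl κ j v)
  rw [← blk_cx, ← blk_cx, ← h4]
  unfold bdm at h2
  rw [h2]
  ring

end Pool.Agent.LibEX75
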