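import Pool.Agent.LibEX75.BD

/-!
[EX75 C2] rules for the tests (elementary).
-/

open WeierstrassCurve Pool.Agent.LibBH2 Pool.Agent.LibIG50 Pool.Agent.LibCHd Pool.Agent.LibGG
  Pool.Agent.LibAC34 Pool.Agent.LibAF11 Pool.Agent.LibER34 Pool.Agent.LibEQ34
open scoped Classical ComplexConjugate

namespace Pool.Agent.LibEX75

variable {K : Type} [Field K] [Algebra K Qb] {n r D : ℕ} (c : CM) (E : Fin n → WeierstrassCurve K)
  (κ : Fin r → Fin n) (μ : Fin D → Fin n) (j : Fin n)
  (s : Sb (num κ j) (num μ j) × Sb (num κ j) (num μ j + 1))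

theorem tT_single (f : Matrix (Fin r) (Fin D) (ℤ × ℤ) → ℤ) (p : PM E κ D) (m : ℤ) :
    tT c E κ μ j f s (Finsupp.single p m) =
      tS c ((E j)⁄Qb) s (Finsupp.single (blk κ μ j p.1, vpt E κ j p.2) (f p.1 * m)) := by
  show tS c ((E j)⁄Qb) s (qj E κ μ j f (Finsupp.single p m)) = _
  rw [qj, Finsupp.liftAddHom_apply_single]
  rfl

theorem lam_tT (f : Matrix (Fin r) (Fin D) (ℤ × ℤ) → ℤ)
    (lam : ((E j)⁄Qb).toAffine.Point →+ ℂ)
    (hlam : ∀ P, lam ((c.w ((E j)⁄Qb)).k0 P) = c.ω ((E j)⁄Qb) * lam P) (b : PM E κ D →₀ ℤ) :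
    lam (tT c E κ μ j f s b) = b.sum fun p m => (m : ℂ) * ((f p.1 : ℂ) *
      Xv ((blk κ μ j p.1).map (tc (c.ω ((E j)⁄Qb)))) (fun x => lam (vpt E κ j p.2 x)) s) := by
  induction b using Finsupp.induction_linear with
  | zero => rw [map_zero, map_zero, Finsupp.sum_zero_index]
  | add b b' h h' =>
    rw [map_add, map_add, h, h', Finsupp.sum_add_index' (fun _ => by simp)
      (fun _ _ _ => by push_cast; ring)]
  | single p m =>
    rw [tT_single, lam_tS c ((E j)⁄Qb) s lam hlam, Finsupp.sum_single_index (by simp),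
      Finsupp.sum_single_index (by simp)]
    push_cast
    ring

theorem tT_sum {ι : Type} (S : Finset ι) (m : ι → ℤ)
    (f : ι → Matrix (Fin r) (Fin D) (ℤ × ℤ) → ℤ) (b : PM E κ D →₀ ℤ) :
    tT c E κ μ j (fun N => ∑ i ∈ S, m i * f i N) s b = ∑ i ∈ S, m i • tT c E κ μ j (f i) s b := by
  induction b using Finsupp.induction_linear with
  | zero =>
    rw [map_zero]
    refine (Finset.sum_eq_zero fun i _ => ?_).symm
    rw [map_zero, zsmul_zero]
  | add b b' h h' =>
    rw [map_add, h, h', ← Finset.sum_add_distrib]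
    refine Finset.sum_congr rfl fun i _ => ?_
    rw [map_add, zsmul_add]
  | single p k =>
    rw [tT_single, Finset.sum_mul]
    have h1 : ∀ (x : PC ((E j)⁄Qb) (num κ j) (num μ j)) (g : ι → ℤ),
        tS c ((E j)⁄Qb) s (Finsupp.single x (∑ i ∈ S, g i)) =
          ∑ i ∈ S, tS c ((E j)⁄Qb) s (Finsupp.single x (g i)) := by
      intro x g
      rw [← map_sum]
      congr 1
      exact map_sum (Finsupp.singleAddHom x) g S
    rw [h1]
    refine Finset.sum_congr rfl fun i _ => ?_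
    rw [tT_single, tS_single, tS_single, ← mul_smul, mul_assoc]

theorem tT_smul (m : ℤ) (f : Matrix (Fin r) (Fin D) (ℤ × ℤ) → ℤ) (b : PM E κ D →₀ ℤ) :
    tT c E κ μ j (fun N => m * f N) s b = m • tT c E κ μ j f s b := by
  have h := tT_sum c E κ μ j s (Finset.univ : Finset Unit) (fun _ => m) (fun _ => f) b
  simp only [Finset.univ_unique, Finset.sum_singleton] at h
  exact h

/-- only the values of `f` at the matrices of the support are used -/
theorem tT_congr (f f' : Matrix (Fin r) (Fin D) (ℤ × ℤ) → ℤ) (b : PM E κ D →₀ ℤ)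
    (h : ∀ p ∈ b.support, f p.1 = f' p.1) : tT c E κ μ j f s b = tT c E κ μ j f' s b := by
  have h1 : ∀ f : Matrix (Fin r) (Fin D) (ℤ × ℤ) → ℤ, tT c E κ μ j f s b =
      ∑ p ∈ b.support, tT c E κ μ j f s (Finsupp.single p (b p)) := by
    intro f
    conv_lhs => rw [← Finsupp.sum_single b]
    rw [Finsupp.sum, map_sum]
  rw [h1, h1 f']
  refine Finset.sum_congr rfl fun p hp => ?_
  rw [tT_single, tT_single, h p hp]

end Pool.Agent.LibEX75
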