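import Pool.Agent.LibEX75.C1
import Pool.Agent.LibEX75.C2
import Pool.Agent.LibAF11.Red6

/-!
[EX75 C3] the criterion for torsion for one type: copy of `crit` in LibER34/Crit.lean, with several curves. As there `clM` is
the sum over `b.support` (`clCF_eq`). (→): `convC` (LibAF11/ConvIf.lean) gives the numbers for the matrices `M`, the curve
`(E j)⁄Qb` and `s = z`, `z` integral and zero outside the colour `j`; by `num1` (with `v = fun i => lam (trk (W i) E_j (g i))`, which is
zero outside the colour `j`, as `trk` is zero between different curves) they are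
`∑ p, b p * fO j M N_p * ∑ s, Xv (M_j) z s * Xv (N_j) (lam g) s`. For fixed `M` let `M'` be the matrix with the other blocks of `M` and
an arbitrary block `j` (`ins`, `blk_ins_ne`, `blk_ins_self`): `fO j M' = fO j M`. `nondeg` (LibER34/Crit.lean) for the blocks
`N_j`, with the multiplicities `b p * fO j M N_p`, gives that `lam_tT` is zero for all `s` and all `lam`; then `sep`.
(←): `all_dimC` (as in `crit`), first numbers: `h3` (`nmM`), second numbers for the curve `E'`: if `E' = (E j)⁄Qb` for some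
`j` then `num1`, `lam_tT`, `zero_of_tors`; if `E'` is none of the curves then `z = 0` and the determinant is zero (as in `crit`,
`num_eq`, `Xv_lin`).
-/

open WeierstrassCurve Pool.Agent.LibBH2 Pool.Agent.LibIG50 Pool.Agent.LibCHd Pool.Agent.LibGG
  Pool.Agent.LibAC34 Pool.Agent.LibAF11 Pool.Agent.LibER34 Pool.Agent.LibEQ34
open scoped Classical ComplexConjugate

namespace Pool.Agent.LibEX75

variable {K : Type} [Field K] [Algebra K Qb] {n r D : ℕ}

theorem C3_eq (c : CM) {E : Fin n → WeierstrassCurve K} (κ : Fin r → Fin n) {μ : Fin D → Fin n}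
    {F : Type} [Field F] [Algebra Qb F] (ξ : ∀ a, ((prd E μ a)⁄F).toAffine.Point)
    (b : PM E κ D →₀ ℤ) : clM c κ ξ b = ∑ p : b.support, b p.1 •
      clC c.w (Algebra.ofId Qb F) D (fun i => Hm.id (prd E κ i)) ξ (org _) p.1.1 p.1.2 := by
  have h1 : clM c κ ξ b = b.sum fun p m => m •
      clC c.w (Algebra.ofId Qb F) D (fun i => Hm.id (prd E κ i)) ξ (org _) p.1 p.2 := rfl
  rw [h1, Finsupp.sum, ← Finset.sum_coe_sort]

/-- the numbers in terms of the tests -/
theorem C3_num {c : CM} {E : Fin n → WeierstrassCurve K}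
    (inj : ∀ i j, (E i)⁄Qb = (E j)⁄Qb → i = j) {κ : Fin r → Fin n} {μ : Fin D → Fin n}
    (b : PM E κ D →₀ ℤ) (h1 : ∀ p ∈ b.support, MatC c (prd E μ) (prd E κ) p.1) {j : Fin n}
    {M : Matrix (Fin r) (Fin D) (ℤ × ℤ)} (hM : MatC c (prd E μ) (prd E κ) M) {z : Fin r → ℤ}
    (hz : ∀ i, κ i ≠ j → z i = 0) (lam : ((E j)⁄Qb).toAffine.Point →+ ℂ)
    (hlam : ∀ P, lam ((c.w ((E j)⁄Qb)).k0 P) = c.ω ((E j)⁄Qb) * lam P) :
    ∑ p : b.support, (b p.1 : ℂ) * (conj ((cx c (prd E κ) M).transpose *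
        cx c (prd E κ) p.1.1).det *
      ((Matrix.fromCols (cx c (prd E κ) M)
        (Matrix.replicateCol Unit fun i => (z i : ℂ))).transpose *
        Matrix.fromCols (cx c (prd E κ) p.1.1)
          (Matrix.replicateCol Unit fun i =>
            lam (trk (prd E κ i) ((E j)⁄Qb) (p.1.2 i)))).det) =
      ∑ s, Xv ((blk κ μ j M).map (tc (c.ω ((E j)⁄Qb)))) (vbl κ j fun i => (z i : ℂ)) s *
        lam (tT c E κ μ j (fO c E κ μ j M) s b) := by
  have h2 : ∀ p : b.support, (b p.1 : ℂ) * (conj ((cx c (prd E κ) M).transpose *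
        cx c (prd E κ) p.1.1).det *
      ((Matrix.fromCols (cx c (prd E κ) M)
        (Matrix.replicateCol Unit fun i => (z i : ℂ))).transpose *
        Matrix.fromCols (cx c (prd E κ) p.1.1)
          (Matrix.replicateCol Unit fun i =>
            lam (trk (prd E κ i) ((E j)⁄Qb) (p.1.2 i)))).det) =
      ∑ s, Xv ((blk κ μ j M).map (tc (c.ω ((E j)⁄Qb)))) (vbl κ j fun i => (z i : ℂ)) s *
        ((b p.1 : ℂ) * ((fO c E κ μ j M p.1.1 : ℂ) *
          Xv ((blk κ μ j p.1.1).map (tc (c.ω ((E j)⁄Qb))))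
            (fun x => lam (vpt E κ j p.1.2 x)) s)) := by
    intro p
    have hz' : Sup κ j fun i => (z i : ℂ) := fun i hi => by
      change ((z i : ℤ) : ℂ) = 0
      rw [hz i hi, Int.cast_zero]
    have hv : Sup κ j fun i => lam (trk (prd E κ i) ((E j)⁄Qb) (p.1.2 i)) := by
      intro i hi
      have hne : prd E κ i ≠ (E j)⁄Qb := fun h => hi (inj _ _ h)
      change lam (trk (prd E κ i) ((E j)⁄Qb) (p.1.2 i)) = 0
      rw [trk_ne hne, map_zero]
    rw [num1 inj hM (h1 p.1 p.2) hz' hv, Finset.mul_sum, Finset.mul_sum]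
    refine Finset.sum_congr rfl fun s _ => ?_
    have e1 : (vbl κ j fun i => lam (trk (prd E κ i) ((E j)⁄Qb) (p.1.2 i))) =
        fun x => lam (vpt E κ j p.1.2 x) := rfl
    rw [e1]
    ring
  rw [Finset.sum_congr rfl fun p _ => h2 p, Finset.sum_comm]
  refine Finset.sum_congr rfl fun s _ => ?_
  rw [lam_tT c E κ μ j s _ lam hlam, Finsupp.sum, ← Finset.sum_coe_sort b.support,
    Finset.mul_sum]

theorem critM {Γ : Grid} (hΓ : Orth Γ) (hF : Fun Γ) (c : CM) (E : Fin n → WeierstrassCurve K)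
    (hE : ∀ i, ((E i)⁄Qb).IsElliptic) (inj : ∀ i j, (E i)⁄Qb = (E j)⁄Qb → i = j)
    (κ : Fin r → Fin n) (μ : Fin D → Fin n) {F : Type} [Field F] [Algebra Qb F]
    (ξ : ∀ a, ((prd E μ a)⁄F).toAffine.Point)
    (hξ : IsGen 0 (Algebra.ofId Qb F) (prd E μ) ξ) (b : PM E κ D →₀ ℤ)
    (h1 : ∀ p ∈ b.support, MatC c (prd E μ) (prd E κ) p.1 ∧ ∀ i, p.2 i ∈ Γ (prd E κ i))
    (h3 : ∀ M, MatC c (prd E μ) (prd E κ) M → nmM c M b = 0) :
    IsOfFinAddOrder (clM c κ ξ b) ↔ ∀ (j : Fin n) (M : Matrix (Fin r) (Fin D) (ℤ × ℤ)),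
      MatC c (prd E μ) (prd E κ) M → ∀ s,
        IsOfFinAddOrder (tT c E κ μ j (fO c E κ μ j M) s b) := by
  rw [C3_eq]
  constructor
  · intro htor j M hM s
    have h2 := (convC c (prd E κ) (fun i => hE (κ i)) (prd E μ) (fun a => hE (μ a)) F ξ hξ
      b.support (fun p => b p.1) (fun p => p.1.1) (fun p => p.1.2)
      (fun p => (h1 p.1 p.2).1) htor).2
    refine sep c ((E j)⁄Qb) _ fun lam hlam => ?_
    rw [lam_tT c E κ μ j s _ lam hlam, Finsupp.sum, ← Finset.sum_coe_sort b.support]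
    have hM0 := (mat_iff inj).1 hM
    have h4 := nondeg (n := c.n ((E j)⁄Qb)) (c.ω ((E j)⁄Qb)) (c.trace ((E j)⁄Qb))
      (fun h => (c.real ((E j)⁄Qb) h).1)
      (fun p : b.support => (b p.1 : ℂ) * (fO c E κ μ j M p.1.1 : ℂ))
      (fun p => blk κ μ j p.1.1) (fun p x => lam (vpt E κ j p.1.2 x))
      (fun p h i a => ((mat_iff inj).1 (h1 p.1 p.2).1).2 (ix κ j i).1 (ix μ j a).1 (by
        rw [prd, (ix κ j i).2]
        exact h)) (fun M₁ hM₁ z₁ => ?_) s
    · rw [← h4]
      exact Finset.sum_congr rfl fun p _ => (mul_assoc (_ : ℂ) _ _).symm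
    · let M' : Matrix (Fin r) (Fin D) (ℤ × ℤ) := (ins κ μ j M (M₁, 0)).1
      let z : Fin r → ℤ := (ins κ μ j (0 : Matrix (Fin r) (Fin D) ℤ) (0, z₁)).2
      have hM' : MatC c (prd E μ) (prd E κ) M' := by
        refine (mat_iff inj).2 ⟨Blk_ins hM0.1, fun i a => ?_⟩
        exact ins_prop (fun l (z : ℤ × ℤ) => (c.ω ((E l)⁄Qb)).im = 0 → z.2 = 0)
          (fun i a => hM0.2 i a) (fun i a h => hM₁ h i a) i a
      have hz : ∀ i, κ i ≠ j → z i = 0 := fun i hi => Sup_ins i hi
      have hz1 : vbl κ j z = z₁ := vbl_ins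
      have hz2 : (vbl κ j fun i => (z i : ℂ)) = fun x => (z₁ x : ℂ) := by
        rw [← hz1]
        rfl
      have hfO : fO c E κ μ j M' = fO c E κ μ j M := by
        funext N
        refine Finset.prod_congr rfl fun l hl => ?_
        have hlj : l ≠ j := (Finset.mem_erase.1 hl).1
        have h5 : blk κ μ l M' = blk κ μ l M := blk_ins_ne hlj
        rw [h5]
      have h6 := h2 M' hM' ((E j)⁄Qb) z (fun i hi => hz i fun h => hi (by rw [prd, h])) lam hlam
      rw [C3_num inj b (fun p hp => (h1 p hp).1) hM' hz lam hlam, hfO, hz2] at h6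
      have h7 : blk κ μ j M' = M₁ := blk_ins_self
      rw [h7] at h6
      rw [← h6]
      refine Finset.sum_congr rfl fun s _ => ?_
      rw [lam_tT c E κ μ j s _ lam hlam, Finsupp.sum, ← Finset.sum_coe_sort b.support]
      congr 1
      exact Finset.sum_congr rfl fun p _ => mul_assoc (_ : ℂ) _ _
  · intro htor
    have h2 := all_dimC hΓ hF c r (prd E κ) (prd E κ)
      (fun i => Hm.id (prd E κ i)) (fun i => hE (κ i)) (fun i => hE (κ i)) D (prd E μ)
      (fun a => hE (μ a)) (pt0 Qb) 0 Qb (org _) F (Algebra.ofId Qb F) ξ hξ b.support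
      (fun p => b p.1) (fun p => p.1.1) (fun p => p.1.2) (fun p => (h1 p.1 p.2).1)
      (fun p => (h1 p.1 p.2).2) (fun M hM => ?_) (fun M hM E' z hz lam hlam => ?_)
    · unfold clC at h2 ⊢
      rwa [cast_tors _ _ (zero_add D)] at h2
    · have h4 := h3 M hM
      have h5 : nmM c M b = b.sum fun p m => m •
        (Complex.normSq ((cx c (prd E κ) M).transpose * cx c (prd E κ) p.1).det) := rfl
      rw [h5, Finsupp.sum, ← Finset.sum_coe_sort] at h4
      rw [← h4]
      refine Finset.sum_congr rfl fun j _ => ?_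
      rw [zsmul_eq_mul]
    · by_cases hEE : ∃ j, (E j)⁄Qb = E'
      · obtain ⟨j, rfl⟩ := hEE
        rw [C3_num inj b (fun p hp => (h1 p hp).1) hM
          (fun i hi => hz i fun h => hi (inj _ _ h)) lam hlam]
        refine Finset.sum_eq_zero fun s _ => ?_
        rw [zero_of_tors lam (htor j M hM s), mul_zero]
      · have hz0 : ∀ i, z i = 0 := fun i => hz i fun h => hEE ⟨κ i, h⟩
        refine Finset.sum_eq_zero fun j _ => ?_
        rw [num_eq]
        have h4 : ∀ s, Xv (cx c (prd E κ) M) (fun i => (z i : ℂ)) s = 0 := by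
          intro s
          rw [Xv_lin]
          refine Finset.sum_eq_zero fun i _ => ?_
          rw [hz0 i, Int.cast_zero, zero_mul]
        simp only [h4, zero_mul, Finset.sum_const_zero, mul_zero]

end Pool.Agent.LibEX75
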