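import Pool.Agent.LibEX75.C2
import Pool.Agent.LibEX75.B3

/-!
[EX75 C4] from the kernels `kz` to their symmetric and antisymmetric parts and back. `blk_cjm`: definition of `cjm`
(`(ix κ l x).2`). `tors_fS`: `ks b N M = kz N M + sg b * kz N (conj M)`, so by `Finset.prod_add` `fS j T M N` is the sum over
`S ∈ (univ.erase j).powerset` of a sign times `∏ kz (blk l N) (blk l (cjm δ M)) = fO j (cjm δ M) N`, `δ l = true` for the `l`
of the second product; `cjm δ M` is again in `MatC` (`mat_iff` is not needed: `pc t b 0 = 0`, `pc_snd`); `tT_sum`; sums of torsion points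
are torsion. `tors_fO`: `2 * kz = ks false + ks true` (`ks_add`), so by `Finset.prod_add`
`2 ^ (n - 1) * fO j M N = ∑ T ∈ (univ.erase j).powerset, fS j T M N` (in `fS` only `l ∈ univ.erase j` is used).
-/

open WeierstrassCurve Pool.Agent.LibBH2 Pool.Agent.LibIG50 Pool.Agent.LibCHd Pool.Agent.LibGG
  Pool.Agent.LibAC34 Pool.Agent.LibAF11 Pool.Agent.LibER34 Pool.Agent.LibEQ34
open scoped Classical ComplexConjugate

namespace Pool.Agent.LibEX75

variable {K : Type} [Field K] [Algebra K Qb] {n r D : ℕ}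

private theorem C4_tors_sum {G : Type} [AddCommGroup G] {ι : Type} (S : Finset ι) (m : ι → ℤ)
    (x : ι → G) (h : ∀ i ∈ S, IsOfFinAddOrder (x i)) : IsOfFinAddOrder (∑ i ∈ S, m i • x i) := by
  have h1 : ∀ i ∈ S, m i • x i ∈ AddCommGroup.torsion G := fun i hi =>
    (AddCommGroup.torsion G).zsmul_mem (h i hi) _
  exact (AddCommGroup.torsion G).sum_mem h1

private theorem C4_tors_of_smul {G : Type} [AddCommGroup G] {x : G} {m : ℤ} (hm : m ≠ 0)
    (h : IsOfFinAddOrder (m • x)) : IsOfFinAddOrder x := by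
  obtain ⟨k, hk, hk'⟩ := isOfFinAddOrder_iff_nsmul_eq_zero.1 h
  rw [isOfFinAddOrder_iff_zsmul_eq_zero]
  refine ⟨(k : ℤ) * m, mul_ne_zero (by exact_mod_cast hk.ne') hm, ?_⟩
  rw [mul_smul, natCast_zsmul]
  exact hk'

/-- the blocks of the conjugate -/
theorem blk_cjm (c : CM) (E : Fin n → WeierstrassCurve K) (κ : Fin r → Fin n) (μ : Fin D → Fin n)
    (l : Fin n) (δ : Fin n → Bool) (N : Matrix (Fin r) (Fin D) (ℤ × ℤ)) :
    blk κ μ l (cjm c E κ δ N) = (blk κ μ l N).map (pc (c.t ((E l)⁄Qb)) (δ l)) := by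
  ext1 x a
  change pc (c.t ((E (κ (ix κ l x).1))⁄Qb)) (δ (κ (ix κ l x).1)) (N (ix κ l x).1 (ix μ l a).1) =
    pc (c.t ((E l)⁄Qb)) (δ l) (N (ix κ l x).1 (ix μ l a).1)
  rw [(ix κ l x).2]

theorem mat_cjm {c : CM} {E : Fin n → WeierstrassCurve K} {κ : Fin r → Fin n} {μ : Fin D → Fin n}
    {N : Matrix (Fin r) (Fin D) (ℤ × ℤ)} (h : MatC c (prd E μ) (prd E κ) N) (δ : Fin n → Bool) :
    MatC c (prd E μ) (prd E κ) (cjm c E κ δ N) := by
  intro i a
  obtain ⟨h1, h2⟩ := h i a
  refine ⟨fun hne => ?_, fun him => ?_⟩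
  · change pc _ _ (N i a) = 0
    rw [h1 hne]
    exact pc_real _ _ _ rfl
  · exact pc_snd _ _ _ (h2 him)

theorem tors_fS (c : CM) (E : Fin n → WeierstrassCurve K) (κ : Fin r → Fin n)
    (μ : Fin D → Fin n) (j : Fin n) (s : Sb (num κ j) (num μ j) × Sb (num κ j) (num μ j + 1))
    (b : PM E κ D →₀ ℤ) (h : ∀ M, MatC c (prd E μ) (prd E κ) M →
      IsOfFinAddOrder (tT c E κ μ j (fO c E κ μ j M) s b)) (T : Finset (Fin n))
    (M : Matrix (Fin r) (Fin D) (ℤ × ℤ)) (hM : MatC c (prd E μ) (prd E κ) M) :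
    IsOfFinAddOrder (tT c E κ μ j (fS c E κ μ j T M) s b) := by
  have hf : fS c E κ μ j T M = fun N => ∑ S ∈ (Finset.univ.erase j).powerset,
      (∏ l ∈ (Finset.univ.erase j) \ S, sg (decide (l ∈ T))) *
        fO c E κ μ j (cjm c E κ (fun l => decide (l ∉ S)) M) N := by
    funext N
    unfold fS ks
    rw [Finset.prod_add]
    refine Finset.sum_congr rfl fun S hS => ?_
    have hS' := Finset.mem_powerset.1 hS
    rw [Finset.prod_mul_distrib, mul_left_comm]
    congr 1
    unfold fO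
    rw [← Finset.prod_sdiff hS', mul_comm]
    congr 1
    · refine Finset.prod_congr rfl fun l hl => ?_
      have hl' : decide (l ∉ S) = true := decide_eq_true (Finset.mem_sdiff.1 hl).2
      rw [blk_cjm, hl']
    · refine Finset.prod_congr rfl fun l hl => ?_
      have hl' : decide (l ∉ S) = false := decide_eq_false (not_not.2 hl)
      rw [blk_cjm, hl']
      congr 1
  rw [hf, tT_sum]
  exact C4_tors_sum _ _ _ fun S _ => h _ (mat_cjm hM _)

theorem tors_fO (c : CM) (E : Fin n → WeierstrassCurve K) (κ : Fin r → Fin n)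
    (μ : Fin D → Fin n) (j : Fin n) (s : Sb (num κ j) (num μ j) × Sb (num κ j) (num μ j + 1))
    (b : PM E κ D →₀ ℤ) (M : Matrix (Fin r) (Fin D) (ℤ × ℤ))
    (h : ∀ T ∈ (Finset.univ.erase j).powerset,
      IsOfFinAddOrder (tT c E κ μ j (fS c E κ μ j T M) s b)) :
    IsOfFinAddOrder (tT c E κ μ j (fO c E κ μ j M) s b) := by
  have hf : (fun N => (2 : ℤ) ^ (Finset.univ.erase j).card * fO c E κ μ j M N) =
      fun N => ∑ T ∈ (Finset.univ.erase j).powerset, (1 : ℤ) * fS c E κ μ j T M N := by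
    funext N
    have h1 : (2 : ℤ) ^ (Finset.univ.erase j).card * fO c E κ μ j M N =
        ∏ l ∈ Finset.univ.erase j,
          (ks (c.ω ((E l)⁄Qb)) (c.t ((E l)⁄Qb)) true (blk κ μ l N) (blk κ μ l M) +
            ks (c.ω ((E l)⁄Qb)) (c.t ((E l)⁄Qb)) false (blk κ μ l N) (blk κ μ l M)) := by
      unfold fO
      rw [← Finset.prod_const, ← Finset.prod_mul_distrib]
      refine Finset.prod_congr rfl fun l _ => ?_
      unfold ks sg
      simp only [if_true, Bool.false_eq_true, if_false]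
      ring
    rw [h1, Finset.prod_add]
    refine Finset.sum_congr rfl fun T hT => ?_
    have hT' := Finset.mem_powerset.1 hT
    rw [one_mul]
    unfold fS
    rw [← Finset.prod_sdiff hT', mul_comm]
    congr 1
    · refine Finset.prod_congr rfl fun l hl => ?_
      rw [decide_eq_false (Finset.mem_sdiff.1 hl).2]
    · refine Finset.prod_congr rfl fun l hl => ?_
      rw [decide_eq_true hl]
  have h2 : IsOfFinAddOrder ((2 : ℤ) ^ (Finset.univ.erase j).card •
      tT c E κ μ j (fO c E κ μ j M) s b) := by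
    rw [← tT_smul, hf, tT_sum]
    exact C4_tors_sum _ _ _ h
  exact C4_tors_of_smul (pow_ne_zero _ two_ne_zero) h2

end Pool.Agent.LibEX75
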