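import Pool.Agent.LibEX75.C4

/-!
[EX75 C5] the tests of homologically trivial combinations over `K` belong to the groups `GTg`. `fS_cjm`: `blk_cjm`, `ks_pc` (K0) and
`Finset.prod_mul_distrib`; the product of `if l ∈ T then sg (δ l) else 1` over `univ.erase j` is the product over `T`
(`Finset.prod_ite_mem` or `Finset.prod_subset`). `vpt_gal`: for `l = j` (`(ix κ j x).2`, generalise and `subst`) `trk_self`.
`tT_mem`: in `Γ`: as in `tS_mem` (LibER34/Tst.lean; `tS_apply`; the components of `vpt` are components of the point or zero: `trk`).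
Galois: `gal_tS` for the curve `E j`, and `(qj f b).mapDomain (ac c (E j) (e σ j) σ) = (∏ l ∈ T, sg (e σ l)) • qj f (b.mapDomain (acM c E κ (e σ) σ))`
for `f = fS j T M` (induction on `b`; for `single p m`: `blk_cjm`, `vpt_gal`, `fS_cjm`, and the sign squared is one), then `hb.2.1 σ`.
-/

open WeierstrassCurve Pool.Agent.LibBH2 Pool.Agent.LibIG50 Pool.Agent.LibCHd Pool.Agent.LibGG
  Pool.Agent.LibAC34 Pool.Agent.LibAF11 Pool.Agent.LibER34 Pool.Agent.LibEQ34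
open scoped Classical ComplexConjugate

namespace Pool.Agent.LibEX75

variable {K : Type} [Field K] [Algebra K Qb] {n r D : ℕ}

theorem C5_prod_ite (j : Fin n) {T : Finset (Fin n)} (hT : T ⊆ Finset.univ.erase j)
    (F : Fin n → ℤ) : ∏ l ∈ Finset.univ.erase j, (if decide (l ∈ T) = true then F l else 1) =
      ∏ l ∈ T, F l := by
  have h1 : ∀ l ∈ Finset.univ.erase j, (if decide (l ∈ T) = true then F l else 1) =
      (if l ∈ T then F l else 1) := by
    intro l _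
    by_cases h : l ∈ T
    · rw [if_pos h, if_pos (decide_eq_true h)]
    · rw [if_neg h, if_neg (by simpa using h)]
  rw [Finset.prod_congr rfl h1, ← Finset.prod_subset hT (fun l _ hl => if_neg hl)]
  exact Finset.prod_congr rfl fun l hl => if_pos hl

theorem fS_cjm (c : CM) (E : Fin n → WeierstrassCurve K) (κ : Fin r → Fin n) (μ : Fin D → Fin n)
    (j : Fin n) {T : Finset (Fin n)} (hT : T ⊆ Finset.univ.erase j) (δ : Fin n → Bool)
    (M N : Matrix (Fin r) (Fin D) (ℤ × ℤ)) :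
    fS c E κ μ j T M (cjm c E κ δ N) = (∏ l ∈ T, sg (δ l)) * fS c E κ μ j T M N := by
  unfold fS
  have h1 : ∀ l ∈ Finset.univ.erase j,
      ks (c.ω ((E l)⁄Qb)) (c.t ((E l)⁄Qb)) (decide (l ∈ T)) (blk κ μ l (cjm c E κ δ N))
        (blk κ μ l M) =
      (if decide (l ∈ T) = true then sg (δ l) else 1) *
        ks (c.ω ((E l)⁄Qb)) (c.t ((E l)⁄Qb)) (decide (l ∈ T)) (blk κ μ l N) (blk κ μ l M) := by
    intro l _
    rw [blk_cjm, ks_pc (c.trace _)]
  rw [Finset.prod_congr rfl h1, Finset.prod_mul_distrib,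
    C5_prod_ite j hT (fun l => sg (δ l))]

theorem C5_trk_gal (E : Fin n → WeierstrassCurve K) (σ : Qb ≃ₐ[K] Qb) {i' j : Fin n}
    (h : i' = j) (P : ((E i')⁄Qb).toAffine.Point) :
    trk ((E i')⁄Qb) ((E j)⁄Qb) (gal σ P) = gal σ (trk ((E i')⁄Qb) ((E j)⁄Qb) P) := by
  subst h
  rw [trk_self, trk_self]

theorem C5_trk_mem {Γ : Grid} (E : Fin n → WeierstrassCurve K) {i' j : Fin n}
    (h : i' = j) {P : ((E i')⁄Qb).toAffine.Point} (hP : P ∈ Γ ((E i')⁄Qb)) :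
    trk ((E i')⁄Qb) ((E j)⁄Qb) P ∈ Γ ((E j)⁄Qb) := by
  subst h
  rw [trk_self]
  exact hP

theorem vpt_gal (E : Fin n → WeierstrassCurve K) (κ : Fin r → Fin n) (j : Fin n)
    (σ : Qb ≃ₐ[K] Qb) (g : Pts (prd E κ)) (x : Fin (num κ j)) :
    vpt E κ j (fun i => gal σ (g i)) x = gal σ (vpt E κ j g x) :=
  C5_trk_gal E σ (ix κ j x).2 (g (ix κ j x).1)

theorem C5_mem {Γ : Grid} {c : CM} {E : Fin n → WeierstrassCurve K}
    (hSt : ∀ i, ∀ P ∈ Γ ((E i)⁄Qb), (c.w ((E i)⁄Qb)).k0 P ∈ Γ ((E i)⁄Qb))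
    {κ : Fin r → Fin n} {μ : Fin D → Fin n} (j : Fin n)
    (f : Matrix (Fin r) (Fin D) (ℤ × ℤ) → ℤ)
    (s : Sb (num κ j) (num μ j) × Sb (num κ j) (num μ j + 1)) (b : PM E κ D →₀ ℤ)
    (hb : ∀ p ∈ b.support, ∀ i, p.2 i ∈ Γ (prd E κ i)) :
    tT c E κ μ j f s b ∈ Γ ((E j)⁄Qb) := by
  have h0 : tT c E κ μ j f s b = b.sum fun p m => tT c E κ μ j f s (Finsupp.single p m) := by
    have h1 := map_finsuppSum (tT c E κ μ j f s) b (fun p m => Finsupp.single p m)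
    rw [Finsupp.sum_single] at h1
    exact h1
  rw [h0]
  refine sum_mem fun p hp => ?_
  show tT c E κ μ j f s (Finsupp.single p (b p)) ∈ _
  rw [tT_single, tS_single]
  refine zsmul_mem (sum_mem fun x _ => ?_) _
  have h2 : vpt E κ j p.2 x ∈ Γ ((E j)⁄Qb) := C5_trk_mem E (ix κ j x).2 (hb p hp _)
  exact add_mem (zsmul_mem h2 _) (zsmul_mem (hSt j _ h2) _)

theorem C5_sg (b : Bool) : sg b * sg b = 1 := by
  cases b <;> simp [sg]

theorem C5_qj_single (E : Fin n → WeierstrassCurve K) (κ : Fin r → Fin n) (μ : Fin D → Fin n)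
    (j : Fin n) (f : Matrix (Fin r) (Fin D) (ℤ × ℤ) → ℤ) (p : PM E κ D) (m : ℤ) :
    qj E κ μ j f (Finsupp.single p m) =
      Finsupp.single (blk κ μ j p.1, vpt E κ j p.2) (f p.1 * m) := by
  rw [qj, Finsupp.liftAddHom_apply_single]
  rfl

theorem C5_qj (c : CM) (E : Fin n → WeierstrassCurve K) (κ : Fin r → Fin n) (μ : Fin D → Fin n)
    (j : Fin n) {T : Finset (Fin n)} (hT : T ⊆ Finset.univ.erase j)
    (M : Matrix (Fin r) (Fin D) (ℤ × ℤ)) (δ : Fin n → Bool) (σ : Qb ≃ₐ[K] Qb)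
    (b : PM E κ D →₀ ℤ) :
    (qj E κ μ j (fS c E κ μ j T M) b).mapDomain (ac c (E j) (δ j) σ) =
      (∏ l ∈ T, sg (δ l)) • qj E κ μ j (fS c E κ μ j T M) (b.mapDomain (acM c E κ δ σ)) := by
  induction b using Finsupp.induction_linear with
  | zero => rw [map_zero, Finsupp.mapDomain_zero, Finsupp.mapDomain_zero, map_zero, smul_zero]
  | add b b' h h' =>
    rw [Finsupp.mapDomain_add, map_add, map_add, Finsupp.mapDomain_add, h, h', smul_add]
  | single p m =>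
    have h1 : (acM c E κ δ σ p).1 = cjm c E κ δ p.1 := rfl
    have h2 : vpt E κ j (acM c E κ δ σ p).2 = fun x => gal σ (vpt E κ j p.2 x) :=
      funext fun x => vpt_gal E κ j σ p.2 x
    have h3 : ac c (E j) (δ j) σ (blk κ μ j p.1, vpt E κ j p.2) =
        (blk κ μ j (acM c E κ δ σ p).1, vpt E κ j (acM c E κ δ σ p).2) := by
      rw [h1, h2, blk_cjm]
      rfl
    have h4 : (∏ l ∈ T, sg (δ l)) * ∏ l ∈ T, sg (δ l) = 1 := by
      rw [← Finset.prod_mul_distrib]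
      exact Finset.prod_eq_one fun l _ => C5_sg _
    rw [C5_qj_single, Finsupp.mapDomain_single, Finsupp.mapDomain_single, C5_qj_single,
      Finsupp.smul_single, h3, h1, fS_cjm c E κ μ j hT]
    congr 1
    rw [smul_eq_mul, ← mul_assoc, ← mul_assoc, h4, one_mul]

theorem tT_mem {Γ : Grid} {c : CM} {E : Fin n → WeierstrassCurve K}
    {e : (Qb ≃ₐ[K] Qb) → Fin n → Bool} (he : ∀ l, GalW c (E l) (fun σ => e σ l))
    (hSt : ∀ i, ∀ P ∈ Γ ((E i)⁄Qb), (c.w ((E i)⁄Qb)).k0 P ∈ Γ ((E i)⁄Qb))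
    {κ : Fin r → Fin n} {μ : Fin D → Fin n} {b : PM E κ D →₀ ℤ} (hb : b ∈ ZM Γ c E e κ μ)
    (j : Fin n) {T : Finset (Fin n)} (hT : T ⊆ Finset.univ.erase j)
    (M : Matrix (Fin r) (Fin D) (ℤ × ℤ))
    (s : Sb (num κ j) (num μ j) × Sb (num κ j) (num μ j + 1)) :
    tT c E κ μ j (fS c E κ μ j T M) s b ∈ GTg Γ E e j T := by
  refine ⟨C5_mem hSt j _ s b fun p hp => (hb.1 p hp).2, fun σ => ?_⟩
  have h1 : gal σ (tS c ((E j)⁄Qb) s (qj E κ μ j (fS c E κ μ j T M) b)) = _ :=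
    gal_tS (he j) s σ (qj E κ μ j (fS c E κ μ j T M) b)
  have h2 := C5_qj c E κ μ j hT M (e σ) σ b
  rw [hb.2.1 σ] at h2
  rw [h2, map_zsmul] at h1
  exact h1

end Pool.Agent.LibEX75
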