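import Pool.Agent.LibEX75.C2
import Pool.Agent.LibEX75.B3

/-!
[EX75 C6] the tests of a Gram system and of the coordinates `ι β` determine all tests, up to torsion. For fixed `f`:
`tT f s b` is torsion for all `s` if it is for all `ι β`: `sep` (LibER34/Tst.lean) and `lam_tT` (C2), exactly as in the upper bound in
the proof of `rkC_eq` (LibER34/Rk.lean). For fixed `s`: `m * fS j T x N = ∑ a i * fS j T (p i) N` for all `N` of the support of `b`,
so `m • tT (fS j T x) s b = ∑ a i • tT (fS j T (p i)) s b` (`tT_smul`, `tT_sum`, `tT_congr`), and `m ≠ 0`.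
-/

open WeierstrassCurve Pool.Agent.LibBH2 Pool.Agent.LibIG50 Pool.Agent.LibCHd Pool.Agent.LibGG
  Pool.Agent.LibAC34 Pool.Agent.LibAF11 Pool.Agent.LibER34 Pool.Agent.LibEQ34
open scoped Classical ComplexConjugate

namespace Pool.Agent.LibEX75

variable {K : Type} [Field K] [Algebra K Qb] {n r D : ℕ}

/-- a homomorphism to the complex numbers is zero at torsion elements -/
private theorem C6_lam {G : Type} [AddCommGroup G] (lam : G →+ ℂ) {x : G}
    (h : IsOfFinAddOrder x) : lam x = 0 := by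
  obtain ⟨m, hm, hx⟩ := isOfFinAddOrder_iff_nsmul_eq_zero.1 h
  have h1 : (m : ℂ) * lam x = 0 := by
    rw [← nsmul_eq_mul, ← map_nsmul, hx, map_zero]
  rcases mul_eq_zero.1 h1 with h2 | h2
  · exact absurd (by exact_mod_cast h2) hm.ne'
  · exact h2

/-- an element with a torsion multiple is torsion -/
private theorem C6_div {G : Type} [AddCommGroup G] {m : ℤ} (hm : m ≠ 0) {x : G}
    (h : IsOfFinAddOrder (m • x)) : IsOfFinAddOrder x := by
  obtain ⟨k, hk, hx⟩ := isOfFinAddOrder_iff_nsmul_eq_zero.1 h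
  rw [isOfFinAddOrder_iff_nsmul_eq_zero]
  refine ⟨k * m.natAbs, Nat.mul_pos hk (Int.natAbs_pos.2 hm), ?_⟩
  have h1 : ((k : ℤ) * m) • x = 0 := by
    rw [mul_smul, natCast_zsmul]
    exact hx
  have h2 : ((k * m.natAbs : ℕ) : ℤ) • x = 0 := by
    rcases Int.natAbs_eq m with h3 | h3
    · have h4 : ((k * m.natAbs : ℕ) : ℤ) = (k : ℤ) * m := by
        rw [Nat.cast_mul, ← h3]
      rw [h4]
      exact h1
    · have h4 : ((k * m.natAbs : ℕ) : ℤ) = -((k : ℤ) * m) := by
        have h5 : ((m.natAbs : ℕ) : ℤ) = -m := by rw [h3]; simp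
        rw [Nat.cast_mul, h5, mul_neg]
      rw [h4, neg_smul, h1, neg_zero]
  rw [natCast_zsmul] at h2
  exact h2

/-- a sum of torsion elements is torsion -/
private theorem C6_sum {G I : Type} [AddCommGroup G] [Fintype I] (f : I → G)
    (h : ∀ i, IsOfFinAddOrder (f i)) : IsOfFinAddOrder (∑ i, f i) := by
  have h1 : ∑ i, f i ∈ AddCommGroup.torsion G :=
    AddSubgroup.sum_mem _ fun i _ => h i
  exact h1

theorem tors_span (c : CM) (E : Fin n → WeierstrassCurve K) (κ : Fin r → Fin n)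
    (μ : Fin D → Fin n) (j : Fin n) (T : Finset (Fin n)) {I B : Type} [Fintype I] [Fintype B]
    (p : I → PT c E κ μ)
    (hp : ∀ x : PT c E κ μ, ∃ (m : ℤ) (a : I → ℤ), m ≠ 0 ∧ ∀ q : PT c E κ μ,
      m * fS c E κ μ j T x.1 q.1 = ∑ i, a i * fS c E κ μ j T (p i).1 q.1)
    (ι : B → Sb (num κ j) (num μ j) × Sb (num κ j) (num μ j + 1))
    (hι : ∀ s, ∃ (m : ℤ) (a : B → ℤ), m ≠ 0 ∧
      ∀ (N : Matrix (Fin (num κ j)) (Fin (num μ j)) (ℤ × ℤ)) (v : Fin (num κ j) → ℂ),
        m * Xv (N.map (tc (c.ω ((E j)⁄Qb)))) v s =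
          ∑ β, a β * Xv (N.map (tc (c.ω ((E j)⁄Qb)))) v (ι β))
    (b : PM E κ D →₀ ℤ) (hb : ∀ p ∈ b.support, MatC c (prd E μ) (prd E κ) p.1)
    (h : ∀ i β, IsOfFinAddOrder (tT c E κ μ j (fS c E κ μ j T (p i).1) (ι β) b))
    (M : Matrix (Fin r) (Fin D) (ℤ × ℤ)) (hM : MatC c (prd E μ) (prd E κ) M)
    (s : Sb (num κ j) (num μ j) × Sb (num κ j) (num μ j + 1)) :
    IsOfFinAddOrder (tT c E κ μ j (fS c E κ μ j T M) s b) := by
  -- all coordinates, for the tests `p i`
  have key : ∀ i, IsOfFinAddOrder (tT c E κ μ j (fS c E κ μ j T (p i).1) s b) := by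
    intro i
    refine sep c ((E j)⁄Qb) _ fun lam hlam => ?_
    obtain ⟨m, a, hm, hs⟩ := hι s
    have h2 : ∀ β, lam (tT c E κ μ j (fS c E κ μ j T (p i).1) (ι β) b) = 0 :=
      fun β => C6_lam lam (h i β)
    have h3 : (m : ℂ) * lam (tT c E κ μ j (fS c E κ μ j T (p i).1) s b) = 0 := by
      rw [lam_tT c E κ μ j s _ lam hlam, Finsupp.sum, Finset.mul_sum]
      have h4 : ∀ q ∈ b.support, (m : ℂ) * ((b q : ℂ) * ((fS c E κ μ j T (p i).1 q.1 : ℂ) *
          Xv ((blk κ μ j q.1).map (tc (c.ω ((E j)⁄Qb)))) (fun x => lam (vpt E κ j q.2 x)) s)) =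
          ∑ β, (a β : ℂ) * ((b q : ℂ) * ((fS c E κ μ j T (p i).1 q.1 : ℂ) *
            Xv ((blk κ μ j q.1).map (tc (c.ω ((E j)⁄Qb)))) (fun x => lam (vpt E κ j q.2 x))
              (ι β))) := by
        intro q _
        have h5 := hs (blk κ μ j q.1) (fun x => lam (vpt E κ j q.2 x))
        calc _ = (b q : ℂ) * ((fS c E κ μ j T (p i).1 q.1 : ℂ) * (m *
              Xv ((blk κ μ j q.1).map (tc (c.ω ((E j)⁄Qb)))) (fun x => lam (vpt E κ j q.2 x))
                s)) := by ring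
          _ = _ := by
              rw [h5, Finset.mul_sum, Finset.mul_sum]
              exact Finset.sum_congr rfl fun β _ => by ring
      rw [Finset.sum_congr rfl h4, Finset.sum_comm]
      refine Finset.sum_eq_zero fun β _ => ?_
      rw [← Finset.mul_sum]
      have h6 := h2 β
      rw [lam_tT c E κ μ j (ι β) _ lam hlam, Finsupp.sum] at h6
      rw [h6, mul_zero]
    rcases mul_eq_zero.1 h3 with h4 | h4
    · exact absurd (by exact_mod_cast h4) hm
    · exact h4
  -- all tests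
  obtain ⟨m, a, hm, hq⟩ := hp ⟨M, hM⟩
  have h5 : m • tT c E κ μ j (fS c E κ μ j T M) s b =
      ∑ i, a i • tT c E κ μ j (fS c E κ μ j T (p i).1) s b := by
    rw [← tT_smul, ← tT_sum]
    exact tT_congr c E κ μ j s _ _ b fun q hq' => hq ⟨q.1, hb q hq'⟩
  refine C6_div hm ?_
  rw [h5]
  exact C6_sum _ fun i => (key i).zsmul

end Pool.Agent.LibEX75
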