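import Pool.Agent.LibEX75.C4

/-!
[EX75 D1] rules for `cS` and `dy`.
-/

open WeierstrassCurve Pool.Agent.LibBH2 Pool.Agent.LibIG50 Pool.Agent.LibCHd Pool.Agent.LibGG
  Pool.Agent.LibAC34 Pool.Agent.LibAF11 Pool.Agent.LibER34 Pool.Agent.LibEQ34
open scoped Classical ComplexConjugate

namespace Pool.Agent.LibEX75

variable {K : Type} [Field K] [Algebra K Qb] {n r D : ℕ}

theorem D1_pc (t : ℤ) (a b : Bool) (p : ℤ × ℤ) : pc t a (pc t b p) = pc t (xor a b) p := by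
  cases a
  · rw [pc_false, Bool.false_xor]
  · cases b
    · rw [pc_false]
      rfl
    · rw [pc_pc]
      rfl

theorem cS_cS (c : CM) (E : Fin n → WeierstrassCurve K) (κ : Fin r → Fin n) (δ δ' : Fin n → Bool)
    (p : Matrix (Fin r) (Fin D) (ℤ × ℤ) × (Fin r → ℤ × ℤ)) :
    cS c E κ δ (cS c E κ δ' p) = cS c E κ (fun l => xor (δ l) (δ' l)) p := by
  refine Prod.ext ?_ ?_
  · funext i a
    exact D1_pc _ _ _ _
  · funext i
    exact D1_pc _ _ _ _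

theorem D1_sg (b : Bool) : sg b = 1 ∨ sg b = -1 := by
  cases b
  · exact Or.inl rfl
  · exact Or.inr rfl

theorem D1_prod (T : Finset (Fin n)) (δ : Fin n → Bool) :
    ∏ l ∈ T, sg (δ l) = 1 ∨ ∏ l ∈ T, sg (δ l) = -1 := by
  induction T using Finset.induction_on with
  | empty => exact Or.inl rfl
  | insert a s ha ih =>
    rw [Finset.prod_insert ha]
    rcases D1_sg (δ a) with h | h <;> rcases ih with h' | h' <;> rw [h, h'] <;> decide

theorem dy_sg (c : CM) (E : Fin n → WeierstrassCurve K) (κ : Fin r → Fin n) (j : Fin n)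
    (T : Finset (Fin n)) (δ : Fin n → Bool) (y : ((E j)⁄Qb).toAffine.Point)
    (p : Matrix (Fin r) (Fin D) (ℤ × ℤ) × (Fin r → ℤ × ℤ)) :
    dy c E κ j ((∏ l ∈ T, sg (δ l)) • y) p = (∏ l ∈ T, sg (δ l)) • dy c E κ j y p := by
  rcases D1_prod T δ with h | h
  · rw [h, one_zsmul, one_zsmul]
  · rw [h, neg_one_zsmul, neg_one_zsmul, dy, dy, neg_neg, neg_sub]

theorem D1_trk_gal (E : Fin n → WeierstrassCurve K) (inj : ∀ i j, (E i)⁄Qb = (E j)⁄Qb → i = j)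
    (l j : Fin n) (σ : Qb ≃ₐ[K] Qb) (P Q : ((E j)⁄Qb).toAffine.Point)
    (h : l = j → gal σ P = Q) :
    gal σ (trk ((E j)⁄Qb) ((E l)⁄Qb) P) = trk ((E j)⁄Qb) ((E l)⁄Qb) Q := by
  by_cases hl : l = j
  · subst hl
    rw [trk_self, trk_self, h rfl]
  · have h1 : (E j)⁄Qb ≠ (E l)⁄Qb := fun h' => hl (inj j l h').symm
    rw [trk_ne h1, trk_ne h1, map_zero]

theorem dy_acM {c : CM} {E : Fin n → WeierstrassCurve K}
    (inj : ∀ i j, (E i)⁄Qb = (E j)⁄Qb → i = j)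
    {e : (Qb ≃ₐ[K] Qb) → Fin n → Bool} (he : ∀ l, GalW c (E l) (fun σ => e σ l))
    (κ : Fin r → Fin n) (j : Fin n) (σ : Qb ≃ₐ[K] Qb) (y : ((E j)⁄Qb).toAffine.Point)
    (p : Matrix (Fin r) (Fin D) (ℤ × ℤ) × (Fin r → ℤ × ℤ)) :
    (dy c E κ j y p).mapDomain (acM c E κ (e σ) σ) =
      dy c E κ j (gal σ y) (cS c E κ (e σ) p) := by
  have h5 := (Finsupp.mapDomain.addMonoidHom (M := ℤ)
    (acM c E κ (e σ) σ : PM E κ D → PM E κ D)).map_sub
      (Finsupp.single (p.1, vy c E κ j p.2 y) (1 : ℤ))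
      (Finsupp.single (p.1, vy c E κ j p.2 (-y)) (1 : ℤ))
  change Finsupp.mapDomain _ (dy c E κ j y p) =
    Finsupp.mapDomain _ _ - Finsupp.mapDomain _ _ at h5
  have h6 : ∀ z : ((E j)⁄Qb).toAffine.Point, (fun i => gal σ (vy c E κ j p.2 z i)) =
      vy c E κ j (cS c E κ (e σ) p).2 (gal σ z) := by
    intro z
    funext i
    refine D1_trk_gal E inj (κ i) j σ _ _ fun h => ?_
    rw [gal_smk (he j)]
    show _ = smk (c.w ((E j)⁄Qb)) (pc (c.t ((E (κ i))⁄Qb)) (e σ (κ i)) (p.2 i)) (gal σ z)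
    rw [h]
  rw [h5, Finsupp.mapDomain_single, Finsupp.mapDomain_single]
  have h7 := h6 y
  have h8 := h6 (-y)
  rw [map_neg] at h8
  unfold acM
  dsimp only
  rw [h7, h8]
  rfl

end Pool.Agent.LibEX75
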