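import Pool.Agent.LibEX75.C5
import Pool.Agent.LibER34.Rk

/-!
[EX75 D2] the tests of the elements `elt`. `sum_sg`: `∏ l ∈ T, sg (δ l) * ∏ l ∈ T', sg (δ l)` is a product over all `l` of
functions of `δ l`; the sum over `δ : Fin n → Bool` is the product over `l` of `1 + (± 1)` (`Finset.prod_univ_sum`, `Fintype.piFinset_univ`), which is `2` if
`l ∈ T ↔ l ∈ T'` and `0` otherwise. `tT_elt_ne`: the points of `elt` have components zero outside the colour `j` (`inj`, `trk`), so `vpt` for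
`j' ≠ j` is zero; `tS_single`: zero. `tT_elt`: by `sep` (LibER34/Tst.lean) it is enough to compute `lam`; `lam_tT` (C2) for one
`dy c E κ j y (cS δ (ins M p))`: the matrix is `cjm δ (ins M p).1`, `f` of it is `(∏ l ∈ T', sg (δ l)) * fS j T' M' M` (`fS_cjm` (C5) and `fS` does not
see the block `j`: `blk_ins_ne`), the block `j` is `p.1.map (pc t (δ j))` (`blk_cjm`, `blk_ins_self`) and `lam (vpt (vy v y)) = tc ω (pc t (δ j) (p.2 x)) * lam y`
(`Rk_lam_smk`, `trk_self` twice, `vbl_ins`), so the difference gives `2 * cjB (δ j) (Xv p.1 (tc p.2) s) * lam y` (`Xv_cjB`, `map_tc_pc`, `tc_pc`, `Rk_Xv_smul`; the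
second term is the negative of the first). The sum over `p` is `cjB (δ j) k = k` (`k` integral: compare `Rk_lam_w`), the sum over `δ` is `sum_sg`.
-/

open WeierstrassCurve Pool.Agent.LibBH2 Pool.Agent.LibIG50 Pool.Agent.LibCHd Pool.Agent.LibGG
  Pool.Agent.LibAC34 Pool.Agent.LibAF11 Pool.Agent.LibER34 Pool.Agent.LibEQ34
open scoped Classical ComplexConjugate

namespace Pool.Agent.LibEX75

variable {K : Type} [Field K] [Algebra K Qb] {n r D : ℕ}

theorem sum_sg (T T' : Finset (Fin n)) : ∑ δ : Fin n → Bool,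
    (∏ l ∈ T, sg (δ l)) * (∏ l ∈ T', sg (δ l)) = if T = T' then 2 ^ n else 0 := by
  have h1 : ∀ (T : Finset (Fin n)) (δ : Fin n → Bool),
      ∏ l ∈ T, sg (δ l) = ∏ l, if l ∈ T then sg (δ l) else 1 := by
    intro T δ
    rw [Finset.prod_ite_mem, Finset.univ_inter]
  have h2 : ∀ δ : Fin n → Bool, (∏ l ∈ T, sg (δ l)) * (∏ l ∈ T', sg (δ l)) =
      ∏ l, (fun (l : Fin n) (b : Bool) =>
        (if l ∈ T then sg b else 1) * (if l ∈ T' then sg b else 1)) l (δ l) := by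
    intro δ
    rw [h1 T, h1 T', ← Finset.prod_mul_distrib]
  rw [Finset.sum_congr rfl fun δ _ => h2 δ]
  have h3 := Finset.prod_univ_sum (fun _ : Fin n => (Finset.univ : Finset Bool))
    (fun (l : Fin n) (b : Bool) => (if l ∈ T then sg b else 1) * (if l ∈ T' then sg b else 1))
  rw [Fintype.piFinset_univ] at h3
  rw [← h3]
  by_cases hT : T = T'
  · subst hT
    rw [if_pos rfl]
    have h4 : ∀ l ∈ (Finset.univ : Finset (Fin n)), ∑ b ∈ (Finset.univ : Finset Bool),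
        (if l ∈ T then sg b else 1) * (if l ∈ T then sg b else 1) = 2 := by
      intro l _
      rw [Fintype.sum_bool]
      by_cases h : l ∈ T
      · rw [if_pos h, if_pos h]
        rfl
      · rw [if_neg h, if_neg h]
        rfl
    rw [Finset.prod_congr rfl h4, Finset.prod_const, Finset.card_univ, Fintype.card_fin]
  · rw [if_neg hT]
    have h5 : ∃ l, ¬ (l ∈ T ↔ l ∈ T') := by
      by_contra h
      push Not at h
      exact hT (Finset.ext h)
    obtain ⟨l, hl⟩ := h5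
    refine Finset.prod_eq_zero (Finset.mem_univ l) ?_
    rw [Fintype.sum_bool]
    by_cases h : l ∈ T
    · have h' : l ∉ T' := fun h' => hl ⟨fun _ => h', fun _ => h⟩
      rw [if_pos h, if_neg h', if_pos h, if_neg h']
      rfl
    · have h' : l ∈ T' := by
        by_contra h'
        exact hl ⟨fun a => absurd a h, fun a => absurd a h'⟩
      rw [if_neg h, if_pos h', if_neg h, if_pos h']
      rfl

private theorem D2_smk_zero {E : WeierstrassCurve Qb} (w : Hm E E) (q : ℤ × ℤ) :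
    smk w q (0 : E.toAffine.Point) = 0 := by
  rw [smk, show w.k0 0 = 0 from map_zero w.k0H, smul_zero, smul_zero, add_zero]

private theorem D2_vpt_ne {c : CM} {E : Fin n → WeierstrassCurve K}
    (inj : ∀ i j, (E i)⁄Qb = (E j)⁄Qb → i = j) (κ : Fin r → Fin n)
    {j j' : Fin n} (hj : j' ≠ j) (v : Fin r → ℤ × ℤ) (y : ((E j)⁄Qb).toAffine.Point)
    (x : Fin (num κ j')) : vpt E κ j' (vy c E κ j v y) x = 0 := by
  unfold vpt vy
  have h1 : (E j)⁄Qb ≠ prd E κ (ix κ j' x).1 := by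
    intro h
    exact hj ((ix κ j' x).2.symm.trans (inj _ _ h).symm)
  rw [trk_ne h1]
  by_cases h2 : prd E κ (ix κ j' x).1 = (E j')⁄Qb
  · have h3 : ∀ (V W : WeierstrassCurve Qb), V = W → trk V W (0 : V.toAffine.Point) = 0 := by
      intro V W h
      subst h
      exact trk_self _
    exact h3 _ _ h2
  · exact trk_ne h2 _

private theorem D2_dy_ne {c : CM} {E : Fin n → WeierstrassCurve K}
    (inj : ∀ i j, (E i)⁄Qb = (E j)⁄Qb → i = j) (κ : Fin r → Fin n) (μ : Fin D → Fin n)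
    {j j' : Fin n} (hj : j' ≠ j)
    (y : ((E j)⁄Qb).toAffine.Point) (f : Matrix (Fin r) (Fin D) (ℤ × ℤ) → ℤ)
    (s : Sb (num κ j') (num μ j') × Sb (num κ j') (num μ j' + 1))
    (q : Matrix (Fin r) (Fin D) (ℤ × ℤ) × (Fin r → ℤ × ℤ)) :
    tT c E κ μ j' f s (dy c E κ j y q) = 0 := by
  have h1 : ∀ z : ((E j)⁄Qb).toAffine.Point,
      tT c E κ μ j' f s (Finsupp.single (q.1, vy c E κ j q.2 z) 1) = 0 := by
    intro z
    rw [tT_single, tS_single]
    have h2 : ∀ i ∈ (Finset.univ : Finset (Fin (num κ j'))),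
        smk (c.w ((E j')⁄Qb)) (coef c ((E j')⁄Qb) (blk κ μ j' q.1) s i)
          (vpt E κ j' (vy c E κ j q.2 z) i) = 0 := by
      intro i _
      rw [D2_vpt_ne inj κ hj, D2_smk_zero]
    rw [Finset.sum_congr rfl h2, Finset.sum_const_zero, smul_zero]
  rw [dy, map_sub, h1, h1, sub_self]

theorem tT_elt_ne {c : CM} {E : Fin n → WeierstrassCurve K}
    (inj : ∀ i j, (E i)⁄Qb = (E j)⁄Qb → i = j) (κ : Fin r → Fin n) (μ : Fin D → Fin n)
    {j j' : Fin n} (hj : j' ≠ j) (T : Finset (Fin n)) (M : Matrix (Fin r) (Fin D) (ℤ × ℤ))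
    (y : ((E j)⁄Qb).toAffine.Point)
    (x : (Matrix (Fin (num κ j)) (Fin (num μ j)) (ℤ × ℤ) × (Fin (num κ j) → ℤ × ℤ)) →₀ ℤ)
    (f : Matrix (Fin r) (Fin D) (ℤ × ℤ) → ℤ)
    (s : Sb (num κ j') (num μ j') × Sb (num κ j') (num μ j' + 1)) :
    tT c E κ μ j' f s (elt c E κ μ j T M y x) = 0 := by
  rw [elt, map_sum]
  refine Finset.sum_eq_zero fun δ _ => ?_
  rw [map_zsmul, map_sum, Finset.sum_eq_zero, smul_zero]
  intro p _
  rw [map_zsmul, D2_dy_ne inj κ μ hj]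
  exact zsmul_zero _

private theorem D2_lam_vpt {c : CM} {E : Fin n → WeierstrassCurve K} (κ : Fin r → Fin n)
    (j : Fin n) (v : Fin r → ℤ × ℤ) (y : ((E j)⁄Qb).toAffine.Point)
    (lam : ((E j)⁄Qb).toAffine.Point →+ ℂ)
    (hlam : ∀ P, lam ((c.w ((E j)⁄Qb)).k0 P) = c.ω ((E j)⁄Qb) * lam P) (x : Fin (num κ j)) :
    lam (vpt E κ j (vy c E κ j v y) x) = tc (c.ω ((E j)⁄Qb)) (vbl κ j v x) * lam y := by
  have h1 : ∀ (i : Fin n) (_ : i = j) (z : ((E j)⁄Qb).toAffine.Point),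
      trk ((E i)⁄Qb) ((E j)⁄Qb) (trk ((E j)⁄Qb) ((E i)⁄Qb) z) = z := by
    intro i hi z
    subst hi
    rw [trk_self, trk_self]
  have h2 : vpt E κ j (vy c E κ j v y) x = smk (c.w ((E j)⁄Qb)) (vbl κ j v x) y :=
    h1 (κ (ix κ j x).1) (ix κ j x).2 _
  rw [h2, Rk_lam_smk lam hlam]

private theorem D2_lam_dy {c : CM} {E : Fin n → WeierstrassCurve K} (κ : Fin r → Fin n)
    (μ : Fin D → Fin n) (j : Fin n) (y : ((E j)⁄Qb).toAffine.Point)
    (lam : ((E j)⁄Qb).toAffine.Point →+ ℂ)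
    (hlam : ∀ P, lam ((c.w ((E j)⁄Qb)).k0 P) = c.ω ((E j)⁄Qb) * lam P)
    (f : Matrix (Fin r) (Fin D) (ℤ × ℤ) → ℤ)
    (s : Sb (num κ j) (num μ j) × Sb (num κ j) (num μ j + 1))
    (q : Matrix (Fin r) (Fin D) (ℤ × ℤ) × (Fin r → ℤ × ℤ)) :
    lam (tT c E κ μ j f s (dy c E κ j y q)) = 2 * ((f q.1 : ℂ) *
      Xv ((blk κ μ j q.1).map (tc (c.ω ((E j)⁄Qb))))
        (fun x => tc (c.ω ((E j)⁄Qb)) (vbl κ j q.2 x)) s * lam y) := by
  have h1 : ∀ z : ((E j)⁄Qb).toAffine.Point,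
      lam (tT c E κ μ j f s (Finsupp.single (q.1, vy c E κ j q.2 z) 1)) = (f q.1 : ℂ) *
      Xv ((blk κ μ j q.1).map (tc (c.ω ((E j)⁄Qb))))
        (fun x => tc (c.ω ((E j)⁄Qb)) (vbl κ j q.2 x)) s * lam z := by
    intro z
    rw [lam_tT c E κ μ j s f lam hlam, Finsupp.sum_single_index (by simp)]
    have h2 : (fun x => lam (vpt E κ j (vy c E κ j q.2 z) x)) =
        fun x => tc (c.ω ((E j)⁄Qb)) (vbl κ j q.2 x) * lam z :=
      funext fun x => D2_lam_vpt κ j q.2 z lam hlam x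
    dsimp only
    rw [h2, Rk_Xv_smul]
    push_cast
    ring
  rw [dy, map_sub, map_sub, h1, h1, map_neg]
  ring

private theorem D2_lam_cS {c : CM} {E : Fin n → WeierstrassCurve K} (κ : Fin r → Fin n)
    (μ : Fin D → Fin n) (j : Fin n) {T' : Finset (Fin n)} (hT' : T' ⊆ Finset.univ.erase j)
    (M M' : Matrix (Fin r) (Fin D) (ℤ × ℤ)) (y : ((E j)⁄Qb).toAffine.Point)
    (lam : ((E j)⁄Qb).toAffine.Point →+ ℂ)
    (hlam : ∀ P, lam ((c.w ((E j)⁄Qb)).k0 P) = c.ω ((E j)⁄Qb) * lam P)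
    (s : Sb (num κ j) (num μ j) × Sb (num κ j) (num μ j + 1)) (δ : Fin n → Bool)
    (p : Matrix (Fin (num κ j)) (Fin (num μ j)) (ℤ × ℤ) × (Fin (num κ j) → ℤ × ℤ)) :
    lam (tT c E κ μ j (fS c E κ μ j T' M') s (dy c E κ j y (cS c E κ δ (ins κ μ j M p)))) =
      ((∏ l ∈ T', sg (δ l) : ℤ) : ℂ) * (2 * (fS c E κ μ j T' M' M : ℂ) * lam y) *
        cjB (δ j) (Xv (p.1.map (tc (c.ω ((E j)⁄Qb))))
          (fun i => tc (c.ω ((E j)⁄Qb)) (p.2 i)) s) := by
  rw [D2_lam_dy κ μ j y lam hlam]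
  have h1 : (cS c E κ δ (ins κ μ j M p)).1 = cjm c E κ δ (ins κ μ j M p).1 := rfl
  have h2 : fS c E κ μ j T' M' (ins κ μ j M p).1 = fS c E κ μ j T' M' M := by
    unfold fS
    refine Finset.prod_congr rfl fun l hl => ?_
    rw [blk_ins_ne (Finset.mem_erase.1 hl).1]
  have h3 : ∀ x, vbl κ j (cS c E κ δ (ins κ μ j M p)).2 x =
      pc (c.t ((E j)⁄Qb)) (δ j) (p.2 x) := by
    intro x
    have h4 : vbl κ j (ins κ μ j M p).2 x = p.2 x := congrFun vbl_ins x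
    rw [← h4]
    show pc (c.t ((E (κ (ix κ j x).1))⁄Qb)) (δ (κ (ix κ j x).1)) _ = _
    rw [(ix κ j x).2]
    rfl
  have h5 : (fun x => tc (c.ω ((E j)⁄Qb)) (vbl κ j (cS c E κ δ (ins κ μ j M p)).2 x)) =
      fun x => cjB (δ j) (tc (c.ω ((E j)⁄Qb)) (p.2 x)) := by
    funext x
    rw [h3, tc_pc (c.trace ((E j)⁄Qb))]
  rw [h5, h1, blk_cjm, blk_ins_self, map_tc_pc (c.trace ((E j)⁄Qb)), Xv_cjB,
    fS_cjm c E κ μ j hT', h2]
  push_cast
  ring

theorem tT_elt {c : CM} {E : Fin n → WeierstrassCurve K}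
    (inj : ∀ i j, (E i)⁄Qb = (E j)⁄Qb → i = j) (κ : Fin r → Fin n) (μ : Fin D → Fin n)
    (j : Fin n) {T T' : Finset (Fin n)} (hT : T ⊆ Finset.univ.erase j)
    (hT' : T' ⊆ Finset.univ.erase j) (M M' : Matrix (Fin r) (Fin D) (ℤ × ℤ))
    (y : ((E j)⁄Qb).toAffine.Point)
    (x : (Matrix (Fin (num κ j)) (Fin (num μ j)) (ℤ × ℤ) × (Fin (num κ j) → ℤ × ℤ)) →₀ ℤ)
    (s : Sb (num κ j) (num μ j) × Sb (num κ j) (num μ j + 1)) (k : ℤ)
    (hk : (x.sum fun p m => (m : ℂ) * Xv (p.1.map (tc (c.ω ((E j)⁄Qb))))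
      (fun i => tc (c.ω ((E j)⁄Qb)) (p.2 i)) s) = k) :
    IsOfFinAddOrder (tT c E κ μ j (fS c E κ μ j T' M') s (elt c E κ μ j T M y x) -
      (if T = T' then 2 ^ (n + 1) * k * fS c E κ μ j T M' M else 0) • y) := by
  refine sep c ((E j)⁄Qb) _ fun lam hlam => ?_
  have hcj : ∀ ε : Bool, ∑ p ∈ x.support, (x p : ℂ) * cjB ε (Xv (p.1.map (tc (c.ω ((E j)⁄Qb))))
      (fun i => tc (c.ω ((E j)⁄Qb)) (p.2 i)) s) = k := by
    intro ε
    cases ε
    · exact hk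
    · have h1 := congrArg conj hk
      rw [Finsupp.sum, map_sum, map_intCast] at h1
      rw [← h1]
      refine Finset.sum_congr rfl fun p _ => ?_
      rw [map_mul, map_intCast]
      rfl
  have h1 : lam (tT c E κ μ j (fS c E κ μ j T' M') s (elt c E κ μ j T M y x)) =
      ∑ δ : Fin n → Bool, (((∏ l ∈ T, sg (δ l)) * (∏ l ∈ T', sg (δ l)) : ℤ) : ℂ) *
        (2 * (fS c E κ μ j T' M' M : ℂ) * lam y * k) := by
    rw [elt, map_sum, map_sum]
    refine Finset.sum_congr rfl fun δ _ => ?_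
    rw [map_zsmul, map_zsmul, map_sum, map_sum, zsmul_eq_mul]
    have h2 : ∀ p ∈ x.support, lam (tT c E κ μ j (fS c E κ μ j T' M') s
        (x p • dy c E κ j y (cS c E κ δ (ins κ μ j M p)))) =
        ((∏ l ∈ T', sg (δ l) : ℤ) : ℂ) * (2 * (fS c E κ μ j T' M' M : ℂ) * lam y) *
        ((x p : ℂ) * cjB (δ j) (Xv (p.1.map (tc (c.ω ((E j)⁄Qb))))
          (fun i => tc (c.ω ((E j)⁄Qb)) (p.2 i)) s)) := by
      intro p _
      rw [map_zsmul, map_zsmul, zsmul_eq_mul, D2_lam_cS κ μ j hT' M M' y lam hlam]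
      ring
    rw [Finset.sum_congr rfl h2, ← Finset.mul_sum, hcj]
    push_cast
    ring
  rw [map_sub, map_zsmul, zsmul_eq_mul, h1, ← Finset.sum_mul, ← Int.cast_sum, sum_sg]
  by_cases h : T = T'
  · subst h
    rw [if_pos rfl, if_pos rfl]
    push_cast
    ring
  · rw [if_neg h, if_neg h]
    push_cast
    ring

end Pool.Agent.LibEX75
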