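import Pool.Agent.LibEX75.D1
import Pool.Agent.LibEX75.B3

/-!
[EX75 D3] the elements `elt` are homologically trivial combinations over `K`. The support (`MatC`: `mat_iff`, `Blk_ins`, `ins_prop`, `mat_cjm`; the components of the points:
`smk w (v i) y ∈ Γ` by `hSt`, `trk`), as in `Rk_dif_mem` (LibER34/Rk.lean); homologically trivial: the two terms of `dy` have the same matrix, so `nmM` is zero on `dy`; Galois:
`(elt).mapDomain (acM c E κ (e σ) σ) = ∑ δ, (∏ l ∈ T, sg (δ l)) • ∑ p, x p • dy (gal σ y) (cS (e σ) (cS δ p'))` (`dy_acM`), `gal σ y = (∏ l ∈ T, sg (e σ l)) • y` (`hy.2 σ`, `dy_sg`),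
`∏ sg (δ l) * ∏ sg (e σ l) = ∏ sg (xor (e σ l) (δ l))`, `cS_cS`, and the sum over `δ` is reindexed by the involution `δ ↦ fun l => xor (e σ l) (δ l)`
(`Equiv.sum_comp`, `Function.Involutive.toPerm`).
-/

open WeierstrassCurve Pool.Agent.LibBH2 Pool.Agent.LibIG50 Pool.Agent.LibCHd Pool.Agent.LibGG
  Pool.Agent.LibAC34 Pool.Agent.LibAF11 Pool.Agent.LibER34 Pool.Agent.LibEQ34
open scoped Classical ComplexConjugate

namespace Pool.Agent.LibEX75

variable {K : Type} [Field K] [Algebra K Qb] {n r D : ℕ}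

theorem D3_trk {Γ : Grid} {V W : WeierstrassCurve Qb} {p : V.toAffine.Point} (hp : p ∈ Γ V) :
    trk V W p ∈ Γ W := by
  by_cases h : V = W
  · subst h
    rwa [trk_self]
  · rw [trk_ne h]
    exact zero_mem _

theorem D3_sg (a b : Bool) : sg a * sg b = sg (xor b a) := by
  cases a <;> cases b <;> rfl

/-- the conditions without the Galois group -/
noncomputable def D3_Z (Γ : Grid) (c : CM) (E : Fin n → WeierstrassCurve K) (κ : Fin r → Fin n)
    (μ : Fin D → Fin n) : AddSubgroup (PM E κ D →₀ ℤ) where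
  carrier := {b | (∀ p ∈ b.support,
      MatC c (prd E μ) (prd E κ) p.1 ∧ ∀ i, p.2 i ∈ Γ (prd E κ i)) ∧
    ∀ M, MatC c (prd E μ) (prd E κ) M → nmM c M b = 0}
  zero_mem' := ⟨fun p hp => absurd hp (by simp), fun M _ => map_zero _⟩
  add_mem' := by
    rintro b b' ⟨h1, h3⟩ ⟨h1', h3'⟩
    refine ⟨fun p hp => ?_, fun M hM => ?_⟩
    · rcases Finset.mem_union.1 (Finsupp.support_add hp) with h | h
      · exact h1 p h
      · exact h1' p h
    · rw [map_add, h3 M hM, h3' M hM, add_zero]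
  neg_mem' := by
    rintro b ⟨h1, h3⟩
    refine ⟨fun p hp => h1 p (by rwa [Finsupp.support_neg] at hp), fun M hM => ?_⟩
    rw [map_neg, h3 M hM, neg_zero]

theorem D3_dy_mem {Γ : Grid} {c : CM} {E : Fin n → WeierstrassCurve K}
    (hSt : ∀ i, ∀ P ∈ Γ ((E i)⁄Qb), (c.w ((E i)⁄Qb)).k0 P ∈ Γ ((E i)⁄Qb))
    (κ : Fin r → Fin n) (μ : Fin D → Fin n) (j : Fin n) {y : ((E j)⁄Qb).toAffine.Point}
    (hy : y ∈ Γ ((E j)⁄Qb)) (p : Matrix (Fin r) (Fin D) (ℤ × ℤ) × (Fin r → ℤ × ℤ))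
    (hp : MatC c (prd E μ) (prd E κ) p.1) : dy c E κ j y p ∈ D3_Z Γ c E κ μ := by
  have hv : ∀ z ∈ Γ ((E j)⁄Qb), ∀ i, vy c E κ j p.2 z i ∈ Γ (prd E κ i) := by
    intro z hz i
    refine D3_trk ?_
    rw [smk]
    exact add_mem (zsmul_mem hz _) (zsmul_mem (hSt j z hz) _)
  refine ⟨fun P hP => ?_, fun M hM => ?_⟩
  · rcases Finset.mem_union.1 (Finsupp.support_sub hP) with h1 | h1
    · rw [Finset.mem_singleton.1 (Finsupp.support_single_subset h1)]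
      exact ⟨hp, hv y hy⟩
    · rw [Finset.mem_singleton.1 (Finsupp.support_single_subset h1)]
      exact ⟨hp, hv (-y) (neg_mem hy)⟩
  · rw [dy, map_sub, nmM, Finsupp.liftAddHom_apply_single, Finsupp.liftAddHom_apply_single]
    exact sub_self _

theorem elt_mem {Γ : Grid} {c : CM} {E : Fin n → WeierstrassCurve K}
    (inj : ∀ i j, (E i)⁄Qb = (E j)⁄Qb → i = j)
    {e : (Qb ≃ₐ[K] Qb) → Fin n → Bool} (he : ∀ l, GalW c (E l) (fun σ => e σ l))
    (hSt : ∀ i, ∀ P ∈ Γ ((E i)⁄Qb), (c.w ((E i)⁄Qb)).k0 P ∈ Γ ((E i)⁄Qb))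
    (κ : Fin r → Fin n) (μ : Fin D → Fin n) (j : Fin n) (T : Finset (Fin n))
    {M : Matrix (Fin r) (Fin D) (ℤ × ℤ)} (hM : MatC c (prd E μ) (prd E κ) M)
    {y : ((E j)⁄Qb).toAffine.Point} (hy : y ∈ GTg Γ E e j T)
    (x : (Matrix (Fin (num κ j)) (Fin (num μ j)) (ℤ × ℤ) × (Fin (num κ j) → ℤ × ℤ)) →₀ ℤ)
    (hx : (c.ω ((E j)⁄Qb)).im = 0 → ∀ p ∈ x.support, ∀ i, (p.2 i).2 = 0 ∧ ∀ a, (p.1 i a).2 = 0) :
    elt c E κ μ j T M y x ∈ ZM Γ c E e κ μ := by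
  have hmat : ∀ p ∈ x.support, ∀ δ : Fin n → Bool,
      MatC c (prd E μ) (prd E κ) (cS c E κ δ (ins κ μ j M p)).1 := by
    intro p hp δ
    refine mat_cjm ?_ δ
    have hM' := (mat_iff inj).1 hM
    refine (mat_iff inj).2 ⟨Blk_ins hM'.1, fun i a => ?_⟩
    exact ins_prop (fun l (z : ℤ × ℤ) => (c.ω ((E l)⁄Qb)).im = 0 → z.2 = 0)
      (fun i a => hM'.2 i a) (fun i a h => (hx h p hp i).2 a) i a
  have h1 : elt c E κ μ j T M y x ∈ D3_Z Γ c E κ μ :=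
    sum_mem fun δ _ => zsmul_mem (sum_mem fun p hp =>
      zsmul_mem (D3_dy_mem hSt κ μ j hy.1 _ (hmat p hp δ)) _) _
  refine ⟨h1.1, fun σ => ?_, h1.2⟩
  let φ : (PM E κ D →₀ ℤ) →+ (PM E κ D →₀ ℤ) :=
    Finsupp.mapDomain.addMonoidHom (acM c E κ (e σ) σ)
  change φ (elt c E κ μ j T M y x) = _
  have h2 : ∀ q, φ (dy c E κ j y q) =
      (∏ l ∈ T, sg (e σ l)) • dy c E κ j y (cS c E κ (e σ) q) := by
    intro q
    have h3 := dy_acM inj he κ j σ y q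
    rw [hy.2 σ, dy_sg] at h3
    exact h3
  let g : (Fin n → Bool) → (PM E κ D →₀ ℤ) := fun δ => (∏ l ∈ T, sg (δ l)) •
    ∑ p ∈ x.support, x p • dy c E κ j y (cS c E κ δ (ins κ μ j M p))
  let iv : (Fin n → Bool) → (Fin n → Bool) := fun δ l => xor (e σ l) (δ l)
  have hiv : Function.Involutive iv := by
    intro δ
    funext l
    change xor (e σ l) (xor (e σ l) (δ l)) = δ l
    cases e σ l <;> cases δ l <;> rfl
  have h4 : ∀ δ, φ (g δ) = g (iv δ) := by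
    intro δ
    change φ ((∏ l ∈ T, sg (δ l)) •
      ∑ p ∈ x.support, x p • dy c E κ j y (cS c E κ δ (ins κ μ j M p))) =
      (∏ l ∈ T, sg (xor (e σ l) (δ l))) •
      ∑ p ∈ x.support, x p • dy c E κ j y (cS c E κ (iv δ) (ins κ μ j M p))
    have h5 : (∏ l ∈ T, sg (xor (e σ l) (δ l))) =
        (∏ l ∈ T, sg (δ l)) * ∏ l ∈ T, sg (e σ l) := by
      rw [← Finset.prod_mul_distrib]
      exact Finset.prod_congr rfl fun l _ => (D3_sg _ _).symm
    rw [h5, map_zsmul, map_sum, mul_smul]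
    congr 1
    rw [Finset.smul_sum]
    refine Finset.sum_congr rfl fun p _ => ?_
    rw [map_zsmul, h2, cS_cS]
    exact smul_comm _ _ _
  have h6 : elt c E κ μ j T M y x = ∑ δ, g δ := rfl
  rw [h6, map_sum, Finset.sum_congr rfl fun δ _ => h4 δ]
  exact Equiv.sum_comp hiv.toPerm g

end Pool.Agent.LibEX75
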