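import Pool.Agent.LibEX75.BD

/-!
[EX75 K0] the kernels `kz` and `ks` of one curve (elementary). `LibER34/Tst.lean`: the determinant of
`(M.map (tc ω))ᵀ * N.map (tc ω)` belongs to the order `RR ht hn` (`det_mem`; the entries are sums of
products of elements `tc ω p`), so it is `tc ω p`, and `normSq (tc ω p) = p.1 ^ 2 + t p.1 p.2 + n p.2 ^ 2` (as
`tc ω p * conj (tc ω p)`, `tc_conj`) is an integer, hence equal to its floor (`Int.floor_intCast`).
Symmetry: the transpose. `pc t true` acts as the conjugation (`map_tc_pc`, `tc_pc`, `cjB`), which commutes with the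
determinant (`conj_det` in LibER34/Crit.lean), and `Complex.normSq_conj`.
-/

open Pool.Agent.LibER34 Pool.Agent.LibEQ34
open scoped Classical ComplexConjugate

namespace Pool.Agent.LibEX75

variable {r d : ℕ} {ω : ℂ} {t n : ℤ}

theorem K0_int {ω : ℂ} {t n : ℤ} (ht : ω + conj ω = t) (hn : ω * conj ω = n) (p : ℤ × ℤ) :
    ∃ m : ℤ, Complex.normSq (tc ω p) = (m : ℝ) := by
  refine ⟨p.1 ^ 2 + t * (p.1 * p.2) + n * p.2 ^ 2, ?_⟩
  have h : ((Complex.normSq (tc ω p) : ℝ) : ℂ) =
      ((p.1 ^ 2 + t * (p.1 * p.2) + n * p.2 ^ 2 : ℤ) : ℂ) := by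
    rw [← Complex.mul_conj, tc_conj ht]
    unfold tc
    push_cast
    linear_combination (p.2 : ℂ) ^ 2 * (-ω * ht + hn)
  exact_mod_cast h

theorem K0_det {ω : ℂ} {t n : ℤ} (ht : ω + conj ω = t) (hn : ω * conj ω = n)
    (M N : Matrix (Fin r) (Fin d) (ℤ × ℤ)) :
    ∃ p : ℤ × ℤ, tc ω p = ((M.map (tc ω)).transpose * N.map (tc ω)).det := by
  have h : ((M.map (tc ω)).transpose * N.map (tc ω)).det ∈ RR ht hn := by
    refine det_mem _ _ fun x y => ?_
    rw [Matrix.mul_apply]
    refine sum_mem fun i _ => (RR ht hn).mul_mem ⟨_, rfl⟩ ⟨_, rfl⟩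
  exact h

theorem K0_conj {ω : ℂ} {t : ℤ} (ht : ω + conj ω = t) (N : Matrix (Fin r) (Fin d) (ℤ × ℤ)) :
    (N.map (pc t true)).map (tc ω) = (N.map (tc ω)).map conj := by
  rw [map_tc_pc ht]
  rfl

theorem K0_pcpc (t : ℤ) (N : Matrix (Fin r) (Fin d) (ℤ × ℤ)) :
    (N.map (pc t true)).map (pc t true) = N := by
  ext1 i a
  exact pc_pc t true _

theorem kz_cast (ht : ω + conj ω = t) (hn : ω * conj ω = n)
    (M N : Matrix (Fin r) (Fin d) (ℤ × ℤ)) : ((kz ω M N : ℤ) : ℝ) =
      Complex.normSq (((M.map (tc ω)).transpose * N.map (tc ω)).det) := by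
  obtain ⟨p, hp⟩ := K0_det ht hn M N
  obtain ⟨m, hm⟩ := K0_int ht hn p
  rw [kz, ← hp, hm, Int.floor_intCast]

theorem kz_symm (M N : Matrix (Fin r) (Fin d) (ℤ × ℤ)) : kz ω M N = kz ω N M := by
  rw [kz, kz, ← Matrix.det_transpose, Matrix.transpose_mul, Matrix.transpose_transpose]

theorem kz_pc (ht : ω + conj ω = t) (M N : Matrix (Fin r) (Fin d) (ℤ × ℤ)) :
    kz ω (M.map (pc t true)) (N.map (pc t true)) = kz ω M N := by
  rw [kz, kz, K0_conj ht, K0_conj ht]
  have h : ((M.map (tc ω)).map conj).transpose * (N.map (tc ω)).map conj =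
      ((M.map (tc ω)).transpose * N.map (tc ω)).map conj := by
    rw [Matrix.map_mul]
    rfl
  have h2 : (((M.map (tc ω)).transpose * N.map (tc ω)).map conj).det =
      conj (((M.map (tc ω)).transpose * N.map (tc ω)).det) := by
    exact (RingHom.map_det (starRingEnd ℂ) _).symm
  rw [h, h2, Complex.normSq_conj]

/-- the conjugation can be moved to the other argument -/
theorem kz_pc' (ht : ω + conj ω = t) (M N : Matrix (Fin r) (Fin d) (ℤ × ℤ)) :
    kz ω (M.map (pc t true)) N = kz ω M (N.map (pc t true)) := by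
  conv_lhs => rw [← K0_pcpc t N]
  exact kz_pc ht _ _

theorem ks_symm (ht : ω + conj ω = t) (b : Bool) (M N : Matrix (Fin r) (Fin d) (ℤ × ℤ)) :
    ks ω t b M N = ks ω t b N M := by
  rw [ks, ks, kz_symm M N, ← kz_pc' ht, kz_symm (M.map (pc t true)) N]

/-- the conjugation acts on the symmetric and on the antisymmetric part by the sign -/
theorem ks_pc (ht : ω + conj ω = t) (b s : Bool) (M N : Matrix (Fin r) (Fin d) (ℤ × ℤ)) :
    ks ω t b (M.map (pc t s)) N = (if b then sg s else 1) * ks ω t b M N := by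
  cases s
  · have h : M.map (pc t false) = M := by
      ext1 i a
      rfl
    rw [h]
    cases b <;> simp [sg]
  · rw [ks, ks, kz_pc ht, kz_pc' ht]
    cases b
    · simp only [sg, Bool.false_eq_true, if_false]
      ring
    · simp only [sg, if_true]
      ring

theorem ks_add (M N : Matrix (Fin r) (Fin d) (ℤ × ℤ)) :
    ks ω t false M N + ks ω t true M N = 2 * kz ω M N := by
  rw [ks, ks]
  simp only [sg, Bool.false_eq_true, if_false, if_true]
  ring

theorem kz_smul (ht : ω + conj ω = t) (hn : ω * conj ω = n) (m : ℤ)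
    (M N : Matrix (Fin r) (Fin d) (ℤ × ℤ)) :
    kz ω (fun i a => m • M i a) N = m ^ (2 * d) * kz ω M N := by
  have h : ((kz ω (fun i a => m • M i a) N : ℤ) : ℝ) = ((m ^ (2 * d) * kz ω M N : ℤ) : ℝ) := by
    push_cast
    rw [kz_cast ht hn, kz_cast ht hn]
    have h1 : Matrix.map (fun i a => m • M i a) (tc ω) = (m : ℂ) • M.map (tc ω) := by
      ext i a
      rw [Matrix.map_apply, Matrix.smul_apply, Matrix.map_apply, tc, tc]
      simp only [Prod.smul_fst, Prod.smul_snd, smul_eq_mul]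
      push_cast
      ring
    have h2 : (Matrix.map (fun i a => m • M i a) (tc ω)).transpose * N.map (tc ω) =
        (m : ℂ) • ((M.map (tc ω)).transpose * N.map (tc ω)) := by
      rw [h1, Matrix.transpose_smul, Matrix.smul_mul]
    rw [h2, Matrix.det_smul, Fintype.card_fin, map_mul, map_pow, Complex.normSq_intCast]
    ring
  exact_mod_cast h

end Pool.Agent.LibEX75
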