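import Pool.Agent.LibEX75.BD
import Pool.Agent.LibER34.LaCM
import Pool.Agent.LibER34.LaR

/-!
[EX75 L1] a dual form of `LA` (linear algebra). `LA` gives `ι`, `x`, `κ`. The integral matrix `A β β' = κ β (ι β')` is invertible over `ℚ`: if
`∑ e β A β β' = 0` for all `β'` then, by the first part of `LA` (summed over `x β`: `n_s * κ β s = ∑ a β' κ β (ι β')`), `∑ e β κ β s = 0` for all `s`, so `e = 0` by the last part of
`LA`. So `N = det A ≠ 0` (`Matrix.exists_vecMul_eq_zero_iff` over `ℤ` or `ℚ`), and with the adjugate `C` (`C * A = N`) the combinations `x' β = ∑ γ, C β γ • x γ` have the values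
`∑ γ, C β γ κ γ (ι β') = N δ` (sums over `Finsupp.sum`: `Finsupp.sum_add_index'`, `Finsupp.sum_smul_index`; or use the additive map `Finsupp.liftAddHom`).
-/

open WeierstrassCurve Pool.Agent.LibBH2 Pool.Agent.LibIG50 Pool.Agent.LibCHd Pool.Agent.LibGG
  Pool.Agent.LibAC34 Pool.Agent.LibAF11 Pool.Agent.LibER34 Pool.Agent.LibEQ34
open scoped Classical ComplexConjugate

namespace Pool.Agent.LibEX75

/-- coordinates `ι` which determine all coordinates, and combinations with dual values -/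
def LAd (ω : ℂ) (r d : ℕ) (B : Type) [Fintype B] : Prop :=
  ∃ (ι : B → Sb r d × Sb r (d + 1))
    (x : B → (Matrix (Fin r) (Fin d) (ℤ × ℤ) × (Fin r → ℤ × ℤ)) →₀ ℤ) (N : ℤ), N ≠ 0 ∧
    (∀ s, ∃ (m : ℤ) (a : B → ℤ), m ≠ 0 ∧
      ∀ (N : Matrix (Fin r) (Fin d) (ℤ × ℤ)) (v : Fin r → ℂ),
        m * Xv (N.map (tc ω)) v s = ∑ β, a β * Xv (N.map (tc ω)) v (ι β)) ∧
    (ω.im = 0 → ∀ β, ∀ p ∈ (x β).support, ∀ i, (p.2 i).2 = 0 ∧ ∀ a, (p.1 i a).2 = 0) ∧
    (∀ β s, ∃ k : ℤ, ((x β).sum fun p m =>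
      (m : ℂ) * Xv (p.1.map (tc ω)) (fun i => tc ω (p.2 i)) s) = k) ∧
    ∀ β β', ((x β).sum fun p m =>
      (m : ℂ) * Xv (p.1.map (tc ω)) (fun i => tc ω (p.2 i)) (ι β')) =
        ((if β = β' then N else 0 : ℤ) : ℂ)

theorem lad_of_la {ω : ℂ} {r d : ℕ} {B : Type} [Fintype B] (h : LA ω r d B) : LAd ω r d B := by
  obtain ⟨⟨ι, hι⟩, x, κ, hx0, hκ, hind⟩ := h
  let L : Sb r d × Sb r (d + 1) →
      ((Matrix (Fin r) (Fin d) (ℤ × ℤ) × (Fin r → ℤ × ℤ)) →₀ ℤ) →+ ℂ := fun s =>
    Finsupp.liftAddHom fun p =>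
      (AddMonoidHom.mulRight (Xv (p.1.map (tc ω)) (fun i => tc ω (p.2 i)) s)).comp
        (Int.castAddHom ℂ)
  have hL : ∀ s y, L s y = y.sum fun p m =>
      (m : ℂ) * Xv (p.1.map (tc ω)) (fun i => tc ω (p.2 i)) s := by
    intro s y
    simp only [L, Finsupp.liftAddHom_apply]
    rfl
  have hκL : ∀ β s, L s (x β) = κ β s := fun β s => by rw [hL]; exact hκ β s
  let A : Matrix B B ℤ := fun β β' => κ β (ι β')
  have hdet : A.det ≠ 0 := by
    intro h0
    obtain ⟨e, he, he0⟩ := Matrix.exists_vecMul_eq_zero_iff.2 h0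
    apply he
    funext β
    refine hind e (fun s => ?_) β
    obtain ⟨n, a, hn, hs⟩ := hι s
    have key : ∀ β, (n : ℂ) * (κ β s : ℂ) = ∑ β', (a β' : ℂ) * (κ β (ι β') : ℂ) := by
      intro β
      rw [← hκL β s, hL, Finsupp.sum, Finset.mul_sum]
      have h2 : ∀ β', (κ β (ι β') : ℂ) = ∑ p ∈ (x β).support,
          ((x β p : ℤ) : ℂ) * Xv (p.1.map (tc ω)) (fun i => tc ω (p.2 i)) (ι β') := by
        intro β'
        rw [← hκL β (ι β'), hL, Finsupp.sum]
      simp_rw [h2, Finset.mul_sum]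
      rw [Finset.sum_comm]
      refine Finset.sum_congr rfl fun p _ => ?_
      rw [mul_left_comm, hs, Finset.mul_sum]
      refine Finset.sum_congr rfl fun β' _ => ?_
      ring
    have key2 : ∀ β, n * κ β s = ∑ β', a β' * κ β (ι β') := by
      intro β
      have := key β
      exact_mod_cast this
    have h3 : n * ∑ β, e β * κ β s = 0 := by
      rw [Finset.mul_sum]
      calc ∑ β, n * (e β * κ β s) = ∑ β, e β * ∑ β', a β' * κ β (ι β') :=
            Finset.sum_congr rfl fun β _ => by rw [← key2]; ring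
        _ = ∑ β', a β' * ∑ β, e β * κ β (ι β') := by
            simp_rw [Finset.mul_sum]
            rw [Finset.sum_comm]
            exact Finset.sum_congr rfl fun _ _ => Finset.sum_congr rfl fun _ _ => by ring
        _ = 0 := by
            refine Finset.sum_eq_zero fun β' _ => ?_
            have h4 := congrFun he0 β'
            have h5 : ∑ β, e β * κ β (ι β') = 0 := h4
            rw [h5, mul_zero]
    exact (mul_eq_zero.1 h3).resolve_left hn
  have hL' : ∀ β s, L s (∑ γ, A.adjugate β γ • x γ) =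
      ((∑ γ, A.adjugate β γ * κ γ s : ℤ) : ℂ) := by
    intro β s
    rw [map_sum]
    push_cast
    refine Finset.sum_congr rfl fun γ _ => ?_
    rw [map_zsmul, hκL, zsmul_eq_mul]
  refine ⟨ι, fun β => ∑ γ, A.adjugate β γ • x γ, A.det, hdet, hι, ?_, ?_, ?_⟩
  · intro h0 β p hp
    have h1 := Finsupp.support_finsetSum hp
    rw [Finset.mem_biUnion] at h1
    obtain ⟨γ, -, hγ⟩ := h1
    exact hx0 h0 γ p (Finsupp.support_smul hγ)
  · intro β s
    exact ⟨_, by rw [← hL, hL']⟩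
  · intro β β'
    rw [← hL, hL']
    congr 1
    have h1 := congrFun (congrFun (Matrix.adjugate_mul A) β) β'
    rw [Matrix.mul_apply] at h1
    have h2 : (A.det • (1 : Matrix B B ℤ)) β β' = if β = β' then A.det else 0 := by
      rw [Matrix.smul_apply, Matrix.one_apply]
      split_ifs <;> simp
    rw [← h2, ← h1]

end Pool.Agent.LibEX75
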