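import Pool.Agent.LibEX75.L1

/-!
[EX75 L2] the dual form for a curve.
-/

open WeierstrassCurve Pool.Agent.LibBH2 Pool.Agent.LibIG50 Pool.Agent.LibCHd Pool.Agent.LibGG
  Pool.Agent.LibAC34 Pool.Agent.LibAF11 Pool.Agent.LibER34 Pool.Agent.LibEQ34
open scoped Classical ComplexConjugate

namespace Pool.Agent.LibEX75

theorem L2_equiv {ω : ℂ} {r d : ℕ} {B B' : Type} [Fintype B] [Fintype B'] (e : B ≃ B')
    (h : LAd ω r d B) : LAd ω r d B' := by
  obtain ⟨ι, x, N, hN, h1, h2, h3, h4⟩ := h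
  refine ⟨fun β => ι (e.symm β), fun β => x (e.symm β), N, hN, fun s => ?_, fun h β => h2 h _,
    fun β s => h3 _ s, fun β β' => ?_⟩
  · obtain ⟨m, a, hm, ha⟩ := h1 s
    refine ⟨m, fun β => a (e.symm β), hm, fun N v => ?_⟩
    rw [ha N v]
    exact (Equiv.sum_comp e.symm (fun β => (a β : ℂ) * Xv (N.map (tc ω)) v (ι β))).symm
  · rw [h4]
    simp only [EmbeddingLike.apply_eq_iff_eq]

theorem lad (c : CM) (E : WeierstrassCurve Qb) (r d : ℕ) :
    LAd (c.ω E) r d (Fin (bw (c.ω E) r d)) := by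
  by_cases h : (c.ω E).im = 0
  · have h1 : bw (c.ω E) r d = LibMul34.mul r d := by
      rw [bw, if_pos h, LibMul34.mul_eq]
      rfl
    rw [h1, (c.real E h).1]
    exact lad_of_la (la_real r d)
  · have h1 : Fintype.card (Sb r d × Sb r (d + 1)) = bw (c.ω E) r d := by
      rw [bw, if_neg h, Fintype.card_prod, card_Sb, card_Sb]
    exact L2_equiv (Fintype.equivFinOfCardEq h1)
      (lad_of_la (la_cm _ _ _ (c.trace E) (c.norm E) h r d))

end Pool.Agent.LibEX75
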