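import Mathlib

/-!
[EX75 R0] the rank of a finite product of abelian groups (only Mathlib): induction on the finite type (`Fintype.induction_empty_option`, or reindex to `Fin`), with
`rank (A × B) = rank A + rank B` over `ℤ`: `rank_quotient_add_rank_of_isDomain` (or the current name) for the submodule `A × 0` of `A × B`, whose quotient is `B`.
-/

open scoped Classical

namespace Pool.Agent.LibEX75

theorem r0_prod (A B : Type) [AddCommGroup A] [AddCommGroup B] :
    Module.rank ℤ (A × B) = Module.rank ℤ A + Module.rank ℤ B := by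
  have h := rank_quotient_add_rank_of_isDomain (LinearMap.ker (LinearMap.snd ℤ A B))
  have h1 : Module.rank ℤ ((A × B) ⧸ LinearMap.ker (LinearMap.snd ℤ A B)) = Module.rank ℤ B :=
    (LinearMap.quotKerEquivOfSurjective (LinearMap.snd ℤ A B) LinearMap.snd_surjective).rank_eq
  have h2 : Module.rank ℤ (LinearMap.ker (LinearMap.snd ℤ A B)) = Module.rank ℤ A := by
    rw [LinearMap.ker_snd]
    exact (LinearEquiv.ofInjective (LinearMap.inl ℤ A B) LinearMap.inl_injective).rank_eq.symm
  rw [h1, h2] at h
  rw [← h, add_comm]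

theorem rank_pi_int {X : Type} [Fintype X] (G : X → Type) [∀ x, AddCommGroup (G x)] :
    Module.rank ℤ (∀ x, G x) = ∑ x, Module.rank ℤ (G x) := by
  suffices H : ∀ (X : Type) [Fintype X] (G : X → Type) [∀ x, AddCommGroup (G x)],
      Module.rank ℤ (∀ x, G x) = ∑ x, Module.rank ℤ (G x) from H X G
  intro X hX
  refine Fintype.induction_empty_option (P := fun X _ => ∀ (G : X → Type) [∀ x, AddCommGroup (G x)],
      Module.rank ℤ (∀ x, G x) = ∑ x, Module.rank ℤ (G x)) ?_ ?_ ?_ X
  · intro α β hβ e ih G _
    letI := Fintype.ofEquiv β e.symm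
    have h1 := ih (fun a => G (e a))
    rw [← (LinearEquiv.piCongrLeft ℤ G e).rank_eq, h1]
    exact Fintype.sum_equiv e _ _ (fun a => rfl)
  · intro G _
    rw [rank_subsingleton', Finset.univ_eq_empty, Finset.sum_empty]
  · intro α hα ih G _
    rw [(LinearEquiv.piOptionEquivProd ℤ).rank_eq, r0_prod, Fintype.sum_option, ih (fun a => G (some a))]

end Pool.Agent.LibEX75
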