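import Pool.Agent.LibEX75.R0

/-!
[EX75 R2] ranks of groups given by tests.
-/

open scoped Classical

namespace Pool.Agent.LibEX75

theorem R2_le {Z C V : Type} [AddCommGroup Z] [AddCommGroup C] [AddCommGroup V] (α : Z →+ C)
    (ψ : Z →+ V) (h : ∀ z, IsOfFinAddOrder (ψ z) → IsOfFinAddOrder (α z)) :
    Module.rank ℤ α.range ≤ Module.rank ℤ V := by
  rw [Module.rank_def, Module.rank_def]
  refine ciSup_le' fun ⟨s, hs⟩ => ?_
  choose z hz using fun a : s => a.1.2
  have hi : LinearIndependent ℤ (fun a : s => ψ (z a)) := by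
    have hs' : LinearIndependent ℤ (fun a : s => (a : α.range)) := hs
    rw [linearIndependent_iff'] at hs' ⊢
    intro t c hc i hi
    have h1 : IsOfFinAddOrder (ψ (∑ a ∈ t, c a • z a)) := by
      rw [map_sum]
      have h2 : ∑ a ∈ t, ψ (c a • z a) = ∑ a ∈ t, c a • ψ (z a) :=
        Finset.sum_congr rfl fun a _ => map_zsmul ψ _ _
      rw [h2, hc]
      exact IsOfFinAddOrder.zero
    obtain ⟨m, hm, hm'⟩ := isOfFinAddOrder_iff_nsmul_eq_zero.1 (h _ h1)
    have h3 := hs' t (fun a => (m : ℤ) * c a) (by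
      apply Subtype.ext
      rw [AddSubgroup.val_finsetSum, AddSubgroup.coe_zero, ← hm', map_sum, Finset.smul_sum]
      refine Finset.sum_congr rfl fun a _ => ?_
      rw [AddSubgroup.coe_zsmul, mul_smul, map_zsmul, hz a, natCast_zsmul]) i hi
    rcases mul_eq_zero.1 h3 with h4 | h4
    · exact absurd (by exact_mod_cast h4) hm.ne'
    · exact h4
  have h3 := hi.cardinal_le_rank
  rwa [Module.rank_def] at h3

theorem R2_ge {Z C V : Type} [AddCommGroup Z] [AddCommGroup C] [AddCommGroup V] (α : Z →+ C)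
    (ψ : Z →+ V) (h : ∀ z, IsOfFinAddOrder (α z) → IsOfFinAddOrder (ψ z))
    (hs : ∀ v : V, ∃ (m : ℤ) (z : Z), m ≠ 0 ∧ IsOfFinAddOrder (ψ z - m • v)) :
    Module.rank ℤ V ≤ Module.rank ℤ α.range := by
  rw [Module.rank_def, Module.rank_def]
  refine ciSup_le' fun ⟨s, hs1⟩ => ?_
  choose m z hm hz using fun a : s => hs a.1
  have hi : LinearIndependent ℤ (fun a : s => (⟨α (z a), ⟨z a, rfl⟩⟩ : α.range)) := by
    have hs' : LinearIndependent ℤ (fun a : s => (a : V)) := hs1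
    rw [linearIndependent_iff'] at hs' ⊢
    intro t c hc i hi
    have h1 : α (∑ a ∈ t, c a • z a) = 0 := by
      have h2 := congrArg Subtype.val hc
      rw [AddSubgroup.val_finsetSum, AddSubgroup.coe_zero] at h2
      rw [map_sum, ← h2]
      refine Finset.sum_congr rfl fun a _ => ?_
      rw [map_zsmul]
      rfl
    have h2 : IsOfFinAddOrder (ψ (∑ a ∈ t, c a • z a)) := h _ (by
      rw [h1]
      exact IsOfFinAddOrder.zero)
    have h3 : IsOfFinAddOrder (∑ a ∈ t, (c a * m a) • (a.1 : V)) := by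
      have h4 : ∀ a ∈ t, c a • (ψ (z a) - m a • a.1) ∈ AddCommGroup.torsion V :=
        fun a _ => AddSubgroup.zsmul_mem _ (show _ ∈ AddCommGroup.torsion V from hz a) _
      have h5 := sub_mem (show _ ∈ AddCommGroup.torsion V from h2) (sum_mem h4)
      have h6 : ψ (∑ a ∈ t, c a • z a) - ∑ a ∈ t, c a • (ψ (z a) - m a • a.1) =
          ∑ a ∈ t, (c a * m a) • (a.1 : V) := by
        rw [map_sum, ← Finset.sum_sub_distrib]
        refine Finset.sum_congr rfl fun a _ => ?_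
        rw [map_zsmul, smul_sub, sub_sub_cancel, mul_smul]
      rw [h6] at h5
      exact h5
    obtain ⟨k, hk, hk'⟩ := isOfFinAddOrder_iff_nsmul_eq_zero.1 h3
    have h7 := hs' t (fun a => (k : ℤ) * (c a * m a)) (by
      rw [← hk', Finset.smul_sum]
      refine Finset.sum_congr rfl fun a _ => ?_
      rw [mul_smul, natCast_zsmul]) i hi
    rcases mul_eq_zero.1 h7 with h8 | h8
    · exact absurd (by exact_mod_cast h8) hk.ne'
    · rcases mul_eq_zero.1 h8 with h9 | h9
      · exact h9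
      · exact absurd h9 (hm i)
  have h3 := hi.cardinal_le_rank
  rwa [Module.rank_def] at h3

theorem R2_pi {X : Type} [Fintype X] {G : X → Type} [∀ x, AddCommGroup (G x)] (f : ∀ x, G x) :
    IsOfFinAddOrder f ↔ ∀ x, IsOfFinAddOrder (f x) := by
  constructor
  · intro h x
    obtain ⟨n, hn, h'⟩ := isOfFinAddOrder_iff_nsmul_eq_zero.1 h
    exact isOfFinAddOrder_iff_nsmul_eq_zero.2 ⟨n, hn, congrFun h' x⟩
  · intro h
    choose n hn h' using fun x => isOfFinAddOrder_iff_nsmul_eq_zero.1 (h x)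
    refine isOfFinAddOrder_iff_nsmul_eq_zero.2 ⟨∏ x, n x, Finset.prod_pos fun x _ => hn x, ?_⟩
    funext x
    rw [Pi.smul_apply, ← Finset.prod_erase_mul Finset.univ n (Finset.mem_univ x), mul_smul, h' x,
      smul_zero]
    rfl

theorem rank_tests {Z C X : Type} [AddCommGroup Z] [AddCommGroup C] [Fintype X] (G : X → Type)
    [∀ x, AddCommGroup (G x)] (α : Z →+ C) (ψ : ∀ x, Z →+ G x)
    (h : ∀ z, IsOfFinAddOrder (α z) ↔ ∀ x, IsOfFinAddOrder (ψ x z))
    (hs : ∀ x (y : G x), ∃ (m : ℤ) (z : Z), m ≠ 0 ∧ IsOfFinAddOrder (ψ x z - m • y) ∧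
      ∀ x', x' ≠ x → IsOfFinAddOrder (ψ x' z)) :
    Module.rank ℤ α.range = ∑ x, Module.rank ℤ (G x) := by
  let Ψ : Z →+ (∀ x, G x) := Pi.addMonoidHom ψ
  have hΨ : ∀ z x, Ψ z x = ψ x z := fun z x => rfl
  rw [← rank_pi_int]
  refine le_antisymm (R2_le α Ψ fun z hz => (h z).2 fun x => (R2_pi _).1 hz x)
    (R2_ge α Ψ (fun z hz => (R2_pi _).2 ((h z).1 hz)) fun v => ?_)
  choose m z hm hz hz' using fun x => hs x (v x)
  refine ⟨∏ x, m x, ∑ x, (∏ y ∈ Finset.univ.erase x, m y) • z x,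
    Finset.prod_ne_zero_iff.2 fun x _ => hm x, (R2_pi _).2 fun x => ?_⟩
  have h1 : (Ψ (∑ x, (∏ y ∈ Finset.univ.erase x, m y) • z x) - (∏ x, m x) • v) x =
      (∏ y ∈ Finset.univ.erase x, m y) • (ψ x (z x) - m x • v x) +
        ∑ y ∈ Finset.univ.erase x, (∏ y' ∈ Finset.univ.erase y, m y') • ψ x (z y) := by
    rw [Pi.sub_apply, hΨ, map_sum, Pi.smul_apply,
      ← Finset.add_sum_erase Finset.univ _ (Finset.mem_univ x), map_zsmul, smul_sub, ← mul_smul,
      Finset.prod_erase_mul Finset.univ m (Finset.mem_univ x)]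
    have h2 : ∑ y ∈ Finset.univ.erase x, ψ x ((∏ y' ∈ Finset.univ.erase y, m y') • z y) =
        ∑ y ∈ Finset.univ.erase x, (∏ y' ∈ Finset.univ.erase y, m y') • ψ x (z y) :=
      Finset.sum_congr rfl fun y _ => map_zsmul _ _ _
    rw [h2]
    abel
  rw [h1]
  have h3 : (∏ y ∈ Finset.univ.erase x, m y) • (ψ x (z x) - m x • v x) +
        ∑ y ∈ Finset.univ.erase x, (∏ y' ∈ Finset.univ.erase y, m y') • ψ x (z y) ∈
      AddCommGroup.torsion (G x) :=
    add_mem (AddSubgroup.zsmul_mem _ (show _ ∈ AddCommGroup.torsion (G x) from hz x) _)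
      (sum_mem fun y hy => AddSubgroup.zsmul_mem _
        (show _ ∈ AddCommGroup.torsion (G x) from
          hz' y x (Finset.mem_erase.1 hy).1.symm) _)
  exact h3

end Pool.Agent.LibEX75
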