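import Pool.Agent.LibEX75.C3
import Pool.Agent.LibEX75.C5
import Pool.Agent.LibEX75.C6
import Pool.Agent.LibEX75.L2
import Pool.Agent.LibEX75.B4
import Pool.Agent.LibEX75.D3
import Pool.Agent.LibEX75.D2
import Pool.Agent.LibEX75.R2

/-!
[EX75 R1] the rank for one type.
-/

open WeierstrassCurve Pool.Agent.LibBH2 Pool.Agent.LibIG50 Pool.Agent.LibCHd Pool.Agent.LibGG
  Pool.Agent.LibAC34 Pool.Agent.LibAF11 Pool.Agent.LibER34 Pool.Agent.LibEQ34
open scoped Classical ComplexConjugate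

namespace Pool.Agent.LibEX75

variable {K : Type} [Field K] [Algebra K Qb] {n r D : ℕ}

theorem R1_symm (c : CM) (E : Fin n → WeierstrassCurve K) (κ : Fin r → Fin n) (μ : Fin D → Fin n)
    (j : Fin n) (T : Finset (Fin n)) (M N : Matrix (Fin r) (Fin D) (ℤ × ℤ)) :
    fS c E κ μ j T M N = fS c E κ μ j T N M :=
  Finset.prod_congr rfl fun l _ => ks_symm (c.trace _) _ _ _

theorem R1_tors {A : Type} [AddCommGroup A] {ι : Type} (s : Finset ι) (a : ι → ℤ) (f : ι → A)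
    (h : ∀ i ∈ s, IsOfFinAddOrder (f i)) : IsOfFinAddOrder (∑ i ∈ s, a i • f i) := by
  have h1 : ∑ i ∈ s, a i • f i ∈ AddCommGroup.torsion A :=
    sum_mem fun i hi => AddSubgroup.zsmul_mem _ (show _ ∈ AddCommGroup.torsion A from h i hi) _
  exact h1

theorem R1_sub {A B : Type} [AddCommGroup A] [AddCommGroup B] {ι : Type} (s : Finset ι)
    (a : ι → ℤ) (g : ι → ℤ) (f : ι → B) (t : B →+ A) (y : A) (m : ℤ)
    (h : ∀ i ∈ s, IsOfFinAddOrder (t (f i) - g i • y)) (hm : ∑ i ∈ s, a i * g i = m) :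
    IsOfFinAddOrder (t (∑ i ∈ s, a i • f i) - m • y) := by
  have h1 := R1_tors s a (fun i => t (f i) - g i • y) h
  have h2 : t (∑ i ∈ s, a i • f i) - m • y = ∑ i ∈ s, a i • (t (f i) - g i • y) := by
    rw [map_sum, ← hm, Finset.sum_smul, ← Finset.sum_sub_distrib]
    refine Finset.sum_congr rfl fun i _ => ?_
    rw [map_zsmul, smul_sub, mul_smul]
  rw [h2]
  exact h1

theorem R1_card {n : ℕ} (S : ∀ j : Fin n, Finset (Finset (Fin n)))
    (H : Fin n → Finset (Fin n) → ℕ) (W : Fin n → ℕ) (R : Fin n → Finset (Fin n) → Cardinal) :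
    ∑ x : (Σ (j : Fin n) (T : {T // T ∈ S j}), Fin (H j T.1) × Fin (W j)), R x.1 x.2.1.1 =
      ∑ j, ∑ T ∈ S j, ((W j * H j T : ℕ) : Cardinal) * R j T := by
  rw [Fintype.sum_sigma]
  refine Finset.sum_congr rfl fun j _ => ?_
  rw [Fintype.sum_sigma]
  have h1 : ∀ T : {T // T ∈ S j}, ∑ y : Fin (H j T.1) × Fin (W j), R j T.1 =
      ((W j * H j T.1 : ℕ) : Cardinal) * R j T.1 := by
    intro T
    rw [Finset.sum_const, Finset.card_univ, Fintype.card_prod, Fintype.card_fin, Fintype.card_fin,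
      nsmul_eq_mul, mul_comm (H j T.1)]
  rw [Finset.sum_congr rfl fun T _ => h1 T]
  exact Finset.sum_coe_sort (S j) (fun T => ((W j * H j T : ℕ) : Cardinal) * R j T)

theorem rank_type {Γ Γ' : Grid} (hΓ : Orth Γ') (hF : Fun Γ') (c : CM)
    (E : Fin n → WeierstrassCurve K) (hE : ∀ i, ((E i)⁄Qb).IsElliptic)
    (inj : ∀ i j, (E i)⁄Qb = (E j)⁄Qb → i = j) (hle : ∀ i, Γ ((E i)⁄Qb) ≤ Γ' ((E i)⁄Qb))
    (hSt : ∀ i, ∀ P ∈ Γ ((E i)⁄Qb), (c.w ((E i)⁄Qb)).k0 P ∈ Γ ((E i)⁄Qb))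
    {e : (Qb ≃ₐ[K] Qb) → Fin n → Bool} (he : ∀ l, GalW c (E l) (fun σ => e σ l))
    (κ : Fin r → Fin n) (μ : Fin D → Fin n) {F : Type} [Field F] [Algebra Qb F]
    (ξ : ∀ a, ((prd E μ a)⁄F).toAffine.Point)
    (hξ : IsGen 0 (Algebra.ofId Qb F) (prd E μ) ξ) :
    Module.rank ℤ ((clM c κ ξ).comp (ZM Γ c E e κ μ).subtype).range =
      ∑ j, ∑ T ∈ (Finset.univ.erase j).powerset,
        ((bw (c.ω ((E j)⁄Qb)) (num κ j) (num μ j) * ∏ l ∈ Finset.univ.erase j,
          hw (c.ω ((E l)⁄Qb)) (decide (l ∈ T)) (num κ l) (num μ l) : ℕ) : Cardinal) *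
          Module.rank ℤ (GTg Γ E e j T) := by
  choose p N a hN ha hx using fun (j : Fin n) (T : Finset (Fin n)) =>
    good_fS c E inj κ μ j T
  choose ι x N' hN' hι hxr hxk hxd using fun j : Fin n =>
    lad c ((E j)⁄Qb) (num κ j) (num μ j)
  set H : Fin n → Finset (Fin n) → ℕ := fun j T => ∏ l ∈ Finset.univ.erase j,
    hw (c.ω ((E l)⁄Qb)) (decide (l ∈ T)) (num κ l) (num μ l) with hH
  set W : Fin n → ℕ := fun j => bw (c.ω ((E j)⁄Qb)) (num κ j) (num μ j) with hW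
  let X : Type := Σ (j : Fin n) (T : {T // T ∈ (Finset.univ.erase j).powerset}),
    Fin (H j T.1) × Fin (W j)
  let α : ZM Γ c E e κ μ →+ CH (prd E κ) (pt0 Qb) D := (clM c κ ξ).comp (ZM Γ c E e κ μ).subtype
  let ψ : ∀ y : X, ZM Γ c E e κ μ →+ GTg Γ E e y.1 y.2.1.1 := fun y =>
    { toFun := fun z => ⟨tT c E κ μ y.1 (fS c E κ μ y.1 y.2.1.1 (p y.1 y.2.1.1 y.2.2.1).1)
        (ι y.1 y.2.2.2) z.1, tT_mem he hSt z.2 y.1 (Finset.mem_powerset.1 y.2.1.2) _ _⟩
      map_zero' := Subtype.ext (map_zero _)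
      map_add' := fun z z' => Subtype.ext (map_add _ _ _) }
  have htor : ∀ (y : X) (z : ZM Γ c E e κ μ) (m : ℤ) (v : GTg Γ E e y.1 y.2.1.1),
      IsOfFinAddOrder (ψ y z - m • v) ↔
      IsOfFinAddOrder (tT c E κ μ y.1 (fS c E κ μ y.1 y.2.1.1 (p y.1 y.2.1.1 y.2.2.1).1)
        (ι y.1 y.2.2.2) z.1 - m • v.1) := by
    intro y z m v
    rw [isOfFinAddOrder_iff_nsmul_eq_zero, isOfFinAddOrder_iff_nsmul_eq_zero]
    refine exists_congr fun k => and_congr_right fun _ => ?_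
    rw [← Subtype.coe_inj]
    rfl
  have htor0 : ∀ (y : X) (z : ZM Γ c E e κ μ), IsOfFinAddOrder (ψ y z) ↔
      IsOfFinAddOrder (tT c E κ μ y.1 (fS c E κ μ y.1 y.2.1.1 (p y.1 y.2.1.1 y.2.2.1).1)
        (ι y.1 y.2.2.2) z.1) := by
    intro y z
    have h := htor y z 0 0
    rw [zero_zsmul, zero_zsmul, sub_zero, sub_zero] at h
    exact h
  -- the elements
  let zz : ∀ (j : Fin n) (T : Finset (Fin n)) (i : Fin (H j T)) (β : Fin (W j))
      (y : ((E j)⁄Qb).toAffine.Point), PM E κ D →₀ ℤ :=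
    fun j T i β y => ∑ t, a j T i t • elt c E κ μ j T (p j T t).1 y (x j β)
  have hzm : ∀ j T i β (y : ((E j)⁄Qb).toAffine.Point), y ∈ GTg Γ E e j T →
      zz j T i β y ∈ ZM Γ c E e κ μ := by
    intro j T i β y hy
    exact sum_mem fun t _ => AddSubgroup.zsmul_mem _
      (elt_mem inj he hSt κ μ j T (p j T t).2 hy (x j β) fun h => hxr j h β) _
  have key0 : ∀ j T i β y j' (hj : j' ≠ j) f s, tT c E κ μ j' f s (zz j T i β y) = 0 := by
    intro j T i β y j' hj f s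
    rw [map_sum]
    refine Finset.sum_eq_zero fun t _ => ?_
    rw [map_zsmul, tT_elt_ne inj κ μ hj, zsmul_zero]
  have key1 : ∀ j T T' (hT : T ⊆ Finset.univ.erase j) (hT' : T' ⊆ Finset.univ.erase j)
      (hne : T ≠ T') i β y M' s,
      IsOfFinAddOrder (tT c E κ μ j (fS c E κ μ j T' M') s (zz j T i β y)) := by
    intro j T T' hT hT' hne i β y M' s
    obtain ⟨k, hk⟩ := hxk j β s
    have h := R1_sub (Finset.univ : Finset (Fin (H j T))) (a j T i) (fun _ => 0)
      (fun t => elt c E κ μ j T (p j T t).1 y (x j β)) (tT c E κ μ j (fS c E κ μ j T' M') s) y 0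
      (fun t _ => by
        have h1 := tT_elt inj κ μ j hT hT' (p j T t).1 M' y (x j β) s k hk
        rw [if_neg hne] at h1
        exact h1) (by simp)
    rw [zero_zsmul, sub_zero] at h
    exact h
  have key2 : ∀ j T (hT : T ⊆ Finset.univ.erase j) i β y i' β',
      IsOfFinAddOrder (tT c E κ μ j (fS c E κ μ j T (p j T i').1) (ι j β') (zz j T i β y) -
        (if i = i' ∧ β = β' then 2 ^ (n + 1) * N' j * N j T else 0) • y) := by
    intro j T hT i β y i' β'
    refine R1_sub (Finset.univ : Finset (Fin (H j T))) (a j T i)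
      (fun t => 2 ^ (n + 1) * (if β = β' then N' j else 0) *
        fS c E κ μ j T (p j T i').1 (p j T t).1)
      (fun t => elt c E κ μ j T (p j T t).1 y (x j β))
      (tT c E κ μ j (fS c E κ μ j T (p j T i').1) (ι j β')) y _ (fun t _ => ?_) ?_
    · have h1 := tT_elt inj κ μ j hT hT (p j T t).1 (p j T i').1 y (x j β) (ι j β')
        (if β = β' then N' j else 0) ((hxd j β β').trans (by congr))
      rw [if_pos rfl] at h1
      exact h1
    · have h1 := ha j T i i'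
      have h2 : ∑ t, a j T i t * (2 ^ (n + 1) * (if β = β' then N' j else 0) *
          fS c E κ μ j T (p j T i').1 (p j T t).1) =
          2 ^ (n + 1) * (if β = β' then N' j else 0) *
            ∑ t, a j T i t * fS c E κ μ j T (p j T t).1 (p j T i').1 := by
        rw [Finset.mul_sum]
        refine Finset.sum_congr rfl fun t _ => ?_
        rw [R1_symm c E κ μ j T (p j T i').1]
        ring
      rw [h2, h1]
      by_cases hβ : β = β'
      · by_cases hi : i = i'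
        · simp [hβ, hi]
        · simp [hi]
      · simp [hβ]
  have h := rank_tests (fun y : X => GTg Γ E e y.1 y.2.1.1) α ψ ?_ ?_
  · change Module.rank ℤ α.range = _
    rw [h]
    exact R1_card (fun j => (Finset.univ.erase j).powerset) H W
      (fun j T => Module.rank ℤ (GTg Γ E e j T))
  · intro z
    have hc := critM hΓ hF c E hE inj κ μ ξ hξ z.1
      (fun q hq => ⟨(z.2.1 q hq).1, fun i => hle _ ((z.2.1 q hq).2 i)⟩) z.2.2.2
    constructor
    · intro hz y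
      rw [htor0]
      exact tors_fS c E κ μ y.1 (ι y.1 y.2.2.2) z.1 (fun M hM => hc.1 hz y.1 M hM _) y.2.1.1 _
        (p y.1 y.2.1.1 y.2.2.1).2
    · intro hz
      refine hc.2 fun j M hM s => tors_fO c E κ μ j s z.1 M fun T hT => ?_
      refine tors_span c E κ μ j T (p j T) (hx j T) (ι j) (hι j) z.1
        (fun q hq => (z.2.1 q hq).1) (fun i β => ?_) M hM s
      exact (htor0 ⟨j, ⟨T, hT⟩, (i, β)⟩ z).1 (hz ⟨j, ⟨T, hT⟩, (i, β)⟩)
  · rintro ⟨j, ⟨T, hT⟩, ⟨i, β⟩⟩ y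
    have hT1 := Finset.mem_powerset.1 hT
    refine ⟨2 ^ (n + 1) * N' j * N j T, ⟨zz j T i β y.1, hzm j T i β y.1 y.2⟩,
      mul_ne_zero (mul_ne_zero (by positivity) (hN' j)) (hN j T), ?_, ?_⟩
    · rw [htor]
      have h1 := key2 j T hT1 i β y.1 i β
      rw [if_pos ⟨rfl, rfl⟩] at h1
      exact h1
    · rintro ⟨j', ⟨T', hT'⟩, ⟨i', β'⟩⟩ hne
      rw [htor0]
      by_cases hj : j' = j
      · subst hj
        by_cases hTT : T = T'
        · subst hTT
          have h1 := key2 j' T hT1 i β y.1 i' β'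
          rw [if_neg (fun h => hne (by rw [h.1, h.2])), zero_zsmul, sub_zero] at h1
          exact h1
        · exact key1 j' T T' hT1 (Finset.mem_powerset.1 hT') hTT i β y.1 _ _
      · show IsOfFinAddOrder (tT c E κ μ j' _ _ (zz j T i β y.1))
        rw [key0 j T i β y.1 j' hj]
        exact IsOfFinAddOrder.zero

end Pool.Agent.LibEX75
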