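import Mathlib

/-!
[EX75 S0] eigenvectors modulo torsion (only Mathlib). For `x` let `P = ∏ x' ≠ x, (p - lam x')` (a product over `Finset.univ.erase x` of commuting endomorphisms of `C`, or
induction on the finite set): applied to the torsion element `∑ u` it gives, up to torsion, `∏ x' ≠ x, (lam x - lam x') • u x`. Or: `p` acts on the torsion-free
quotient `C ⧸ torsion` and `Module.End.eigenspaces_iSupIndep`. Or: induction over a finite set `S` containing the indices with `u x` not torsion.
-/

open scoped Classical

namespace Pool.Agent.LibEX75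

theorem S0_of_zsmul {C : Type} [AddCommGroup C] {z : ℤ} (hz : z ≠ 0) {c : C}
    (h : IsOfFinAddOrder (z • c)) : IsOfFinAddOrder c := by
  obtain ⟨n, hn, h⟩ := isOfFinAddOrder_iff_nsmul_eq_zero.1 h
  refine isOfFinAddOrder_iff_zsmul_eq_zero.2 ⟨n * z, mul_ne_zero (by exact_mod_cast hn.ne') hz, ?_⟩
  rw [mul_smul, natCast_zsmul, h]

theorem S0_aux {C X : Type} [AddCommGroup C] (p : C →+ C) (lam : X → ℤ)
    (hlam : Function.Injective lam) (S : Finset X) :
    ∀ u : X → C, (∀ x, IsOfFinAddOrder (p (u x) - lam x • u x)) →
      IsOfFinAddOrder (∑ x ∈ S, u x) → ∀ x ∈ S, IsOfFinAddOrder (u x) := by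
  induction S using Finset.induction_on with
  | empty => intro u _ _ x hx; simp at hx
  | insert a S ha ih =>
    intro u hp h
    have hT : ∀ c : C, c ∈ AddCommGroup.torsion C ↔ IsOfFinAddOrder c := fun c => Iff.rfl
    have h1 : ∀ x ∈ S, IsOfFinAddOrder ((lam x - lam a) • u x) := by
      apply ih (fun x => (lam x - lam a) • u x)
      · intro x
        rw [← hT]
        have : p ((lam x - lam a) • u x) - lam x • (lam x - lam a) • u x =
            (lam x - lam a) • (p (u x) - lam x • u x) := by
          rw [map_zsmul, smul_sub, smul_comm]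
        rw [this]
        exact AddSubgroup.zsmul_mem _ ((hT _).2 (hp x)) _
      · rw [← hT]
        have e : ∑ x ∈ S, (lam x - lam a) • u x =
            p (∑ x ∈ insert a S, u x) - lam a • (∑ x ∈ insert a S, u x) -
              ∑ x ∈ insert a S, (p (u x) - lam x • u x) := by
          rw [map_sum, Finset.smul_sum, ← Finset.sum_sub_distrib, ← Finset.sum_sub_distrib,
            Finset.sum_insert ha]
          have : p (u a) - lam a • u a - (p (u a) - lam a • u a) = 0 := sub_self _
          rw [this, zero_add]
          refine Finset.sum_congr rfl fun x _ => ?_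
          rw [sub_smul]; abel
        rw [e]
        refine AddSubgroup.sub_mem _ (AddSubgroup.sub_mem _ ?_ ?_) ?_
        · exact (hT _).2 (p.isOfFinAddOrder h)
        · exact AddSubgroup.zsmul_mem _ ((hT _).2 h) _
        · exact AddSubgroup.sum_mem _ fun x _ => (hT _).2 (hp x)
    have h2 : ∀ x ∈ S, IsOfFinAddOrder (u x) := by
      intro x hx
      refine S0_of_zsmul ?_ (h1 x hx)
      intro h0
      apply ha
      rw [← hlam (sub_eq_zero.1 h0)]
      exact hx
    intro x hx
    rcases Finset.mem_insert.1 hx with rfl | hx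
    · rw [← hT]
      have : u x = ∑ y ∈ insert x S, u y - ∑ y ∈ S, u y := by
        rw [Finset.sum_insert ha]; abel
      rw [this]
      exact AddSubgroup.sub_mem _ ((hT _).2 h) (AddSubgroup.sum_mem _ fun y hy => (hT _).2 (h2 y hy))
    · exact h2 x hx

theorem sep_eig {C X : Type} [AddCommGroup C] [Fintype X] (p : C →+ C) (u : X → C) (lam : X → ℤ)
    (hlam : Function.Injective lam) (hp : ∀ x, IsOfFinAddOrder (p (u x) - lam x • u x))
    (h : IsOfFinAddOrder (∑ x, u x)) (x : X) : IsOfFinAddOrder (u x) :=
  S0_aux p lam hlam Finset.univ u hp h x (Finset.mem_univ x)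

end Pool.Agent.LibEX75
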